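import Mathlib
import Pool.Agent.Y947.DP.Fin

/-!
# The discriminant of an integer polynomial and the energy of its zeros
-/

set_option autoImplicit false

open Finset Polynomial Module IntermediateField Pool.Agent.H388SL Pool.Agent.Y947.DL
  Pool.Agent.Y947.DM

namespace Pool.Agent.X184.Leh

/-- the discriminant as a product over the zeros -/
lemma discr_abs' {p : ℤ[X]} (hm : |p.leadingCoeff| = 1) (hd : 0 < p.natDegree) :
    |(p.discr : ℝ)| = ((p.map (Int.castRingHom ℂ)).roots.map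
      fun z => ‖(derivative (p.map (Int.castRingHom ℂ))).eval z‖).prod := by
  have h1 := resultant_deriv (f := p) (natDegree_pos_iff_degree_pos.mp hd)
  have h2 := congrArg (Int.castRingHom ℂ) h1
  rw [← resultant_map_map] at h2
  have hinj : Function.Injective (Int.castRingHom ℂ) := RingHom.injective_int _
  have hnd : (p.map (Int.castRingHom ℂ)).natDegree = p.natDegree :=
    natDegree_map_eq_of_injective hinj p
  have h3 := resultant_eq_prod_eval (p.map (Int.castRingHom ℂ))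
    (p.derivative.map (Int.castRingHom ℂ)) (p.natDegree - 1)
    (natDegree_map_le.trans (natDegree_derivative_le p)) (IsAlgClosed.splits _)
  rw [hnd] at h3
  have hlc : ‖((p.leadingCoeff : ℤ) : ℂ)‖ = 1 := by
    rw [Complex.norm_intCast]; exact_mod_cast hm
  rw [h3, Polynomial.leadingCoeff_map_of_injective hinj] at h2
  have h4 := congrArg norm h2
  rw [← derivative_map] at h4
  rw [map_mul, norm_mul, map_mul, norm_mul, map_pow, norm_pow, norm_mul, norm_pow] at h4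
  have h5 : ‖(Int.castRingHom ℂ) (-1)‖ = 1 := by simp
  rw [h5, one_pow, one_mul, eq_intCast, eq_intCast, hlc, one_pow, one_mul, one_mul,
    Complex.norm_intCast] at h4
  rw [← h4]
  have h6 := map_multiset_prod (normHom : ℂ →*₀ ℝ) ((p.map (Int.castRingHom ℂ)).roots.map
    (derivative (p.map (Int.castRingHom ℂ))).eval)
  rw [Multiset.map_map] at h6
  exact h6

lemma discr_abs {p : ℤ[X]} (hm : p.Monic) (hd : 0 < p.natDegree) :
    |(p.discr : ℝ)| = ((p.map (Int.castRingHom ℂ)).roots.map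
      fun z => ‖(derivative (p.map (Int.castRingHom ℂ))).eval z‖).prod :=
  discr_abs' (by rw [hm.leadingCoeff, abs_one]) hd

lemma discr_neg_abs {p : ℤ[X]} (hm : |p.leadingCoeff| = 1) (hd : 0 < p.natDegree) :
    |((-p).discr : ℝ)| = |(p.discr : ℝ)| := by
  rw [discr_abs' hm hd, discr_abs' (by rw [leadingCoeff_neg, abs_neg]; exact hm)
    (by rw [natDegree_neg]; exact hd)]
  rw [Polynomial.map_neg, Polynomial.roots_neg, Polynomial.derivative_neg]
  congr 1
  refine Multiset.map_congr rfl fun z _ => ?_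
  rw [eval_neg, norm_neg]

/-- the discriminant as a product over the embeddings -/
lemma discr_rep {p : ℤ[X]} {K : Type} [Field K] [NumberField K] {α : K} (h : Rep p K α)
    [DecidableEq (K →ₐ[ℚ] ℂ)] (hm : p.Monic) :
    |(p.discr : ℝ)| = ∏ σ : K →ₐ[ℚ] ℂ, ∏ τ ∈ Finset.univ.erase σ, ‖σ α - τ α‖ := by
  have hd : 0 < p.natDegree := by rw [← h.fin]; exact finrank_pos
  rw [discr_abs hm hd]
  have hroots : (p.map (Int.castRingHom ℂ)).roots =
      (Finset.univ : Finset (K →ₐ[ℚ] ℂ)).val.map fun τ => τ α := by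
    rw [h.map_eq, Finset.prod_eq_multiset_prod]
    have e : (Multiset.map (fun τ : K →ₐ[ℚ] ℂ => X - C (τ α)) Finset.univ.val) =
        Multiset.map (fun a : ℂ => X - C a)
          (Multiset.map (fun τ : K →ₐ[ℚ] ℂ => τ α) Finset.univ.val) := by
      rw [Multiset.map_map]; rfl
    rw [e, Polynomial.roots_multiset_prod_X_sub_C]
  rw [hroots, Multiset.map_map, ← Finset.prod_eq_multiset_prod]
  refine Finset.prod_congr rfl fun σ _ => ?_
  rw [Function.comp_apply, h.map_eq, ← norm_prod]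
  congr 1
  rw [Polynomial.derivative_prod_finset, Polynomial.eval_finsetSum]
  rw [Finset.sum_eq_single σ]
  · rw [Polynomial.eval_mul, Polynomial.eval_prod]
    simp
  · intro τ _ hτ
    rw [Polynomial.eval_mul, Polynomial.eval_prod]
    rw [Finset.prod_eq_zero (i := σ)]
    · simp
    · simp [Ne.symm hτ]
    · simp
  · simp

lemma discr_pos_rep {p : ℤ[X]} {K : Type} [Field K] [NumberField K] {α : K} (h : Rep p K α)
    (hm : p.Monic) : 0 < |(p.discr : ℝ)| := by
  classical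
  rw [discr_rep h hm]
  refine Finset.prod_pos fun σ _ => Finset.prod_pos fun τ hτ => ?_
  rw [norm_pos_iff]
  exact sub_ne_zero.mpr fun e => (Finset.ne_of_mem_erase hτ) (h.inj e).symm

lemma log_discr_rep {p : ℤ[X]} {K : Type} [Field K] [NumberField K] {α : K} (h : Rep p K α)
    (hm : p.Monic) :
    Real.log |(p.discr : ℝ)| = ∑ σ : K →ₐ[ℚ] ℂ, ∑ τ : K →ₐ[ℚ] ℂ, Real.log ‖σ α - τ α‖ := by
  classical
  have hne : ∀ σ : K →ₐ[ℚ] ℂ, ∀ τ ∈ Finset.univ.erase σ, ‖σ α - τ α‖ ≠ 0 := by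
    intro σ τ hτ
    rw [norm_ne_zero_iff]
    exact sub_ne_zero.mpr fun e => (Finset.ne_of_mem_erase hτ) (h.inj e).symm
  rw [discr_rep h hm, Real.log_prod fun σ _ => Finset.prod_ne_zero_iff.mpr (hne σ)]
  refine Finset.sum_congr rfl fun σ _ => ?_
  rw [Real.log_prod (hne σ), ← Finset.add_sum_erase _ _ (Finset.mem_univ σ), sub_self, norm_zero,
    Real.log_zero, zero_add]

/-- the regularised self energy in terms of the discriminant -/
lemma EE_le_discr {p : ℤ[X]} {K : Type} [Field K] [NumberField K] {α : K} (h : Rep p K α)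
    (hm : p.Monic) {ε : ℝ} (hε0 : 0 < ε) (hε : ε ≤ 1 / 2) :
    EE α (fun _ => ε) 1 1 ≤ -Real.log |(p.discr : ℝ)| + 2 * finrank ℚ K * lam α +
      2 * ε * (finrank ℚ K : ℝ) ^ 2 + finrank ℚ K * Real.log (1 / ε) := by
  classical
  have hcard : Fintype.card (K →ₐ[ℚ] ℂ) = finrank ℚ K := AlgHom.card ℚ K ℂ
  have hs0 : 0 ≤ (1 - ε) * (1 - ε) := mul_nonneg (by linarith) (by linarith)
  have hs1 : (1 - ε) * (1 - ε) < 1 := by nlinarith
  have hpt : ∀ σ ∈ (Finset.univ : Finset (K →ₐ[ℚ] ℂ)), ∀ τ ∈ (Finset.univ : Finset (K →ₐ[ℚ] ℂ)),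
      -Real.log ‖1 - ww α (fun _ => ε) σ ^ 1 * starRingEnd ℂ (ww α (fun _ => ε) τ ^ 1)‖ ≤
      (-Real.log ‖σ α - τ α‖ + (Real.log (max 1 ‖σ α‖) + Real.log (max 1 ‖τ α‖) + 2 * ε)) +
        (if σ = τ then Real.log (1 / ε) else 0) := by
    intro σ _ τ _
    have e1 := ww_mul α (fun _ => ε) σ τ one_ne_zero one_ne_zero
    rw [e1]
    simp only [pow_one]
    have hLi : 0 ≤ Real.log (max 1 ‖σ α‖) := Real.log_nonneg (le_max_left _ _)
    have hLj : 0 ≤ Real.log (max 1 ‖τ α‖) := Real.log_nonneg (le_max_left _ _)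
    by_cases hst : σ = τ
    · subst hst
      rw [if_pos rfl, sub_self, norm_zero, Real.log_zero]
      have h1 : ε ≤ ‖1 - (((1 - ε) * (1 - ε) : ℝ) : ℂ) *
          (refl (σ α) * starRingEnd ℂ (refl (σ α)))‖ := by
        have h2 : ‖(((1 - ε) * (1 - ε) : ℝ) : ℂ) * (refl (σ α) * starRingEnd ℂ (refl (σ α)))‖ ≤
            (1 - ε) * (1 - ε) := by
          rw [norm_mul, norm_mul, RCLike.norm_conj, Complex.norm_real, Real.norm_of_nonneg hs0]
          have h3 : ‖refl (σ α)‖ * ‖refl (σ α)‖ ≤ 1 :=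
            mul_le_one₀ (norm_refl_le _) (norm_nonneg _) (norm_refl_le _)
          exact mul_le_of_le_one_right hs0 h3
        have h4 := norm_sub_norm_le (1:ℂ)
          ((((1 - ε) * (1 - ε) : ℝ) : ℂ) * (refl (σ α) * starRingEnd ℂ (refl (σ α))))
        rw [norm_one] at h4
        nlinarith
      have h5 := Real.log_le_log hε0 h1
      rw [one_div, Real.log_inv]
      linarith
    · rw [if_neg hst, add_zero]
      have hne : σ α ≠ τ α := fun e => hst (h.inj e)
      have h2 := pair_log hne hs0 hs1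
      nlinarith
  have hsum := Finset.sum_le_sum fun σ hσ => Finset.sum_le_sum fun τ hτ => hpt σ hσ τ hτ
  have e2 : ∑ σ : K →ₐ[ℚ] ℂ, ∑ τ : K →ₐ[ℚ] ℂ, (if σ = τ then Real.log (1 / ε) else 0) =
      finrank ℚ K * Real.log (1 / ε) := by
    simp only [Finset.sum_ite_eq, Finset.mem_univ, if_true, Finset.sum_const, Finset.card_univ,
      hcard, nsmul_eq_mul]
  have e3 : ∑ σ : K →ₐ[ℚ] ℂ, ∑ τ : K →ₐ[ℚ] ℂ,
      (Real.log (max 1 ‖σ α‖) + Real.log (max 1 ‖τ α‖) + 2 * ε) =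
      2 * finrank ℚ K * lam α + 2 * ε * (finrank ℚ K : ℝ) ^ 2 := by
    simp only [Finset.sum_add_distrib, Finset.sum_const, Finset.card_univ, hcard, nsmul_eq_mul,
      ← Finset.mul_sum]
    unfold lam
    ring
  simp only [Finset.sum_add_distrib] at hsum e3
  rw [e2] at hsum
  have e4 : ∑ σ : K →ₐ[ℚ] ℂ, ∑ τ : K →ₐ[ℚ] ℂ, -Real.log ‖σ α - τ α‖ = -Real.log |(p.discr : ℝ)| := by
    rw [log_discr_rep h hm]
    simp only [Finset.sum_neg_distrib]
  rw [e4] at hsum
  have e5 : EE α (fun _ => ε) 1 1 = ∑ σ : K →ₐ[ℚ] ℂ, ∑ τ : K →ₐ[ℚ] ℂ,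
      -Real.log ‖1 - ww α (fun _ => ε) σ ^ 1 * starRingEnd ℂ (ww α (fun _ => ε) τ ^ 1)‖ := rfl
  rw [e5]
  linarith

/-- the defect of the discriminant, `(1/n) log⁺ (n ^ n / |disc f|)` -/
noncomputable def dfct (f : ℤ[X]) : ℝ :=
  Real.posLog ((f.natDegree : ℝ) ^ f.natDegree / |(f.discr : ℝ)|) / f.natDegree

lemma dfct_nonneg (f : ℤ[X]) : 0 ≤ dfct f :=
  div_nonneg Real.posLog_nonneg (Nat.cast_nonneg _)

/-- the bound for a represented polynomial -/
lemma rep_mainD {c : ℝ} (hc : ∀ (K : Type) [Field K] [NumberField K] (α : K), IsIntegral ℤ α →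
    α ≠ 0 → (∀ n : ℕ, 0 < n → α ^ n ≠ 1) → CInj α → (∏ σ : K →ₐ[ℚ] ℂ, ‖σ α‖ = 1) →
    (∀ p : ℕ, p.Prime → p ≠ 2 → Good α p) →
    ∀ B : ℝ, 1 ≤ B →
    (lam α ≤ 1 → ∀ κ : ℝ, 0 < κ → κ ≤ 1 → ∃ ε : (K →ₐ[ℚ] ℂ) → ℝ, (∀ σ, 0 < ε σ ∧ ε σ ≤ 1 / 2) ∧
      ∑ σ, ε σ ≤ κ * (63000000 * B) ∧
      EE α ε 1 1 ≤ finrank ℚ K * (2 * 10 ^ 9 * B * (1 + Real.log (1 / κ)))) →
    c / B ^ 3 ≤ lam α)
    {p : ℤ[X]} {K : Type} [Field K] [NumberField K] {α : K} (h : Rep p K α) (hm : p.Monic)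
    (hc0 : |p.coeff 0| = 1) (hM : 1 < MM p)
    (hgood : ∀ q : ℕ, q.Prime → q ≠ 2 → Good α q) :
    c / (1 + dfct p) ^ 3 ≤ Real.log (MM p) := by
  have hd0 := dfct_nonneg p
  rw [h.log_MM]
  apply hc K α h.isInt (h.ne_zero hc0) (h.not_root hM) h.inj (h.prod_norm hc0) hgood
    (1 + dfct p) (by linarith)
  intro hlam κ hκ0 hκ1
  have hcard : Fintype.card (K →ₐ[ℚ] ℂ) = finrank ℚ K := AlgHom.card ℚ K ℂ
  have hn : 0 < finrank ℚ K := finrank_pos
  have hn1 : (1:ℝ) ≤ finrank ℚ K := by exact_mod_cast hn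
  set n : ℝ := (finrank ℚ K : ℝ) with hndef
  have hn0 : 0 < n := by linarith
  set ε : ℝ := κ / (2 * n) with hε
  have hε0 : 0 < ε := by positivity
  have hε2 : ε ≤ 1 / 2 := by
    rw [hε, div_le_div_iff₀ (by positivity) (by norm_num)]
    nlinarith
  refine ⟨fun _ => ε, fun _ => ⟨hε0, hε2⟩, ?_, ?_⟩
  · rw [Finset.sum_const, Finset.card_univ, hcard, nsmul_eq_mul, ← hndef, hε]
    have e : n * (κ / (2 * n)) = κ / 2 := by field_simp
    rw [e]
    nlinarith
  · refine (EE_le_discr h hm hε0 hε2).trans ?_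
    rw [← hndef]
    have hlogκ : 0 ≤ Real.log (1 / κ) := Real.log_nonneg (by rw [le_div_iff₀ hκ0]; linarith)
    have hD := discr_pos_rep h hm
    have e1 : Real.log (1 / ε) = Real.log 2 + Real.log n + Real.log (1 / κ) := by
      rw [hε, ← Real.log_mul (by norm_num) hn0.ne', ← Real.log_mul (by positivity) (by positivity)]
      congr 1
      field_simp
    have e2 : 2 * ε * n ^ 2 = κ * n := by
      rw [hε]; field_simp
    have h1 : n * Real.log n - Real.log |(p.discr : ℝ)| ≤ n * dfct p := by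
      have h2 : Real.log ((p.natDegree : ℝ) ^ p.natDegree / |(p.discr : ℝ)|) ≤
          Real.posLog ((p.natDegree : ℝ) ^ p.natDegree / |(p.discr : ℝ)|) := by
        rw [Real.posLog_apply]; exact le_max_right _ _
      have hpn : (p.natDegree : ℝ) = n := by rw [hndef, h.fin]
      have hpn0 : (p.natDegree : ℝ) ^ p.natDegree ≠ 0 := by
        rw [hpn]; positivity
      rw [Real.log_div hpn0 hD.ne', Real.log_pow, hpn] at h2
      unfold dfct
      rw [hpn]
      rw [mul_div_cancel₀ _ hn0.ne']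
      exact h2
    rw [e1, e2]
    have h3 := Real.log_two_lt_d9
    have h4 : 0 ≤ n * dfct p := by positivity
    have h5 : 0 ≤ n * Real.log (1 / κ) := by positivity
    have h6 : 0 ≤ n * dfct p * Real.log (1 / κ) := by positivity
    have h7 : 2 * n * lam α ≤ 2 * n := by nlinarith [lam_nonneg α]
    have h8 : κ * n ≤ n := by nlinarith
    have h9 : n * Real.log 2 ≤ n := by nlinarith
    nlinarith

end Pool.Agent.X184.Leh
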