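import Mathlib
import Pool.Agent.X184.Leh.D1

/-!
# The discriminant of `g (X ^ q)` and the final bound
-/

set_option autoImplicit false

open Finset Polynomial Module IntermediateField Pool.Agent.H388SL Pool.Agent.Y947.DL
  Pool.Agent.Y947.DM

namespace Pool.Agent.X184.Leh

/-- the zeros of `G (X ^ q)` -/
lemma roots_expand {q : ℕ} (hq : 0 < q) {G : ℂ[X]} (hG : G.Monic) (r : ℂ → ℂ)
    (hr : ∀ w, r w ^ q = w) :
    (expand ℂ q G).roots =
      G.roots.bind fun w => (nthRootsFinset q (1:ℂ)).val.map fun ζ => ζ * r w := by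
  have h1 : expand ℂ q G = (G.roots.map fun w =>
      ((nthRootsFinset q (1:ℂ)).val.map fun ζ => (X - C (ζ * r w) : ℂ[X])).prod).prod := by
    conv_lhs => rw [(IsAlgClosed.splits G).eq_prod_roots_of_monic hG]
    rw [map_multiset_prod, Multiset.map_map]
    congr 1
    refine Multiset.map_congr rfl fun w _ => ?_
    rw [Function.comp_apply, map_sub, expand_X, expand_C]
    conv_lhs => rw [← hr w]
    rw [X_pow_sub_C_eq hq]
    rfl
  have h2 : (G.roots.map fun w =>
      ((nthRootsFinset q (1:ℂ)).val.map fun ζ => (X - C (ζ * r w) : ℂ[X])).prod).prod =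
      ((G.roots.bind fun w => (nthRootsFinset q (1:ℂ)).val.map fun ζ => ζ * r w).map
        fun a => (X - C a : ℂ[X])).prod := by
    rw [Multiset.map_bind, Multiset.prod_bind]
    congr 1
    refine Multiset.map_congr rfl fun w _ => ?_
    rw [Multiset.map_map]
    rfl
  rw [h1, h2, Polynomial.roots_multiset_prod_X_sub_C]

/-- the discriminant of `g (X ^ q)` -/
lemma discr_expand {q : ℕ} (hq : 0 < q) {g : ℤ[X]} (hm : g.Monic) (hd : 0 < g.natDegree)
    (hg0 : |g.coeff 0| = 1) :
    |((expand ℤ q g).discr : ℝ)| = (q : ℝ) ^ (q * g.natDegree) * |(g.discr : ℝ)| ^ q := by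
  have hem : (expand ℤ q g).Monic := by
    rw [Monic, leadingCoeff_expand hq]; exact hm
  have hed : 0 < (expand ℤ q g).natDegree := by
    rw [natDegree_expand]; exact Nat.mul_pos hd hq
  rw [discr_abs hem hed, discr_abs hm hd]
  set G : ℂ[X] := g.map (Int.castRingHom ℂ) with hG
  have hGm : G.Monic := hm.map _
  have hGe : (expand ℤ q g).map (Int.castRingHom ℂ) = expand ℂ q G := by
    rw [hG, Polynomial.map_expand]
  rw [hGe]
  have hex : ∀ w : ℂ, ∃ r : ℂ, r ^ q = w := fun w => IsAlgClosed.exists_pow_nat_eq w hq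
  choose r hr using hex
  rw [roots_expand hq hGm r hr, Multiset.map_bind, Multiset.prod_bind]
  have hGd : G.natDegree = g.natDegree :=
    natDegree_map_eq_of_injective (RingHom.injective_int _) g
  have hkey : ∀ w : ℂ, (Multiset.map (fun z => ‖eval z (derivative (expand ℂ q G))‖)
      (Multiset.map (fun ζ => ζ * r w) (nthRootsFinset q (1:ℂ)).val)).prod =
      (q:ℝ) ^ q * ‖w‖ ^ (q - 1) * ‖eval w (derivative G)‖ ^ q := by
    intro w
    rw [Multiset.map_map]
    have h1 : (Multiset.map ((fun z => ‖eval z (derivative (expand ℂ q G))‖) ∘ fun ζ => ζ * r w)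
        (nthRootsFinset q (1:ℂ)).val).prod =
        ∏ ζ ∈ nthRootsFinset q (1:ℂ), ((q:ℝ) * ‖r w‖ ^ (q - 1) * ‖eval w (derivative G)‖) := by
      rw [Finset.prod_eq_multiset_prod]
      congr 1
      refine Multiset.map_congr rfl fun ζ hζ => ?_
      have hζ' : ζ ∈ nthRootsFinset q (1:ℂ) := hζ
      have hζq : ζ ^ q = 1 := (mem_nthRootsFinset hq 1).mp hζ'
      rw [Function.comp_apply, derivative_expand]
      simp only [eval_mul, expand_eval, eval_pow, eval_X, mul_pow, hζq, hr, one_mul, norm_mul,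
        norm_pow, norm_of_mem_grid hq hζ', one_pow]
      rw [eval_natCast, Complex.norm_natCast]
      ring
    rw [h1, Finset.prod_const, card_grid hq, mul_pow, mul_pow]
    congr 2
    rw [← pow_mul, mul_comm (q - 1) q, pow_mul, ← norm_pow, hr]
  rw [Multiset.map_congr rfl fun w _ => hkey w]
  rw [Multiset.prod_map_mul, Multiset.prod_map_mul, Multiset.map_const', Multiset.prod_replicate,
    Multiset.prod_map_pow, Multiset.prod_map_pow, ← pow_mul]
  have hcard : Multiset.card G.roots = g.natDegree := by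
    rw [← hGd]; exact (IsAlgClosed.splits G).natDegree_eq_card_roots.symm
  have hnorm : (Multiset.map (fun w : ℂ => ‖w‖) G.roots).prod = 1 := by
    have h2 : ‖((g.coeff 0 : ℤ) : ℂ)‖ = 1 := by
      rw [Complex.norm_intCast]
      exact_mod_cast hg0
    have h3 : ((g.coeff 0 : ℤ) : ℂ) = G.coeff 0 := by
      rw [hG, coeff_map, eq_intCast]
    rw [h3, Polynomial.coeff_zero_eq_eval_zero] at h2
    have h4 := (IsAlgClosed.splits G).eq_prod_roots_of_monic hGm
    rw [h4, Polynomial.eval_multiset_prod, Multiset.map_map] at h2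
    have h6 := map_multiset_prod (normHom : ℂ →*₀ ℝ)
      (Multiset.map ((fun p : ℂ[X] => eval 0 p) ∘ fun a => X - C a) G.roots)
    rw [Multiset.map_map] at h6
    have h7 : (normHom : ℂ →*₀ ℝ)
      (Multiset.map ((fun p : ℂ[X] => eval 0 p) ∘ fun a => X - C a) G.roots).prod = 1 := h2
    rw [h7] at h6
    rw [h6]
    congr 1
    refine Multiset.map_congr rfl fun w _ => ?_
    simp [normHom]
  rw [hcard, hnorm, one_pow, mul_one]

lemma dfct_neg {f : ℤ[X]} (hm : |f.leadingCoeff| = 1) (hd : 0 < f.natDegree) :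
    dfct (-f) = dfct f := by
  unfold dfct
  rw [discr_neg_abs hm hd, natDegree_neg]

lemma dfct_expand {q : ℕ} (hq : 0 < q) {g : ℤ[X]} (hm : g.Monic) (hd : 0 < g.natDegree)
    (hg0 : |g.coeff 0| = 1) : dfct (expand ℤ q g) = dfct g := by
  unfold dfct
  rw [discr_expand hq hm hd hg0, natDegree_expand]
  have hq0 : (0:ℝ) < q := by exact_mod_cast hq
  have hn0 : (0:ℝ) < g.natDegree := by exact_mod_cast hd
  have e1 : (((g.natDegree * q : ℕ) : ℝ) ^ (g.natDegree * q) /
      ((q:ℝ) ^ (q * g.natDegree) * |(g.discr : ℝ)| ^ q)) =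
      ((g.natDegree : ℝ) ^ g.natDegree / |(g.discr : ℝ)|) ^ q := by
    push_cast
    rw [mul_pow, div_pow, ← pow_mul, mul_comm q g.natDegree]
    field_simp
  rw [e1, Real.posLog_pow]
  push_cast
  field_simp

/-- monic units -/
theorem monic_caseD : ∃ c : ℝ, 0 < c ∧ ∀ f : ℤ[X], Irreducible f → f.Monic → |f.coeff 0| = 1 →
    1 < MM f → c / (1 + dfct f) ^ 3 ≤ Real.log (MM f) := by
  obtain ⟨c, hc0, hcm⟩ := Pool.Agent.Y947.DP.field_main3
  refine ⟨c, hc0, ?_⟩
  have ind : ∀ n : ℕ, ∀ f : ℤ[X], f.natDegree = n → Irreducible f → f.Monic → |f.coeff 0| = 1 →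
      1 < MM f → c / (1 + dfct f) ^ 3 ≤ Real.log (MM f) := by
    intro n
    induction n using Nat.strong_induction_on with
    | _ n ih =>
      intro f hfn hf hm hf0 hM
      by_cases hexp : ∃ q : ℕ, q.Prime ∧ ∃ g : ℤ[X], f = expand ℤ q g
      · obtain ⟨q, hq, g, hg⟩ := hexp
        have hgirr : Irreducible g := of_irreducible_expand hq.ne_zero (by rw [← hg]; exact hf)
        have hgm : g.Monic := by
          have h1 := hm
          rw [hg, Monic, leadingCoeff_expand hq.pos] at h1
          exact h1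
        have hMM : MM f = MM g := by rw [hg, MM_expand hq.pos]
        have hg0 : |g.coeff 0| = 1 := by
          rw [hg, coeff_expand hq.pos, if_pos (dvd_zero q), Nat.zero_div] at hf0
          exact hf0
        have hg1 : g.natDegree ≠ 0 := natDegree_ne (by rw [← hMM]; exact hM) hgm
        have hdf : dfct f = dfct g := by
          rw [hg, dfct_expand hq.pos hgm (Nat.pos_of_ne_zero hg1) hg0]
        have hgd : g.natDegree < n := by
          rw [← hfn, hg, natDegree_expand]
          have := hq.two_le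
          have h2 : 0 < g.natDegree := Nat.pos_of_ne_zero hg1
          nlinarith
        have h1 := ih g.natDegree hgd g rfl hgirr hgm hg0 (by rw [← hMM]; exact hM)
        rw [hMM, hdf]
        exact h1
      · push Not at hexp
        obtain ⟨z, hz⟩ := exists_zero hM hm
        obtain ⟨hNF, hrep⟩ := exists_rep f hf hm z hz
        apply rep_mainD hcm hrep hm hf0 hM
        intro q hq hq2
        exact good_of_witness (hrep.ne_zero hf0) hrep.inj hq hq2 (hrep.witness hq (hexp q hq))
  intro f hf hm hf0 hM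
  exact ind _ f rfl hf hm hf0 hM

/-- the general irreducible case -/
theorem irr_caseD : ∃ c : ℝ, 0 < c ∧ ∀ f : ℤ[X], Irreducible f →
    1 < MM f → c / (1 + dfct f) ^ 3 ≤ Real.log (MM f) := by
  obtain ⟨c1, hc1, hc⟩ := monic_caseD
  have hlog2 : 0 < Real.log 2 := Real.log_pos (by norm_num)
  set c := min c1 (Real.log 2) with hcdef
  have hc0 : 0 < c := lt_min (by positivity) hlog2
  refine ⟨c, hc0, ?_⟩
  intro f hf hM
  have hdf := dfct_nonneg f
  have hcmp : c / (1 + dfct f) ^ 3 ≤ c1 / (1 + dfct f) ^ 3 :=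
    div_le_div_of_nonneg_right (min_le_left _ _) (by positivity)
  by_cases hbig : 2 ≤ MM f
  · have h1 : c ≤ Real.log 2 := min_le_right _ _
    have h2 : Real.log 2 ≤ Real.log (MM f) := Real.log_le_log (by norm_num) hbig
    have h3 : c / (1 + dfct f) ^ 3 ≤ c := by
      apply div_le_self hc0.le
      exact one_le_pow₀ (by linarith)
    linarith
  push Not at hbig
  have hf0 : f ≠ 0 := hf.ne_zero
  have hlc : |f.leadingCoeff| = 1 := by
    have h1 : 1 ≤ |f.leadingCoeff| := Int.one_le_abs (leadingCoeff_ne_zero.mpr hf0)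
    have h3 := leadingCoeff_le_MM f
    by_contra hne
    have h2 : 2 ≤ |f.leadingCoeff| := by omega
    have h4 : (2:ℝ) ≤ |(f.leadingCoeff : ℝ)| := by exact_mod_cast h2
    linarith
  have hcc : |f.coeff 0| = 1 := by
    have h0 : f.coeff 0 ≠ 0 := by
      intro h
      have hdvd : (X : ℤ[X]) ∣ f := X_dvd_iff.mpr h
      obtain ⟨g, hg⟩ := hdvd
      rcases hf.isUnit_or_isUnit hg with h1 | h1
      · exact Polynomial.not_isUnit_X h1
      · have h2 : MM f = 1 := by
          rw [hg, MM_mul]
          obtain ⟨r, hr, hrg⟩ := Polynomial.isUnit_iff.mp h1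
          have h3 : MM (X : ℤ[X]) = 1 := by
            rw [MM, Polynomial.map_X]
            have := mahlerMeasure_X_sub_C 0
            simpa using this
          have h4 : MM g = 1 := by
            rw [← hrg, MM, Polynomial.map_C, mahlerMeasure_const, eq_intCast, Complex.norm_intCast]
            rcases Int.isUnit_iff.mp hr with h5 | h5 <;> simp [h5]
          rw [h3, h4, one_mul]
        linarith
    have h1 : 1 ≤ |f.coeff 0| := Int.one_le_abs h0
    have h3 := coeff_zero_le_MM f
    by_contra hne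
    have h2 : 2 ≤ |f.coeff 0| := by omega
    have h4 : (2:ℝ) ≤ |(f.coeff 0 : ℝ)| := by exact_mod_cast h2
    linarith
  rcases (abs_eq (by norm_num : (0:ℤ) ≤ 1)).mp hlc with h | h
  · exact hcmp.trans (hc f hf h hcc hM)
  · have hnm : (-f).Monic := by
      rw [Monic, leadingCoeff_neg, h]; norm_num
    have hM' : 1 < MM (-f) := by rw [MM_neg]; exact hM
    have hd : 0 < f.natDegree := by
      have := natDegree_ne hM' hnm
      rw [natDegree_neg] at this
      omega
    have h1 := hc (-f) (by simpa using (irreducible_units_mul (-1 : ℤ[X]ˣ)).mpr hf) hnm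
      (by rw [coeff_neg, abs_neg]; exact hcc) hM'
    rw [MM_neg, dfct_neg hlc hd] at h1
    exact hcmp.trans h1

end Pool.Agent.X184.Leh
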