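import Mathlib
import Pool.Agent.X184.Leh.D2

/-!
# The weighted energy inequality for the powers of an algebraic number
-/

set_option autoImplicit false

open Finset Polynomial Module IntermediateField Pool.Agent.H388SL Pool.Agent.Y947.DL
  Pool.Agent.Y947.DM

namespace Pool.Agent.X184.Leh

section

variable {K : Type*} [Field K] [NumberField K]

/-- sums of logarithms of differences of conjugates -/
noncomputable def SL (β γ : K) : ℝ := ∑ σ : K →ₐ[ℚ] ℂ, ∑ τ : K →ₐ[ℚ] ℂ, Real.log ‖σ β - τ γ‖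

/-- power sums of the reflected conjugates -/
noncomputable def UU (α : K) (m : ℕ) : ℂ := ∑ σ : K →ₐ[ℚ] ℂ, H388SL.refl (σ α) ^ m

lemma SL_comm (β γ : K) : SL β γ = SL γ β := by
  unfold SL
  rw [Finset.sum_comm]
  refine Finset.sum_congr rfl fun σ _ => Finset.sum_congr rfl fun τ _ => ?_
  rw [norm_sub_rev]

lemma SL_eq_log {β γ : K} (hne : ∀ σ τ : K →ₐ[ℚ] ℂ, σ β ≠ τ γ) :
    SL β γ = Real.log (∏ σ : K →ₐ[ℚ] ℂ, ∏ τ : K →ₐ[ℚ] ℂ, ‖σ β - τ γ‖) := by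
  have hz : ∀ σ τ : K →ₐ[ℚ] ℂ, ‖σ β - τ γ‖ ≠ 0 := fun σ τ =>
    norm_ne_zero_iff.mpr (sub_ne_zero.mpr (hne σ τ))
  rw [Real.log_prod fun σ _ => Finset.prod_ne_zero_iff.mpr fun τ _ => hz σ τ]
  unfold SL
  refine Finset.sum_congr rfl fun σ _ => ?_
  rw [Real.log_prod fun τ _ => hz σ τ]

lemma SL_nonneg {β γ : K} (hβ : IsIntegral ℤ β) (hγ : IsIntegral ℤ γ) (hc : CInj γ)
    (hne : ∀ σ τ : K →ₐ[ℚ] ℂ, σ β ≠ τ γ) : 0 ≤ SL β γ := by
  rw [SL_eq_log hne]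
  exact Real.log_nonneg (one_le_cross hβ hγ hc hne)

lemma SL_frob {α : K} (hα : IsIntegral ℤ α) (hc : CInj α) {p : ℕ} (hp : p.Prime)
    (hne : ∀ σ τ : K →ₐ[ℚ] ℂ, σ (α ^ p) ≠ τ α) : finrank ℚ K * Real.log p ≤ SL (α ^ p) α := by
  rw [SL_eq_log hne]
  have h1 := pow_le_frob hα hc p hp hne
  have hp0 : (0:ℝ) < p := by exact_mod_cast hp.pos
  have h2 := Real.log_le_log (by positivity) h1
  rwa [Real.log_pow] at h2

/-- the sums `σ(α) ^ l τ(α) ^ (p - 1 - l)` -/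
noncomputable def HH (α : K) (p : ℕ) (σ τ : K →ₐ[ℚ] ℂ) : ℂ :=
  ∑ l ∈ range p, (σ α) ^ l * (τ α) ^ (p - 1 - l)

lemma HH_mul (α : K) (p : ℕ) (σ τ : K →ₐ[ℚ] ℂ) :
    HH α p σ τ * (σ α - τ α) = σ (α ^ p) - τ (α ^ p) := by
  unfold HH
  rw [map_pow, map_pow]
  exact Commute.geom_sum₂_mul (Commute.all (σ α) (τ α)) p

lemma HH_diag (α : K) {p : ℕ} (hp : 0 < p) (σ : K →ₐ[ℚ] ℂ) :
    HH α p σ σ = σ ((p : K) * α ^ (p - 1)) := by
  unfold HH
  rw [Finset.sum_congr rfl (g := fun _ => (σ α) ^ (p - 1))]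
  · simp
  · intro l hl
    rw [mem_range] at hl
    rw [← pow_add]
    congr 1
    omega

/-- the product of the `HH` is a rational number -/
lemma HH_norm {α : K} (hα : IsIntegral ℤ α) (hc : CInj α) {p : ℕ}
    (hpc : CInj (α ^ p)) : ∃ y : K, ∀ σ : K →ₐ[ℚ] ℂ, σ y = ∏ τ : K →ₐ[ℚ] ℂ, HH α p σ τ := by
  set f := minpoly ℤ α with hf
  set G := minpoly ℤ (α ^ p) with hG
  have hdvd : f ∣ expand ℤ p G := by
    apply minpoly.isIntegrallyClosed_dvd hα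
    rw [Polynomial.expand_aeval, hG, minpoly.aeval]
  obtain ⟨Q, hQ⟩ := hdvd
  have hfC : f.map (Int.castRingHom ℂ) = ∏ τ : K →ₐ[ℚ] ℂ, (X - C (τ α)) := by
    rw [← minpoly_map_eq hc, minpoly.isIntegrallyClosed_eq_field_fractions' ℚ hα, Polynomial.map_map]
    rfl
  have hGC : G.map (Int.castRingHom ℂ) = ∏ τ : K →ₐ[ℚ] ℂ, (X - C (τ (α ^ p))) := by
    rw [← minpoly_map_eq hpc, minpoly.isIntegrallyClosed_eq_field_fractions' ℚ (hα.pow p),
      Polynomial.map_map]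
    rfl
  have hQC : Q.map (Int.castRingHom ℂ) =
      ∏ τ : K →ₐ[ℚ] ℂ, ∑ l ∈ range p, X ^ l * C (τ α) ^ (p - 1 - l) := by
    have hf0 : f.map (Int.castRingHom ℂ) ≠ 0 := by
      rw [hfC]
      exact Finset.prod_ne_zero_iff.mpr fun τ _ => X_sub_C_ne_zero _
    apply mul_left_cancel₀ hf0
    rw [← Polynomial.map_mul, ← hQ, Polynomial.map_expand, hGC, hfC, ← Finset.prod_mul_distrib,
      map_prod]
    refine Finset.prod_congr rfl fun τ _ => ?_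
    rw [map_sub, expand_X, expand_C, map_pow, C_pow, mul_comm]
    exact (Commute.geom_sum₂_mul (Commute.all (X : ℂ[X]) (C (τ α))) p).symm
  refine ⟨aeval α Q, fun σ => ?_⟩
  rw [map_aevalZ]
  have e1 : aeval (σ α) Q = (Q.map (Int.castRingHom ℂ)).eval (σ α) := by
    rw [Polynomial.eval_map, Polynomial.aeval_def]; rfl
  rw [e1, hQC, eval_prod]
  refine Finset.prod_congr rfl fun τ _ => ?_
  rw [eval_finsetSum]
  unfold HH
  simp

/-- the off-diagonal part -/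
lemma one_le_off [DecidableEq (K →ₐ[ℚ] ℂ)] {α : K} (hα : IsIntegral ℤ α) (h0 : α ≠ 0)
    (hc : CInj α) {p : ℕ} (hp : 0 < p) (hpc : CInj (α ^ p)) :
    1 ≤ ∏ σ : K →ₐ[ℚ] ℂ, ∏ τ ∈ Finset.univ.erase σ, ‖HH α p σ τ‖ := by
  have hne : ∀ σ : K →ₐ[ℚ] ℂ, ∀ τ ∈ Finset.univ.erase σ, HH α p σ τ ≠ 0 := by
    intro σ τ hτ h
    have h1 := HH_mul α p σ τ
    rw [h, zero_mul] at h1
    have h2 : σ = τ := hpc (sub_eq_zero.mp h1.symm)
    exact (Finset.ne_of_mem_erase hτ) h2.symm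
  obtain ⟨y, hy⟩ := HH_norm hα hc hpc
  set O : ℂ := ∏ σ : K →ₐ[ℚ] ℂ, ∏ τ ∈ Finset.univ.erase σ, HH α p σ τ with hO
  have hO0 : O ≠ 0 := Finset.prod_ne_zero_iff.mpr fun σ _ => Finset.prod_ne_zero_iff.mpr (hne σ)
  have hd0 : (p : K) * α ^ (p - 1) ≠ 0 :=
    mul_ne_zero (by exact_mod_cast hp.ne') (pow_ne_zero _ h0)
  have hT : algebraMap ℚ ℂ (Algebra.norm ℚ y) =
      algebraMap ℚ ℂ (Algebra.norm ℚ ((p : K) * α ^ (p - 1))) * O := by
    rw [Algebra.norm_eq_prod_embeddings ℚ ℂ, Algebra.norm_eq_prod_embeddings ℚ ℂ, hO,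
      ← Finset.prod_mul_distrib]
    refine Finset.prod_congr rfl fun σ _ => ?_
    rw [hy, ← HH_diag α hp σ, Finset.mul_prod_erase _ _ (Finset.mem_univ σ)]
  have hN0 : Algebra.norm ℚ ((p : K) * α ^ (p - 1)) ≠ 0 := Algebra.norm_ne_zero_iff.mpr hd0
  have hOq : O = algebraMap ℚ ℂ (Algebra.norm ℚ y / Algebra.norm ℚ ((p : K) * α ^ (p - 1))) := by
    rw [map_div₀, hT]
    rw [mul_div_cancel_left₀]
    exact (_root_.map_ne_zero _).mpr hN0
  have hOi : IsIntegral ℤ O := by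
    apply IsIntegral.prod
    intro σ _
    apply IsIntegral.prod
    intro τ _
    unfold HH
    apply IsIntegral.sum
    intro l _
    exact ((hα.map σ).pow l).mul ((hα.map τ).pow _)
  have hqi : IsIntegral ℤ (Algebra.norm ℚ y / Algebra.norm ℚ ((p : K) * α ^ (p - 1))) := by
    rw [hOq] at hOi
    exact (isIntegral_algebraMap_iff (algebraMap ℚ ℂ).injective).mp hOi
  obtain ⟨z, hz⟩ := IsIntegrallyClosed.isIntegral_iff.mp hqi
  have hOz : O = (z : ℂ) := by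
    rw [hOq, ← hz]; simp
  have hz0 : z ≠ 0 := by
    rintro rfl
    exact hO0 (by rw [hOz]; simp)
  have h1 : (1:ℝ) ≤ ‖O‖ := by
    rw [hOz, Complex.norm_intCast]
    exact_mod_cast Int.one_le_abs hz0
  have h2 : ‖O‖ = ∏ σ : K →ₐ[ℚ] ℂ, ∏ τ ∈ Finset.univ.erase σ, ‖HH α p σ τ‖ := by
    rw [hO, norm_prod]
    refine Finset.prod_congr rfl fun σ _ => ?_
    rw [norm_prod]
  rw [← h2]
  exact h1

/-- the discriminant of `α` divides the discriminant of `α ^ p` -/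
lemma SL_le_pow {α : K} (hα : IsIntegral ℤ α) (h0 : α ≠ 0) (hc : CInj α) {p : ℕ} (hp : 0 < p)
    (hpc : CInj (α ^ p)) : SL α α ≤ SL (α ^ p) (α ^ p) := by
  classical
  have h1 := Real.log_nonneg (one_le_off hα h0 hc hp hpc)
  have hne : ∀ σ : K →ₐ[ℚ] ℂ, ∀ τ ∈ Finset.univ.erase σ, HH α p σ τ ≠ 0 := by
    intro σ τ hτ h
    have h1 := HH_mul α p σ τ
    rw [h, zero_mul] at h1
    have h2 : σ = τ := hpc (sub_eq_zero.mp h1.symm)
    exact (Finset.ne_of_mem_erase hτ) h2.symm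
  rw [Real.log_prod fun σ _ => Finset.prod_ne_zero_iff.mpr fun τ hτ =>
    norm_ne_zero_iff.mpr (hne σ τ hτ)] at h1
  have h2 : SL (α ^ p) (α ^ p) - SL α α = ∑ σ : K →ₐ[ℚ] ℂ,
      Real.log (∏ τ ∈ Finset.univ.erase σ, ‖HH α p σ τ‖) := by
    unfold SL
    rw [← Finset.sum_sub_distrib]
    refine Finset.sum_congr rfl fun σ _ => ?_
    rw [Real.log_prod fun τ hτ => norm_ne_zero_iff.mpr (hne σ τ hτ), ← Finset.sum_sub_distrib,
      ← Finset.add_sum_erase _ _ (Finset.mem_univ σ)]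
    rw [sub_self, sub_self, norm_zero, Real.log_zero, sub_zero, zero_add]
    refine Finset.sum_congr rfl fun τ hτ => ?_
    have h3 := HH_mul α p σ τ
    have h4 : σ α - τ α ≠ 0 := by
      rw [sub_ne_zero]
      exact fun e => (Finset.ne_of_mem_erase hτ) (hc e).symm
    rw [← h3, norm_mul, Real.log_mul (norm_ne_zero_iff.mpr (hne σ τ hτ)) (norm_ne_zero_iff.mpr h4)]
    ring
  linarith

/-- **the weighted energy inequality** -/
theorem master {α : K} (hα : IsIntegral ℤ α) (h0 : α ≠ 0) (hroot : ∀ n : ℕ, 0 < n → α ^ n ≠ 1)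
    (hc : CInj α) (Q : Finset ℕ) (hQ : ∀ m ∈ Q, 0 < m) (hQc : ∀ m ∈ Q, CInj (α ^ m))
    (c : ℕ → ℝ) (hcn : ∀ m ∈ Q, 0 ≤ c m) {t : ℝ} (ht0 : 0 ≤ t) (ht1 : t < 1) :
    (∑ m ∈ Q, c m ^ 2) * SL α α +
      ∑ m ∈ Q, ∑ l ∈ Q, (if m = l then 0 else c m * c l * SL (α ^ m) (α ^ l)) +
      t * ‖∑ m ∈ Q, (c m : ℂ) * UU α m‖ ^ 2 ≤
      2 * finrank ℚ K * (∑ m ∈ Q, c m) * (∑ m ∈ Q, m * c m) * lam α +
      (finrank ℚ K * ∑ m ∈ Q, c m) ^ 2 * Real.log (2 / (1 + t)) +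
      finrank ℚ K * (∑ m ∈ Q, c m ^ 2) * Real.log (1 / (1 - t)) := by
  classical
  have hcard : Fintype.card (K →ₐ[ℚ] ℂ) = finrank ℚ K := AlgHom.card ℚ K ℂ
  set x : ℕ × (K →ₐ[ℚ] ℂ) → ℝ := fun i => c i.1 with hx
  set z : ℕ × (K →ₐ[ℚ] ℂ) → ℂ := fun i => i.2 (α ^ i.1) with hz
  set s : Finset (ℕ × (K →ₐ[ℚ] ℂ)) := Q ×ˢ Finset.univ with hs
  have hx0 : ∀ i ∈ s, 0 ≤ x i := by
    intro i hi
    rw [hs, Finset.mem_product] at hi
    exact hcn _ hi.1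
  have hinj : ∀ i ∈ s, ∀ j ∈ s, i ≠ j → z i ≠ z j := by
    rintro ⟨p, σ⟩ hi ⟨q, τ⟩ hj hij
    rw [hs, Finset.mem_product] at hi hj
    by_cases hpq : p = q
    · subst hpq
      intro h
      have h' : σ = τ := hQc p hi.1 h
      exact hij (by rw [h'])
    · exact conj_ne hα h0 hroot hpq (hQc p hi.1) (hQc q hj.1) σ τ
  have hE := energy s x hx0 z hinj ht0 ht1
  have e1 : ∑ i ∈ s, x i = finrank ℚ K * ∑ m ∈ Q, c m := by
    rw [hs, Finset.sum_product, Finset.mul_sum]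
    refine Finset.sum_congr rfl fun m _ => ?_
    have h : ∀ σ ∈ (Finset.univ : Finset (K →ₐ[ℚ] ℂ)), x (m, σ) = c m := fun σ _ => rfl
    rw [Finset.sum_congr rfl h, Finset.sum_const, Finset.card_univ, hcard, nsmul_eq_mul]
  have e2 : ∑ i ∈ s, x i ^ 2 = finrank ℚ K * ∑ m ∈ Q, c m ^ 2 := by
    rw [hs, Finset.sum_product, Finset.mul_sum]
    refine Finset.sum_congr rfl fun m _ => ?_
    have h : ∀ σ ∈ (Finset.univ : Finset (K →ₐ[ℚ] ℂ)), x (m, σ) ^ 2 = c m ^ 2 := fun σ _ => rfl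
    rw [Finset.sum_congr rfl h, Finset.sum_const, Finset.card_univ, hcard, nsmul_eq_mul]
  have e3 : ∑ i ∈ s, x i * Real.log (max 1 ‖z i‖) = (∑ m ∈ Q, m * c m) * lam α := by
    rw [hs, Finset.sum_product, Finset.sum_mul]
    refine Finset.sum_congr rfl fun m _ => ?_
    have h2 := lam_pow α m
    have h3 : ∑ σ : K →ₐ[ℚ] ℂ, x (m, σ) * Real.log (max 1 ‖z (m, σ)‖) = c m * lam (α ^ m) := by
      unfold lam
      rw [Finset.mul_sum]
    rw [h3, h2]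
    ring
  have e4 : ∑ i ∈ s, (x i : ℂ) * H388SL.refl (z i) = ∑ m ∈ Q, (c m : ℂ) * UU α m := by
    rw [hs, Finset.sum_product]
    refine Finset.sum_congr rfl fun m hm => ?_
    unfold UU
    rw [Finset.mul_sum]
    refine Finset.sum_congr rfl fun σ _ => ?_
    rw [hz, hx]
    dsimp only
    rw [map_pow, refl_pow _ _ (hQ m hm).ne']
  have e5 : ∑ i ∈ s, ∑ j ∈ s, (if i = j then 0 else x i * x j * Real.log ‖z i - z j‖) =
      ∑ m ∈ Q, ∑ l ∈ Q, c m * c l * SL (α ^ m) (α ^ l) := by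
    rw [hs, Finset.sum_product]
    refine Finset.sum_congr rfl fun m _ => ?_
    have h1 : ∀ σ : K →ₐ[ℚ] ℂ, ∑ j ∈ Q ×ˢ (Finset.univ : Finset (K →ₐ[ℚ] ℂ)),
        (if (m, σ) = j then 0 else x (m, σ) * x j * Real.log ‖z (m, σ) - z j‖) =
        ∑ l ∈ Q, ∑ τ : K →ₐ[ℚ] ℂ, c m * c l * Real.log ‖σ (α ^ m) - τ (α ^ l)‖ := by
      intro σ
      rw [Finset.sum_product]
      refine Finset.sum_congr rfl fun l _ => Finset.sum_congr rfl fun τ _ => ?_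
      by_cases h : (m, σ) = (l, τ)
      · rw [if_pos h]
        obtain ⟨h1, h2⟩ := Prod.ext_iff.mp h
        dsimp only at h1 h2
        subst h1 h2
        rw [sub_self, norm_zero, Real.log_zero, mul_zero]
      · rw [if_neg h]
    rw [Finset.sum_congr rfl fun σ _ => h1 σ, Finset.sum_comm]
    refine Finset.sum_congr rfl fun l _ => ?_
    unfold SL
    rw [Finset.mul_sum]
    refine Finset.sum_congr rfl fun σ _ => ?_
    rw [Finset.mul_sum]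
  have e6 : (∑ m ∈ Q, c m ^ 2) * SL α α +
      ∑ m ∈ Q, ∑ l ∈ Q, (if m = l then 0 else c m * c l * SL (α ^ m) (α ^ l)) ≤
      ∑ m ∈ Q, ∑ l ∈ Q, c m * c l * SL (α ^ m) (α ^ l) := by
    rw [Finset.sum_mul, ← Finset.sum_add_distrib]
    refine Finset.sum_le_sum fun m hm => ?_
    rw [← Finset.add_sum_erase _ (fun l => if m = l then 0 else c m * c l * SL (α ^ m) (α ^ l)) hm,
      ← Finset.add_sum_erase _ (fun l => c m * c l * SL (α ^ m) (α ^ l)) hm]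
    rw [if_pos rfl, zero_add]
    have h1 : ∑ l ∈ Q.erase m, (if m = l then 0 else c m * c l * SL (α ^ m) (α ^ l)) =
        ∑ l ∈ Q.erase m, c m * c l * SL (α ^ m) (α ^ l) := by
      refine Finset.sum_congr rfl fun l hl => ?_
      rw [if_neg (Finset.ne_of_mem_erase hl).symm]
    rw [h1]
    have h2 := mul_le_mul_of_nonneg_left (SL_le_pow hα h0 hc (hQ m hm) (hQc m hm))
      (mul_nonneg (hcn m hm) (hcn m hm))
    nlinarith
  rw [e1, e2, e3, e4, e5] at hE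
  calc _ ≤ ∑ m ∈ Q, ∑ l ∈ Q, c m * c l * SL (α ^ m) (α ^ l) +
        t * ‖∑ m ∈ Q, (c m : ℂ) * UU α m‖ ^ 2 := by linarith
    _ ≤ _ := hE
    _ = _ := by ring

end

end Pool.Agent.X184.Leh
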