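import Mathlib
import Pool.Agent.X184.Leh.Q1
import Pool.Agent.Y642.LZ.H

/-!
# Hadamard's inequality for the powers of an algebraic number, and the discriminant
-/

set_option autoImplicit false

open Finset Polynomial Module IntermediateField Pool.Agent.H388SL Pool.Agent.Y947.DL
  Pool.Agent.Y947.DM

namespace Pool.Agent.X184.Leh

/-- reduction to monic polynomials with constant coefficient `± 1` -/
lemma unit_red (f : ℤ[X]) (hf : Irreducible f) (hM : 1 < MM f) (hM2 : MM f < 2) :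
    ∃ g : ℤ[X], (g = f ∨ g = -f) ∧ Irreducible g ∧ g.Monic ∧ |g.coeff 0| = 1 ∧ MM g = MM f ∧
      |(g.discr : ℝ)| = |(f.discr : ℝ)| ∧ g.natDegree = f.natDegree ∧ 0 < f.natDegree ∧
      (∀ z : ℂ, aeval z g = 0 ↔ aeval z f = 0) ∧
      (g.map (Int.castRingHom ℂ)).roots = (f.map (Int.castRingHom ℂ)).roots := by
  have hf0 : f ≠ 0 := hf.ne_zero
  have hlc : |f.leadingCoeff| = 1 := by
    have h1 : 1 ≤ |f.leadingCoeff| := Int.one_le_abs (leadingCoeff_ne_zero.mpr hf0)
    have h3 := leadingCoeff_le_MM f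
    by_contra hne
    have h2 : 2 ≤ |f.leadingCoeff| := by omega
    have h4 : (2:ℝ) ≤ |(f.leadingCoeff : ℝ)| := by exact_mod_cast h2
    linarith
  have hcc : |f.coeff 0| = 1 := by
    have h0 : f.coeff 0 ≠ 0 := by
      intro h
      have hdvd : (X : ℤ[X]) ∣ f := X_dvd_iff.mpr h
      obtain ⟨g, hg⟩ := hdvd
      rcases hf.isUnit_or_isUnit hg with h1 | h1
      · exact Polynomial.not_isUnit_X h1
      · have h2 : MM f = 1 := by
          rw [hg, MM_mul]
          obtain ⟨r, hr, hrg⟩ := Polynomial.isUnit_iff.mp h1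
          have h3 : MM (X : ℤ[X]) = 1 := by
            rw [MM, Polynomial.map_X]
            have := mahlerMeasure_X_sub_C 0
            simpa using this
          have h4 : MM g = 1 := by
            rw [← hrg, MM, Polynomial.map_C, mahlerMeasure_const, eq_intCast, Complex.norm_intCast]
            rcases Int.isUnit_iff.mp hr with h5 | h5 <;> simp [h5]
          rw [h3, h4, one_mul]
        linarith
    have h1 : 1 ≤ |f.coeff 0| := Int.one_le_abs h0
    have h3 := coeff_zero_le_MM f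
    by_contra hne
    have h2 : 2 ≤ |f.coeff 0| := by omega
    have h4 : (2:ℝ) ≤ |(f.coeff 0 : ℝ)| := by exact_mod_cast h2
    linarith
  rcases (abs_eq (by norm_num : (0:ℤ) ≤ 1)).mp hlc with h | h
  · exact ⟨f, Or.inl rfl, hf, h, hcc, rfl, rfl, rfl, Nat.pos_of_ne_zero (natDegree_ne hM h),
      fun z => Iff.rfl, rfl⟩
  · have hnm : (-f).Monic := by
      rw [Monic, leadingCoeff_neg, h]; norm_num
    have hM' : 1 < MM (-f) := by rw [MM_neg]; exact hM
    have hd : 0 < f.natDegree := by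
      have := natDegree_ne hM' hnm
      rw [natDegree_neg] at this
      omega
    refine ⟨-f, Or.inr rfl, by simpa using (irreducible_units_mul (-1 : ℤ[X]ˣ)).mpr hf, hnm,
      by rw [coeff_neg, abs_neg]; exact hcc, MM_neg f, discr_neg_abs hlc hd, natDegree_neg f, hd,
      fun z => by rw [map_neg, neg_eq_zero], ?_⟩
    rw [Polynomial.map_neg, Polynomial.roots_neg]

section

variable {K : Type*} [Field K] [NumberField K]

/-- **Hadamard's inequality** -/
theorem hada {α : K} (hα : IsIntegral ℤ α) (h0 : α ≠ 0) (hroot : ∀ n : ℕ, 0 < n → α ^ n ≠ 1)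
    (Q : Finset ℕ) (hQc : ∀ m ∈ Q, CInj (α ^ m)) :
    ∑ m ∈ Q, ∑ l ∈ Q, SL (α ^ m) (α ^ l) ≤
      (Q.card * finrank ℚ K : ℝ) * Real.log (Q.card * finrank ℚ K) +
      2 * ((Q.card * finrank ℚ K : ℝ) - 1) * ((∑ m ∈ Q, (m : ℝ)) * lam α) := by
  classical
  have hcard : Fintype.card (K →ₐ[ℚ] ℂ) = finrank ℚ K := AlgHom.card ℚ K ℂ
  set z : ℕ × (K →ₐ[ℚ] ℂ) → ℂ := fun i => i.2 (α ^ i.1) with hz
  set s : Finset (ℕ × (K →ₐ[ℚ] ℂ)) := Q ×ˢ Finset.univ with hs
  have hinj : ∀ i ∈ s, ∀ j ∈ s, z i = z j → i = j := by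
    rintro ⟨p, σ⟩ hi ⟨q, τ⟩ hj h
    rw [hs, Finset.mem_product] at hi hj
    by_cases hpq : p = q
    · subst hpq
      have h' : σ = τ := hQc p hi.1 h
      rw [h']
    · exact absurd h (conj_ne hα h0 hroot hpq (hQc p hi.1) (hQc q hj.1) σ τ)
  set e := s.equivFin.symm with he
  set v : Fin s.card → ℂ := fun i => z (e i) with hv
  have hvinj : Function.Injective v := by
    intro i j h
    have h1 := hinj _ (e i).2 _ (e j).2 h
    exact e.injective (Subtype.ext h1)
  have h := Pool.Agent.Y642.LZ.energy_fin_le v hvinj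
  have hsc : (s.card : ℝ) = Q.card * finrank ℚ K := by
    rw [hs, Finset.card_product, Finset.card_univ, hcard]
    push_cast; ring
  have h1 : ∑ i, ∑ j, Real.log ‖v i - v j‖ = ∑ m ∈ Q, ∑ l ∈ Q, SL (α ^ m) (α ^ l) := by
    have e1 : ∑ i ∈ s, ∑ j ∈ s, Real.log ‖z i - z j‖ = ∑ i, ∑ j, Real.log ‖v i - v j‖ := by
      rw [← Finset.sum_coe_sort s, ← Equiv.sum_comp e]
      refine Finset.sum_congr rfl fun i _ => ?_
      rw [← Finset.sum_coe_sort s, ← Equiv.sum_comp e]
    rw [← e1, hs, Finset.sum_product]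
    refine Finset.sum_congr rfl fun m _ => ?_
    have h2 : ∀ σ : K →ₐ[ℚ] ℂ, ∑ j ∈ Q ×ˢ (Finset.univ : Finset (K →ₐ[ℚ] ℂ)),
        Real.log ‖z (m, σ) - z j‖ =
        ∑ l ∈ Q, ∑ τ : K →ₐ[ℚ] ℂ, Real.log ‖σ (α ^ m) - τ (α ^ l)‖ := by
      intro σ
      rw [Finset.sum_product]
    rw [Finset.sum_congr rfl fun σ _ => h2 σ, Finset.sum_comm]
    rfl
  have h2 : ∑ i, Real.log (max 1 ‖v i‖) = (∑ m ∈ Q, (m : ℝ)) * lam α := by
    have e1 : ∑ i ∈ s, Real.log (max 1 ‖z i‖) = ∑ i, Real.log (max 1 ‖v i‖) := by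
      rw [← Finset.sum_coe_sort s, ← Equiv.sum_comp e]
    rw [← e1, hs, Finset.sum_product, Finset.sum_mul]
    refine Finset.sum_congr rfl fun m _ => ?_
    exact lam_pow α m
  rw [h1, h2, hsc] at h
  exact h

/-- the inequality for one prime number -/
theorem disc_prime_rep {α : K} (hα : IsIntegral ℤ α) (h0 : α ≠ 0)
    (hroot : ∀ n : ℕ, 0 < n → α ^ n ≠ 1) (hc : CInj α) {p : ℕ} (hp : p.Prime)
    (hpc : CInj (α ^ p)) :
    SL α α + finrank ℚ K * Real.log p ≤ finrank ℚ K * Real.log (2 * finrank ℚ K) +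
      (2 * finrank ℚ K - 1) * (1 + p) * lam α := by
  have hp1 : (1:ℕ) ≠ p := hp.ne_one.symm
  have hn : 0 < finrank ℚ K := finrank_pos
  have h := hada hα h0 hroot {1, p} (by
    intro m hm
    rw [Finset.mem_insert, Finset.mem_singleton] at hm
    rcases hm with rfl | rfl
    · rw [pow_one]; exact hc
    · exact hpc)
  rw [Finset.sum_pair hp1, Finset.sum_pair hp1, Finset.sum_pair hp1, Finset.sum_pair hp1,
    Finset.card_pair hp1] at h
  simp only [pow_one] at h
  push_cast at h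
  have h1 := SL_le_pow hα h0 hc hp.pos hpc
  have hne : ∀ σ τ : K →ₐ[ℚ] ℂ, σ (α ^ p) ≠ τ α := by
    intro σ τ
    have h2 := conj_ne hα h0 hroot hp.ne_one hpc (by rw [pow_one]; exact hc : CInj (α ^ 1)) σ τ
    rwa [pow_one] at h2
  have h3 := SL_frob hα hc hp hne
  have h4 := SL_comm α (α ^ p)
  linarith

end

/-- the logarithmic discriminant defect, possibly negative -/
noncomputable def dB (f : ℤ[X]) : ℝ :=
  Real.log f.natDegree - Real.log |(f.discr : ℝ)| / f.natDegree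

theorem disc_prime (f : ℤ[X]) (hf : Irreducible f) (hM : 1 < MM f) (hM2 : MM f < 2) {p : ℕ}
    (hp : p.Prime)
    (hinj : ∀ z w : ℂ, aeval z f = 0 → aeval w f = 0 → z ^ p = w ^ p → z = w) :
    Real.log p - Real.log 2 ≤ dB f + 2 * (p + 1) * Real.log (MM f) ∧ 0 < f.natDegree ∧
      0 < |(f.discr : ℝ)| := by
  obtain ⟨g, -, hg, hgm, hg0, hgM, hgd, hgn, hn0, hgz, -⟩ := unit_red f hf hM hM2
  obtain ⟨z, hz⟩ := exists_zero (by rw [hgM]; exact hM) hgm
  obtain ⟨hNF, hrep⟩ := exists_rep g hg hgm z hz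
  have hzero : ∀ σ : adjoin ℚ {z} →ₐ[ℚ] ℂ, aeval (σ (AdjoinSimple.gen ℚ z)) g = 0 := by
    intro σ
    have h1 : aeval (AdjoinSimple.gen ℚ z) g = 0 := by
      rw [← hrep.minp]; exact minpoly.aeval ℤ _
    have h2 := map_aevalZ σ g (AdjoinSimple.gen ℚ z)
    rw [h1, map_zero] at h2
    exact h2.symm
  have hpc : CInj ((AdjoinSimple.gen ℚ z) ^ p) := by
    intro σ τ h
    have h1 : (σ (AdjoinSimple.gen ℚ z)) ^ p = (τ (AdjoinSimple.gen ℚ z)) ^ p := by
      have h2 : σ ((AdjoinSimple.gen ℚ z) ^ p) = τ ((AdjoinSimple.gen ℚ z) ^ p) := h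
      rwa [map_pow, map_pow] at h2
    exact hrep.inj (hinj _ _ ((hgz _).mp (hzero σ)) ((hgz _).mp (hzero τ)) h1)
  have h := disc_prime_rep hrep.isInt (hrep.ne_zero hg0) (hrep.not_root (by rw [hgM]; exact hM))
    hrep.inj hp hpc
  have hSL : SL (AdjoinSimple.gen ℚ z) (AdjoinSimple.gen ℚ z) = Real.log |(f.discr : ℝ)| := by
    rw [← hgd, log_discr_rep hrep hgm]
    rfl
  have hD := discr_pos_rep hrep hgm
  rw [hgd] at hD
  rw [hSL, ← hrep.log_MM, hgM, hrep.fin, hgn] at h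
  have hn : (0:ℝ) < f.natDegree := by exact_mod_cast hn0
  have hL : 0 < Real.log (MM f) := Real.log_pos hM
  refine ⟨?_, hn0, hD⟩
  unfold dB
  set n : ℝ := (f.natDegree : ℝ) with hndef
  have h2 : Real.log (2 * n) = Real.log 2 + Real.log n := Real.log_mul (by norm_num) hn.ne'
  rw [h2] at h
  have hp0 : (0:ℝ) < p := by exact_mod_cast hp.pos
  have h3 : n * (Real.log p - Real.log 2) ≤
      n * (Real.log n - Real.log |(f.discr : ℝ)| / n + 2 * (p + 1) * Real.log (MM f)) := by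
    have e : n * (Real.log n - Real.log |(f.discr : ℝ)| / n + 2 * (p + 1) * Real.log (MM f)) =
        n * Real.log n - Real.log |(f.discr : ℝ)| + 2 * n * (p + 1) * Real.log (MM f) := by
      field_simp
    rw [e]
    have h4 : 0 ≤ (1 + p) * Real.log (MM f) := by positivity
    nlinarith
  exact le_of_mul_le_mul_left h3 hn

/-- Mahler's inequality -/
theorem disc_mahler (f : ℤ[X]) (hf : Irreducible f) (hM : 1 < MM f) (hM2 : MM f < 2) :
    - dB f ≤ 2 * Real.log (MM f) := by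
  obtain ⟨g, -, hg, hgm, hg0, hgM, hgd, hgn, hn0, hgz, -⟩ := unit_red f hf hM hM2
  obtain ⟨z, hz⟩ := exists_zero (by rw [hgM]; exact hM) hgm
  obtain ⟨hNF, hrep⟩ := exists_rep g hg hgm z hz
  have h := hada hrep.isInt (hrep.ne_zero hg0) (hrep.not_root (by rw [hgM]; exact hM)) {1} (by
    intro m hm
    rw [Finset.mem_singleton] at hm
    rw [hm, pow_one]
    exact hrep.inj)
  rw [Finset.sum_singleton, Finset.sum_singleton, Finset.sum_singleton, Finset.card_singleton] at h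
  simp only [pow_one, Nat.cast_one, one_mul] at h
  have hSL : SL (AdjoinSimple.gen ℚ z) (AdjoinSimple.gen ℚ z) = Real.log |(f.discr : ℝ)| := by
    rw [← hgd, log_discr_rep hrep hgm]
    rfl
  rw [hSL, ← hrep.log_MM, hgM, hrep.fin, hgn] at h
  have hn : (0:ℝ) < f.natDegree := by exact_mod_cast hn0
  have hL : 0 < Real.log (MM f) := Real.log_pos hM
  unfold dB
  set n : ℝ := (f.natDegree : ℝ) with hndef
  have h3 : n * (-(Real.log n - Real.log |(f.discr : ℝ)| / n)) ≤ n * (2 * Real.log (MM f)) := by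
    have e : n * (-(Real.log n - Real.log |(f.discr : ℝ)| / n)) =
        Real.log |(f.discr : ℝ)| - n * Real.log n := by
      field_simp
      ring
    rw [e]
    nlinarith
  exact le_of_mul_le_mul_left h3 hn

end Pool.Agent.X184.Leh
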