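import Mathlib
import Pool.Agent.X184.Leh.Q2

/-!
# Real power sums
-/

set_option autoImplicit false

open Finset Polynomial Module IntermediateField Pool.Agent.H388SL Pool.Agent.Y947.DL
  Pool.Agent.Y947.DM

namespace Pool.Agent.X184.Leh

section

variable {K : Type*} [Field K] [NumberField K]

lemma refl_conj (z : ℂ) : H388SL.refl (starRingEnd ℂ z) = starRingEnd ℂ (H388SL.refl z) := by
  unfold H388SL.refl
  rw [RCLike.norm_conj]
  split_ifs with h
  · rfl
  · rw [map_inv₀]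

/-- complex conjugation as an automorphism over `ℚ` -/
noncomputable def conjQ : ℂ ≃ₐ[ℚ] ℂ := Complex.conjAe.restrictScalars ℚ

lemma conjQ_apply (z : ℂ) : conjQ z = starRingEnd ℂ z := rfl

/-- the power sums are real -/
lemma UU_real (α : K) (m : ℕ) : starRingEnd ℂ (UU α m) = UU α m := by
  unfold UU
  rw [map_sum]
  have h : ∀ σ : K →ₐ[ℚ] ℂ, starRingEnd ℂ (H388SL.refl (σ α) ^ m) =
      H388SL.refl ((conjQ.toAlgHom.comp σ) α) ^ m := by
    intro σ
    rw [map_pow, ← refl_conj]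
    rfl
  rw [Finset.sum_congr rfl fun σ _ => h σ]
  refine Fintype.sum_equiv (AlgEquiv.arrowCongr AlgEquiv.refl conjQ) _ _ fun σ => ?_
  rfl

/-- the part of one sign -/
lemma half_bound {α : K} (hα : IsIntegral ℤ α) (h0 : α ≠ 0) (hroot : ∀ n : ℕ, 0 < n → α ^ n ≠ 1)
    (hinj : ∀ m : ℕ, 0 < m → CInj (α ^ m)) {k : ℕ} (hk : 1 ≤ k)
    (hnk : (2:ℝ) ≤ finrank ℚ K * k) {B : ℝ} (hB0 : 0 ≤ B)
    (hB : finrank ℚ K * Real.log (finrank ℚ K) - SL α α ≤ finrank ℚ K * B)
    (s : ℝ) (hs : |s| = 1) :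
    (1 - 1 / (finrank ℚ K * k)) * ∑ m ∈ (Finset.Icc 1 k).filter (fun m => 0 < s * (UU α m).re),
        (s * (UU α m).re) ^ 2 ≤
      finrank ℚ K * (B + Real.log k) +
      (2 * finrank ℚ K / (3 * k) + 2 * finrank ℚ K * k * lam α) *
        ((Finset.Icc 1 k).filter (fun m => 0 < s * (UU α m).re)).card := by
  have hc : CInj α := by simpa using hinj 1 one_pos
  have hn0 : (0:ℝ) < finrank ℚ K := by exact_mod_cast finrank_pos
  set n : ℝ := (finrank ℚ K : ℝ) with hn
  have hk0 : (0:ℝ) < k := by exact_mod_cast hk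
  have hk1 : (1:ℝ) ≤ k := by exact_mod_cast hk
  have hlk : 0 ≤ Real.log k := Real.log_nonneg hk1
  set κ : ℝ := (k:ℝ) with hκ
  have hΛ0 : 0 ≤ lam α := lam_nonneg α
  set P := (Finset.Icc 1 k).filter (fun m => 0 < s * (UU α m).re) with hP
  set c : ℕ → ℝ := fun m => s * (UU α m).re with hcdef
  have hPm : ∀ m ∈ P, 1 ≤ m ∧ m ≤ k ∧ 0 < c m := by
    intro m hm
    rw [hP, Finset.mem_filter, Finset.mem_Icc] at hm
    exact ⟨hm.1.1, hm.1.2, hm.2⟩
  have hnk0 : 0 < n * κ := by positivity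
  set t : ℝ := 1 - 1 / (n * κ) with ht
  have hinvle : 1 / (n * κ) ≤ 1 / 2 := one_div_le_one_div_of_le (by norm_num) hnk
  have hinv0 : 0 < 1 / (n * κ) := by positivity
  have ht0 : 0 ≤ t := by rw [ht]; linarith
  have ht1 : t < 1 := by rw [ht]; linarith
  have hM := master hα h0 hroot hc P (fun m hm => (hPm m hm).1) (fun m hm => hinj m (hPm m hm).1)
    c (fun m hm => (hPm m hm).2.2.le) ht0 ht1
  set V : ℝ := ∑ m ∈ P, c m ^ 2 with hV
  have hV0 : 0 ≤ V := Finset.sum_nonneg fun m _ => sq_nonneg _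
  have hcross : 0 ≤ ∑ m ∈ P, ∑ l ∈ P, (if m = l then 0 else c m * c l * SL (α ^ m) (α ^ l)) := by
    refine Finset.sum_nonneg fun m hm => Finset.sum_nonneg fun l hl => ?_
    split_ifs with hml
    · exact le_rfl
    · apply mul_nonneg (mul_nonneg (hPm m hm).2.2.le (hPm l hl).2.2.le)
      exact SL_nonneg (hα.pow m) (hα.pow l) (hinj l (hPm l hl).1)
        (conj_ne hα h0 hroot hml (hinj m (hPm m hm).1) (hinj l (hPm l hl).1))
  have hsq : V ≤ ‖∑ m ∈ P, (c m : ℂ) * UU α m‖ := by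
    have e1 : (∑ m ∈ P, (c m : ℂ) * UU α m).re = ∑ m ∈ P, c m * (UU α m).re := by
      rw [Complex.re_sum]
      refine Finset.sum_congr rfl fun m _ => ?_
      rw [Complex.re_ofReal_mul]
    have e2 : V = s * (∑ m ∈ P, (c m : ℂ) * UU α m).re := by
      rw [e1, hV, Finset.mul_sum]
      refine Finset.sum_congr rfl fun m _ => ?_
      rw [hcdef]; ring
    have h3 : |s * (∑ m ∈ P, (c m : ℂ) * UU α m).re| ≤ ‖∑ m ∈ P, (c m : ℂ) * UU α m‖ := by
      rw [abs_mul, hs, one_mul]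
      exact Complex.abs_re_le_norm _
    rw [← e2] at h3
    exact (le_abs_self V).trans h3
  have hS0 : 0 ≤ ∑ m ∈ P, c m := Finset.sum_nonneg fun m hm => (hPm m hm).2.2.le
  have hCS : (∑ m ∈ P, c m) ^ 2 ≤ P.card * V := sq_sum_le_card_mul_sum_sq
  have hmc : ∑ m ∈ P, (m:ℝ) * c m ≤ κ * ∑ m ∈ P, c m := by
    rw [Finset.mul_sum]
    refine Finset.sum_le_sum fun m hm => ?_
    apply mul_le_mul_of_nonneg_right _ (hPm m hm).2.2.le
    rw [hκ]
    exact_mod_cast (hPm m hm).2.1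
  have hlog1 : Real.log (1 / (1 - t)) = Real.log n + Real.log κ := by
    rw [ht, sub_sub_cancel, one_div_one_div, Real.log_mul hn0.ne' hk0.ne']
  have hlog2 : Real.log (2 / (1 + t)) ≤ 2 / (3 * (n * κ)) := by
    have h2t : 0 < 2 / (1 + t) := by apply div_pos <;> linarith
    refine (Real.log_le_sub_one_of_pos h2t).trans ?_
    have h1t : 3 / 2 ≤ 1 + t := by linarith
    have e : 2 / (1 + t) - 1 = (1 - t) / (1 + t) := by
      rw [div_sub_one (by linarith)]
      congr 1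
      ring
    have e2 : 1 - t = 1 / (n * κ) := by rw [ht]; ring
    rw [e, e2, div_le_iff₀ (by linarith)]
    have h5 : 1 / (n * κ) = 2 / (3 * (n * κ)) * (3 / 2) := by field_simp
    calc 1 / (n * κ) = 2 / (3 * (n * κ)) * (3 / 2) := h5
      _ ≤ _ := mul_le_mul_of_nonneg_left h1t (by positivity)
  have h1 : V * SL α α + t * V ^ 2 ≤ V * (2 * n * κ * P.card * lam α +
      2 * n / (3 * κ) * P.card + n * (Real.log n + Real.log κ)) := by
    have a1 : t * V ^ 2 ≤ t * ‖∑ m ∈ P, (c m : ℂ) * UU α m‖ ^ 2 :=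
      mul_le_mul_of_nonneg_left (pow_le_pow_left₀ hV0 hsq 2) ht0
    have a2 : 2 * n * (∑ m ∈ P, c m) * (∑ m ∈ P, (m:ℝ) * c m) * lam α ≤
        V * (2 * n * κ * P.card * lam α) := by
      have b1 : (∑ m ∈ P, c m) * (∑ m ∈ P, (m:ℝ) * c m) ≤ κ * (P.card * V) := by
        calc (∑ m ∈ P, c m) * (∑ m ∈ P, (m:ℝ) * c m) ≤ (∑ m ∈ P, c m) * (κ * ∑ m ∈ P, c m) :=
              mul_le_mul_of_nonneg_left hmc hS0
          _ = κ * (∑ m ∈ P, c m) ^ 2 := by ring
          _ ≤ _ := mul_le_mul_of_nonneg_left hCS hk0.le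
      have b2 : 0 ≤ 2 * n * lam α := by positivity
      have b3 := mul_le_mul_of_nonneg_left b1 b2
      calc 2 * n * (∑ m ∈ P, c m) * (∑ m ∈ P, (m:ℝ) * c m) * lam α =
            2 * n * lam α * ((∑ m ∈ P, c m) * (∑ m ∈ P, (m:ℝ) * c m)) := by ring
        _ ≤ _ := b3
        _ = _ := by ring
    have a3 : (n * ∑ m ∈ P, c m) ^ 2 * Real.log (2 / (1 + t)) ≤
        V * (2 * n / (3 * κ) * P.card) := by
      have b1 : (n * ∑ m ∈ P, c m) ^ 2 * Real.log (2 / (1 + t)) ≤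
          (n * ∑ m ∈ P, c m) ^ 2 * (2 / (3 * (n * κ))) :=
        mul_le_mul_of_nonneg_left hlog2 (sq_nonneg _)
      have b2 : (n * ∑ m ∈ P, c m) ^ 2 * (2 / (3 * (n * κ))) =
          2 * n / (3 * κ) * (∑ m ∈ P, c m) ^ 2 := by
        field_simp
      have b3 : 2 * n / (3 * κ) * (∑ m ∈ P, c m) ^ 2 ≤ 2 * n / (3 * κ) * (P.card * V) :=
        mul_le_mul_of_nonneg_left hCS (by positivity)
      calc _ ≤ _ := b1
        _ = _ := b2
        _ ≤ _ := b3
        _ = _ := by ring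
    rw [hlog1] at hM
    have a4 : n * V * (Real.log n + Real.log κ) = V * (n * (Real.log n + Real.log κ)) := by ring
    nlinarith
  have hlast : 0 ≤ n * (B + Real.log κ) := by positivity
  rcases hV0.eq_or_lt with h | h
  · rw [← h, mul_zero]
    have h5 : 0 ≤ (2 * n / (3 * κ) + 2 * n * κ * lam α) * (P.card : ℝ) := by
      apply mul_nonneg _ (Nat.cast_nonneg _)
      have h6 : 0 ≤ 2 * n / (3 * κ) := by positivity
      have h7 : 0 ≤ 2 * n * κ * lam α := mul_nonneg (by positivity) hΛ0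
      linarith
    linarith
  · have h2 : V * (SL α α + t * V) ≤ V * (2 * n * κ * P.card * lam α +
      2 * n / (3 * κ) * P.card + n * (Real.log n + Real.log κ)) := by
      calc V * (SL α α + t * V) = V * SL α α + t * V ^ 2 := by ring
        _ ≤ _ := h1
    have h3 := le_of_mul_le_mul_left h2 h
    nlinarith

/-- **the sum of the squares of the power sums** -/
theorem sum_sq_UU {α : K} (hα : IsIntegral ℤ α) (h0 : α ≠ 0) (hroot : ∀ n : ℕ, 0 < n → α ^ n ≠ 1)
    (hinj : ∀ m : ℕ, 0 < m → CInj (α ^ m)) {k : ℕ} (hk : 1 ≤ k)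
    (hnk : (2:ℝ) ≤ finrank ℚ K * k) {B : ℝ} (hB0 : 0 ≤ B)
    (hB : finrank ℚ K * Real.log (finrank ℚ K) - SL α α ≤ finrank ℚ K * B) :
    (1 - 1 / (finrank ℚ K * k)) * ∑ m ∈ Finset.Icc 1 k, (UU α m).re ^ 2 ≤
      2 * finrank ℚ K * (B + Real.log k + 1 / 3 + k ^ 2 * lam α) := by
  have h1 := half_bound hα h0 hroot hinj hk hnk hB0 hB 1 (by simp)
  have h2 := half_bound hα h0 hroot hinj hk hnk hB0 hB (-1) (by simp)
  have hn0 : (0:ℝ) < finrank ℚ K := by exact_mod_cast finrank_pos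
  set n : ℝ := (finrank ℚ K : ℝ) with hn
  have hk0 : (0:ℝ) < k := by exact_mod_cast hk
  set P := (Finset.Icc 1 k).filter (fun m => 0 < 1 * (UU α m).re) with hP
  set N := (Finset.Icc 1 k).filter (fun m => 0 < -1 * (UU α m).re) with hN
  have hdisj : Disjoint P N := by
    rw [Finset.disjoint_filter]
    intro m _ h3 h4
    linarith
  have hcard : (P.card : ℝ) + N.card ≤ k := by
    have h3 : (P ∪ N).card ≤ (Finset.Icc 1 k).card :=
      Finset.card_le_card (Finset.union_subset (Finset.filter_subset _ _) (Finset.filter_subset _ _))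
    rw [Finset.card_union_of_disjoint hdisj, Nat.card_Icc] at h3
    have h4 : P.card + N.card ≤ k := by omega
    exact_mod_cast h4
  have hsum : ∑ m ∈ Finset.Icc 1 k, (UU α m).re ^ 2 =
      ∑ m ∈ P, (1 * (UU α m).re) ^ 2 + ∑ m ∈ N, (-1 * (UU α m).re) ^ 2 := by
    rw [hP, hN, Finset.sum_filter, Finset.sum_filter, ← Finset.sum_add_distrib]
    refine Finset.sum_congr rfl fun m _ => ?_
    rcases lt_trichotomy (UU α m).re 0 with h | h | h
    · rw [if_neg (by linarith), if_pos (by linarith)]; ring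
    · rw [h]; simp
    · rw [if_pos (by linarith), if_neg (by linarith)]; ring
  rw [hsum, mul_add]
  have hΛ0 : 0 ≤ lam α := lam_nonneg α
  have h3 : (2 * n / (3 * k) + 2 * n * k * lam α) * P.card +
      (2 * n / (3 * k) + 2 * n * k * lam α) * N.card ≤ 2 * n * (1 / 3 + k ^ 2 * lam α) := by
    rw [← mul_add]
    have h4 : (2 * n / (3 * k) + 2 * n * k * lam α) * ((P.card : ℝ) + N.card) ≤
        (2 * n / (3 * k) + 2 * n * k * lam α) * k :=
      mul_le_mul_of_nonneg_left hcard (by positivity)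
    have e : (2 * n / (3 * k) + 2 * n * k * lam α) * (k:ℝ) = 2 * n * (1 / 3 + k ^ 2 * lam α) := by
      field_simp
    rw [e] at h4
    exact h4
  linarith

end

end Pool.Agent.X184.Leh
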