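import Mathlib
import Pool.Agent.X184.Leh.Q3
import Pool.Agent.H388SL.SparseB

/-!
# Sparse multiples: the Gram matrix
-/

set_option autoImplicit false

open Finset Polynomial Module IntermediateField Pool.Agent.H388SL Pool.Agent.Y947.DL
  Pool.Agent.Y947.DM

namespace Pool.Agent.X184.Leh

lemma norm_pow_sub_le {a b : ℂ} (ha : ‖a‖ ≤ 1) (hb : ‖b‖ ≤ 1) (m : ℕ) :
    ‖a ^ m - b ^ m‖ ≤ m * ‖a - b‖ := by
  induction m with
  | zero => simp
  | succ m ih =>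
    have e : a ^ (m + 1) - b ^ (m + 1) = a ^ m * (a - b) + (a ^ m - b ^ m) * b := by ring
    rw [e]
    refine (norm_add_le _ _).trans ?_
    rw [norm_mul, norm_mul, norm_pow]
    have h1 : ‖a‖ ^ m * ‖a - b‖ ≤ 1 * ‖a - b‖ :=
      mul_le_mul_of_nonneg_right (pow_le_one₀ (norm_nonneg _) ha) (norm_nonneg _)
    have h2 : ‖a ^ m - b ^ m‖ * ‖b‖ ≤ (m * ‖a - b‖) * 1 :=
      mul_le_mul ih hb (norm_nonneg _) (by positivity)
    push_cast
    linarith

section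

variable {K : Type*} [Field K] [NumberField K]

/-- power sums of the normalized conjugates -/
noncomputable def WW (α : K) (m : ℕ) : ℂ := ∑ σ : K →ₐ[ℚ] ℂ, uu α σ ^ m

lemma WW_sub {α : K} (h0 : α ≠ 0) (hunit : ∏ σ : K →ₐ[ℚ] ℂ, ‖σ α‖ = 1) (m : ℕ) :
    ‖WW α m - UU α m‖ ≤ m * (2 * lam α) := by
  unfold WW UU
  rw [← Finset.sum_sub_distrib, ← sum_abs_log h0 hunit, Finset.mul_sum]
  refine (norm_sum_le _ _).trans (Finset.sum_le_sum fun σ _ => ?_)
  have h1 := norm_pow_sub_le (a := uu α σ) (b := H388SL.refl (σ α)) (norm_uu h0 σ).le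
    (norm_refl_le _) m
  refine h1.trans (mul_le_mul_of_nonneg_left ?_ (Nat.cast_nonneg m))
  rw [norm_sub_rev]
  exact refl_sub_le ((map_ne_zero σ).mpr h0)

/-- the value of `F` at a normalized conjugate is small -/
lemma val_small {α : K} (h0 : α ≠ 0) (F : ℂ[X]) (σ : K →ₐ[ℚ] ℂ) (hF : F.eval (σ α) = 0) :
    ‖∑ e ∈ F.support, F.coeff e * uu α σ ^ e‖ ^ 2 ≤ (∑ e ∈ F.support, ‖F.coeff e‖) ^ 2 *
      (F.natDegree * |Real.log ‖σ α‖|) := by
  set L := ∑ e ∈ F.support, ‖F.coeff e‖ with hL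
  set D : ℝ := (F.natDegree : ℝ) with hD
  have hL0 : 0 ≤ L := Finset.sum_nonneg fun _ _ => norm_nonneg _
  have hpos : 0 < ‖σ α‖ := norm_pos_iff.mpr ((map_ne_zero σ).mpr h0)
  have hu := norm_uu h0 σ
  have hD0 : 0 ≤ D := Nat.cast_nonneg _
  have hm0 : 0 < max 1 ‖σ α‖ := lt_of_lt_of_le one_pos (le_max_left _ _)
  have hmD : 0 < (max 1 ‖σ α‖) ^ F.natDegree := pow_pos hm0 _
  set x : ℝ := |Real.log ‖σ α‖| with hx
  have hx0 : 0 ≤ x := abs_nonneg _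
  -- the factors
  have hfac : ∀ e ∈ F.support, 0 ≤ 1 - ‖σ α‖ ^ e / (max 1 ‖σ α‖) ^ F.natDegree ∧
      1 - ‖σ α‖ ^ e / (max 1 ‖σ α‖) ^ F.natDegree ≤ 1 ∧
      1 - ‖σ α‖ ^ e / (max 1 ‖σ α‖) ^ F.natDegree ≤ D * x := by
    intro e he
    have heD : e ≤ F.natDegree := Polynomial.le_natDegree_of_mem_supp e he
    have heD' : (e:ℝ) ≤ D := by rw [hD]; exact_mod_cast heD
    have h1 : ‖σ α‖ ^ e ≤ (max 1 ‖σ α‖) ^ F.natDegree :=
      (pow_le_pow_left₀ hpos.le (le_max_right _ _) e).trans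
        (pow_le_pow_right₀ (le_max_left _ _) heD)
    have h2 : 0 < ‖σ α‖ ^ e / (max 1 ‖σ α‖) ^ F.natDegree := by positivity
    refine ⟨sub_nonneg.mpr ((div_le_one hmD).mpr h1), by linarith, ?_⟩
    have h3 := Real.log_le_sub_one_of_pos h2
    have h4 : Real.log (‖σ α‖ ^ e / (max 1 ‖σ α‖) ^ F.natDegree) =
        e * Real.log ‖σ α‖ - D * Real.log (max 1 ‖σ α‖) := by
      rw [Real.log_div (by positivity) hmD.ne', Real.log_pow, Real.log_pow]
    rw [h4] at h3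
    have h5 : -(D * x) ≤ e * Real.log ‖σ α‖ - D * Real.log (max 1 ‖σ α‖) := by
      rcases le_total ‖σ α‖ 1 with h | h
      · have h6 := Real.log_nonpos hpos.le h
        rw [max_eq_left h, Real.log_one, mul_zero, sub_zero, hx, abs_of_nonpos h6]
        nlinarith
      · have h6 := Real.log_nonneg h
        rw [max_eq_right h, hx, abs_of_nonneg h6]
        nlinarith [mul_nonneg (Nat.cast_nonneg e : (0:ℝ) ≤ e) h6]
    linarith
  have hz : ∑ e ∈ F.support, F.coeff e * uu α σ ^ e =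
      ∑ e ∈ F.support, F.coeff e * (((1 - ‖σ α‖ ^ e / (max 1 ‖σ α‖) ^ F.natDegree : ℝ)) : ℂ) *
        uu α σ ^ e := by
    have h1 : ∑ e ∈ F.support, F.coeff e * ((‖σ α‖ ^ e : ℝ) : ℂ) * uu α σ ^ e = 0 := by
      rw [← hF, Polynomial.eval_eq_sum, Polynomial.sum]
      refine Finset.sum_congr rfl fun e _ => ?_
      conv_rhs => rw [sig_eq h0 σ]
      rw [mul_pow]
      push_cast
      ring
    have h2 : ∑ e ∈ F.support, F.coeff e *
        (((‖σ α‖ ^ e / (max 1 ‖σ α‖) ^ F.natDegree : ℝ)) : ℂ) * uu α σ ^ e = 0 := by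
      have h3 : ∑ e ∈ F.support, F.coeff e *
          (((‖σ α‖ ^ e / (max 1 ‖σ α‖) ^ F.natDegree : ℝ)) : ℂ) * uu α σ ^ e =
          (((max 1 ‖σ α‖) ^ F.natDegree : ℝ) : ℂ)⁻¹ *
            ∑ e ∈ F.support, F.coeff e * ((‖σ α‖ ^ e : ℝ) : ℂ) * uu α σ ^ e := by
        rw [Finset.mul_sum]
        refine Finset.sum_congr rfl fun e _ => ?_
        push_cast
        ring
      rw [h3, h1, mul_zero]
    rw [← sub_zero (∑ e ∈ F.support, F.coeff e * uu α σ ^ e), ← h2, ← Finset.sum_sub_distrib]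
    refine Finset.sum_congr rfl fun e _ => ?_
    push_cast
    ring
  have hb1 : ‖∑ e ∈ F.support, F.coeff e * uu α σ ^ e‖ ≤ L * 1 := by
    rw [hz, hL, Finset.sum_mul]
    refine (norm_sum_le _ _).trans (Finset.sum_le_sum fun e he => ?_)
    rw [norm_mul, norm_mul, norm_pow, hu, one_pow, mul_one, Complex.norm_real,
      Real.norm_of_nonneg (hfac e he).1]
    exact mul_le_mul_of_nonneg_left (hfac e he).2.1 (norm_nonneg _)
  have hb2 : ‖∑ e ∈ F.support, F.coeff e * uu α σ ^ e‖ ≤ L * (D * x) := by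
    rw [hz, hL, Finset.sum_mul]
    refine (norm_sum_le _ _).trans (Finset.sum_le_sum fun e he => ?_)
    rw [norm_mul, norm_mul, norm_pow, hu, one_pow, mul_one, Complex.norm_real,
      Real.norm_of_nonneg (hfac e he).1]
    exact mul_le_mul_of_nonneg_left (hfac e he).2.2 (norm_nonneg _)
  have hDx : 0 ≤ D * x := by positivity
  calc ‖∑ e ∈ F.support, F.coeff e * uu α σ ^ e‖ ^ 2 =
      ‖∑ e ∈ F.support, F.coeff e * uu α σ ^ e‖ * ‖∑ e ∈ F.support, F.coeff e * uu α σ ^ e‖ := by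
        ring
    _ ≤ (L * 1) * (L * (D * x)) := mul_le_mul hb1 hb2 (norm_nonneg _) (by positivity)
    _ = _ := by ring

/-- the entries of the Gram matrix -/
noncomputable def GM (α : K) (a b : ℕ) : ℂ :=
  ∑ σ : K →ₐ[ℚ] ℂ, uu α σ ^ a * starRingEnd ℂ (uu α σ ^ b)

lemma GM_diag {α : K} (h0 : α ≠ 0) (a : ℕ) : GM α a a = finrank ℚ K := by
  have hcard : Fintype.card (K →ₐ[ℚ] ℂ) = finrank ℚ K := AlgHom.card ℚ K ℂ
  unfold GM
  have h2 : ∀ σ : K →ₐ[ℚ] ℂ, uu α σ ^ a * starRingEnd ℂ (uu α σ ^ a) = 1 := by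
    intro σ
    rw [Complex.mul_conj, Complex.normSq_eq_norm_sq, norm_pow, norm_uu h0 σ]
    simp
  rw [Finset.sum_congr rfl (fun σ _ => h2 σ)]
  simp [hcard]

lemma GM_eq {α : K} (h0 : α ≠ 0) {a b : ℕ} (hab : b ≤ a) : GM α a b = WW α (a - b) := by
  unfold GM WW
  refine Finset.sum_congr rfl fun σ _ => ?_
  have h1 : uu α σ ^ a = uu α σ ^ (a - b) * uu α σ ^ b := by
    rw [← pow_add, Nat.sub_add_cancel hab]
  rw [h1, mul_assoc, Complex.mul_conj, Complex.normSq_eq_norm_sq, norm_pow, norm_uu h0 σ]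
  simp

lemma GM_conj (α : K) (a b : ℕ) : ‖GM α a b‖ = ‖GM α b a‖ := by
  have e : GM α a b = starRingEnd ℂ (GM α b a) := by
    unfold GM
    rw [map_sum]
    refine Finset.sum_congr rfl fun σ _ => ?_
    rw [map_mul, Complex.conj_conj, mul_comm]
  rw [e, RCLike.norm_conj]

/-- **the Gram matrix of a linear relation** -/
theorem gramC {α : K} (h0 : α ≠ 0) (hunit : ∏ σ : K →ₐ[ℚ] ℂ, ‖σ α‖ = 1) (F : ℂ[X]) (hF0 : F ≠ 0)
    (hF : ∀ σ : K →ₐ[ℚ] ℂ, F.eval (σ α) = 0)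
    (hsmall : 2 * F.support.card * (F.natDegree * lam α) ≤ finrank ℚ K) :
    (finrank ℚ K - 2 * F.support.card * (F.natDegree * lam α)) ^ 2 ≤
      ∑ x ∈ F.support.offDiag, ‖GM α x.1 x.2‖ ^ 2 := by
  classical
  set n : ℝ := (finrank ℚ K : ℝ) with hn
  set S := F.support with hS
  set Q := ∑ e ∈ S, ‖F.coeff e‖ ^ 2 with hQ
  set L := ∑ e ∈ S, ‖F.coeff e‖ with hL
  set Z := ∑ x ∈ S.offDiag, ‖GM α x.1 x.2‖ ^ 2 with hZ
  set Y := ∑ x ∈ S.offDiag, ‖F.coeff x.1‖ * ‖F.coeff x.2‖ * ‖GM α x.1 x.2‖ with hY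
  have hQ0 : 0 < Q := by
    obtain ⟨i, hi⟩ := Polynomial.support_nonempty.mpr hF0
    apply Finset.sum_pos' (fun _ _ => sq_nonneg _) ⟨i, hi, _⟩
    have : 0 < ‖F.coeff i‖ := norm_pos_iff.mpr (Polynomial.mem_support_iff.mp hi)
    positivity
  have hY0 : 0 ≤ Y := Finset.sum_nonneg fun _ _ => by positivity
  have hYZ : Y ^ 2 ≤ Q ^ 2 * Z := by
    have h1 := Finset.sum_mul_sq_le_sq_mul_sq S.offDiag (fun x => ‖F.coeff x.1‖ * ‖F.coeff x.2‖)
      (fun x => ‖GM α x.1 x.2‖)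
    refine h1.trans (mul_le_mul_of_nonneg_right ?_ (Finset.sum_nonneg fun _ _ => sq_nonneg _))
    rw [sq, hQ, Finset.sum_mul_sum, ← Finset.sum_product']
    have hsub : S.offDiag ⊆ S ×ˢ S := by
      intro x hx
      rw [Finset.mem_offDiag] at hx
      exact Finset.mem_product.mpr ⟨hx.1, hx.2.1⟩
    have h2 : ∑ x ∈ S.offDiag, (‖F.coeff x.1‖ * ‖F.coeff x.2‖) ^ 2 ≤
        ∑ x ∈ S ×ˢ S, (‖F.coeff x.1‖ * ‖F.coeff x.2‖) ^ 2 :=
      Finset.sum_le_sum_of_subset_of_nonneg hsub (fun _ _ _ => sq_nonneg _)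
    refine h2.trans (le_of_eq ?_)
    refine Finset.sum_congr rfl fun x _ => ?_
    ring
  have hLQ : L ^ 2 ≤ S.card * Q := sq_sum_le_card_mul_sum_sq
  -- expansion
  have hexp : ∑ σ : K →ₐ[ℚ] ℂ, ‖∑ e ∈ S, F.coeff e * uu α σ ^ e‖ ^ 2 =
      ∑ a ∈ S, ∑ b ∈ S, (F.coeff a * starRingEnd ℂ (F.coeff b) * GM α a b).re := by
    have h1 : ∀ σ : K →ₐ[ℚ] ℂ, ‖∑ e ∈ S, F.coeff e * uu α σ ^ e‖ ^ 2 = ∑ a ∈ S, ∑ b ∈ S,
        (F.coeff a * starRingEnd ℂ (F.coeff b) *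
          (uu α σ ^ a * starRingEnd ℂ (uu α σ ^ b))).re := by
      intro σ
      have h2 : ((‖∑ e ∈ S, F.coeff e * uu α σ ^ e‖ ^ 2 : ℝ) : ℂ) = ∑ a ∈ S, ∑ b ∈ S,
          (F.coeff a * starRingEnd ℂ (F.coeff b) *
            (uu α σ ^ a * starRingEnd ℂ (uu α σ ^ b))) := by
        rw [← Complex.normSq_eq_norm_sq, ← Complex.mul_conj, map_sum, Finset.sum_mul_sum]
        refine Finset.sum_congr rfl fun j _ => Finset.sum_congr rfl fun l _ => ?_
        rw [map_mul]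
        ring
      have h3 := congrArg Complex.re h2
      rw [Complex.ofReal_re, Complex.re_sum] at h3
      rw [h3]
      refine Finset.sum_congr rfl fun j _ => ?_
      rw [Complex.re_sum]
    rw [Finset.sum_congr rfl (fun σ _ => h1 σ), Finset.sum_comm]
    refine Finset.sum_congr rfl fun j _ => ?_
    rw [Finset.sum_comm]
    refine Finset.sum_congr rfl fun l _ => ?_
    unfold GM
    rw [Finset.mul_sum, Complex.re_sum]
  have hlow : n * Q - Y ≤ ∑ σ : K →ₐ[ℚ] ℂ, ‖∑ e ∈ S, F.coeff e * uu α σ ^ e‖ ^ 2 := by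
    rw [hexp, ← Finset.sum_product', ← Finset.diag_union_offDiag,
      Finset.sum_union (Finset.disjoint_diag_offDiag S)]
    have h1 : ∑ x ∈ S.diag, (F.coeff x.1 * starRingEnd ℂ (F.coeff x.2) * GM α x.1 x.2).re =
        n * Q := by
      rw [Finset.sum_diag, hQ, Finset.mul_sum]
      refine Finset.sum_congr rfl fun a _ => ?_
      rw [GM_diag h0, Complex.mul_conj, Complex.normSq_eq_norm_sq, Complex.re_ofReal_mul,
        Complex.natCast_re, hn]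
      ring
    have h2 : -Y ≤ ∑ x ∈ S.offDiag, (F.coeff x.1 * starRingEnd ℂ (F.coeff x.2) *
        GM α x.1 x.2).re := by
      rw [hY, ← Finset.sum_neg_distrib]
      refine Finset.sum_le_sum fun x _ => ?_
      have h3 := Complex.abs_re_le_norm (F.coeff x.1 * starRingEnd ℂ (F.coeff x.2) * GM α x.1 x.2)
      rw [norm_mul, norm_mul, RCLike.norm_conj] at h3
      linarith [neg_abs_le (F.coeff x.1 * starRingEnd ℂ (F.coeff x.2) * GM α x.1 x.2).re]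
    rw [h1]
    linarith
  have hup : ∑ σ : K →ₐ[ℚ] ℂ, ‖∑ e ∈ S, F.coeff e * uu α σ ^ e‖ ^ 2 ≤
      (S.card * Q) * (F.natDegree * (2 * lam α)) := by
    have h1 : ∑ σ : K →ₐ[ℚ] ℂ, ‖∑ e ∈ S, F.coeff e * uu α σ ^ e‖ ^ 2 ≤
        L ^ 2 * (F.natDegree * (2 * lam α)) := by
      refine (Finset.sum_le_sum fun σ _ => val_small h0 F σ (hF σ)).trans (le_of_eq ?_)
      rw [← sum_abs_log h0 hunit, Finset.mul_sum, Finset.mul_sum]
    have hlam := lam_nonneg α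
    exact h1.trans (mul_le_mul_of_nonneg_right hLQ (by positivity))
  set δ : ℝ := n - 2 * S.card * (F.natDegree * lam α) with hδ
  have hδ0 : 0 ≤ δ := by rw [hδ]; linarith
  have h1 : δ * Q ≤ Y := by
    have : (S.card * Q) * (F.natDegree * (2 * lam α)) =
        2 * S.card * (F.natDegree * lam α) * Q := by ring
    rw [hδ, sub_mul]
    linarith
  have h2 : (δ * Q) ^ 2 ≤ Q ^ 2 * Z := (pow_le_pow_left₀ (by positivity) h1 2).trans hYZ
  have h3 : Q ^ 2 * δ ^ 2 ≤ Q ^ 2 * Z := by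
    calc Q ^ 2 * δ ^ 2 = (δ * Q) ^ 2 := by ring
      _ ≤ _ := h2
  exact le_of_mul_le_mul_left h3 (by positivity)

end

end Pool.Agent.X184.Leh
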