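import Mathlib
import Pool.Agent.X184.Leh.S1

/-!
# Sparse multiples: the weighted energy
-/

set_option autoImplicit false

open Finset Polynomial Module IntermediateField Pool.Agent.H388SL Pool.Agent.Y947.DL
  Pool.Agent.Y947.DM

namespace Pool.Agent.X184.Leh

/-- increasing pairs -/
def incr (E : Finset ℕ) : Finset (ℕ × ℕ) := (E ×ˢ E).filter fun x => x.1 < x.2

/-- the number of pairs with difference `m` -/
def rr (E : Finset ℕ) (m : ℕ) : ℕ := ((incr E).filter fun x => x.2 - x.1 = m).card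

lemma rr_le (E : Finset ℕ) (m : ℕ) : rr E m ≤ E.card := by
  unfold rr
  apply Finset.card_le_card_of_injOn (fun x => x.1)
  · intro x hx
    have h := (Finset.mem_filter.mp hx).1
    unfold incr at h
    exact (Finset.mem_product.mp (Finset.mem_filter.mp h).1).1
  · intro x hx y hy hxy
    have h1 := Finset.mem_filter.mp hx
    have h2 := Finset.mem_filter.mp hy
    have h3 := (Finset.mem_filter.mp h1.1).2
    have h4 := (Finset.mem_filter.mp h2.1).2
    dsimp only at hxy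
    apply Prod.ext hxy
    omega

lemma incr_card (E : Finset ℕ) : 2 * (incr E).card ≤ E.card ^ 2 := by
  set P' := (E ×ˢ E).filter fun x : ℕ × ℕ => x.2 < x.1 with hP'
  have h1 : (incr E).card = P'.card := by
    refine Finset.card_bij' (fun x _ => x.swap) (fun x _ => x.swap) ?_ ?_ ?_ ?_
    · intro x hx
      unfold incr at hx
      rw [Finset.mem_filter, Finset.mem_product] at hx
      rw [hP', Finset.mem_filter, Finset.mem_product]
      exact ⟨⟨hx.1.2, hx.1.1⟩, hx.2⟩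
    · intro x hx
      rw [hP', Finset.mem_filter, Finset.mem_product] at hx
      unfold incr
      rw [Finset.mem_filter, Finset.mem_product]
      exact ⟨⟨hx.1.2, hx.1.1⟩, hx.2⟩
    · intro x _; exact Prod.swap_swap x
    · intro x _; exact Prod.swap_swap x
  have h2 : Disjoint (incr E) P' := by
    unfold incr
    rw [Finset.disjoint_filter]
    intro x _ h3 h4
    omega
  have h3 : ((incr E) ∪ P').card ≤ (E ×ˢ E).card :=
    Finset.card_le_card (Finset.union_subset (Finset.filter_subset _ _) (Finset.filter_subset _ _))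
  rw [Finset.card_union_of_disjoint h2, Finset.card_product, ← h1] at h3
  nlinarith

lemma sum_incr (E : Finset ℕ) {D : ℕ} (hD : ∀ e ∈ E, e ≤ D) (g : ℕ → ℝ) :
    ∑ x ∈ incr E, g (x.2 - x.1) = ∑ m ∈ Finset.Icc 1 D, (rr E m : ℝ) * g m := by
  have hmaps : ∀ x ∈ incr E, x.2 - x.1 ∈ Finset.Icc 1 D := by
    intro x hx
    unfold incr at hx
    rw [Finset.mem_filter, Finset.mem_product] at hx
    rw [Finset.mem_Icc]
    have := hD x.2 hx.1.2
    omega
  rw [← Finset.sum_fiberwise_of_maps_to hmaps]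
  refine Finset.sum_congr rfl fun m _ => ?_
  unfold rr
  rw [Finset.sum_congr rfl (g := fun _ => g m)]
  · rw [Finset.sum_const, nsmul_eq_mul]
  · intro x hx
    rw [(Finset.mem_filter.mp hx).2]

lemma sum_rr (E : Finset ℕ) {D : ℕ} (hD : ∀ e ∈ E, e ≤ D) :
    ∑ m ∈ Finset.Icc 1 D, (rr E m : ℝ) = (incr E).card := by
  have h := sum_incr E hD (fun _ => 1)
  simp only [mul_one, Finset.sum_const, nsmul_eq_mul] at h
  exact h.symm

section

variable {K : Type*} [Field K] [NumberField K]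

/-- the part of one sign, weighted -/
lemma half_weighted {α : K} (hα : IsIntegral ℤ α) (h0 : α ≠ 0)
    (hroot : ∀ n : ℕ, 0 < n → α ^ n ≠ 1)
    (hinj : ∀ m : ℕ, 0 < m → CInj (α ^ m)) {D : ℕ} (r : ℕ → ℕ) {k : ℕ} (hk : 1 ≤ k)
    (hr : ∀ m, r m ≤ k) (hnk : (2:ℝ) ≤ finrank ℚ K * k) {B : ℝ} (hB0 : 0 ≤ B)
    (hB : finrank ℚ K * Real.log (finrank ℚ K) - SL α α ≤ finrank ℚ K * B)
    (s : ℝ) (hs : |s| = 1) :
    (1 - 1 / (finrank ℚ K * k)) * ∑ m ∈ (Finset.Icc 1 D).filter (fun m => 0 < s * (UU α m).re),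
        (r m : ℝ) * (s * (UU α m).re) ^ 2 ≤
      k * finrank ℚ K * (B + Real.log k) +
      (2 * finrank ℚ K / (3 * k) + 2 * finrank ℚ K * D * lam α) *
        ∑ m ∈ (Finset.Icc 1 D).filter (fun m => 0 < s * (UU α m).re), (r m : ℝ) := by
  have hc : CInj α := by simpa using hinj 1 one_pos
  have hn0 : (0:ℝ) < finrank ℚ K := by exact_mod_cast finrank_pos
  set n : ℝ := (finrank ℚ K : ℝ) with hn
  have hk0 : (0:ℝ) < k := by exact_mod_cast hk
  have hk1 : (1:ℝ) ≤ k := by exact_mod_cast hk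
  have hlk : 0 ≤ Real.log k := Real.log_nonneg hk1
  set κ : ℝ := (k:ℝ) with hκ
  have hΛ0 : 0 ≤ lam α := lam_nonneg α
  set P := (Finset.Icc 1 D).filter (fun m => 0 < s * (UU α m).re) with hP
  set x : ℕ → ℝ := fun m => s * (UU α m).re with hx
  set c : ℕ → ℝ := fun m => (r m : ℝ) * x m with hcdef
  have hPm : ∀ m ∈ P, 1 ≤ m ∧ m ≤ D ∧ 0 < x m := by
    intro m hm
    rw [hP, Finset.mem_filter, Finset.mem_Icc] at hm
    exact ⟨hm.1.1, hm.1.2, hm.2⟩
  have hr0 : ∀ m, (0:ℝ) ≤ r m := fun m => Nat.cast_nonneg _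
  have hrk : ∀ m, (r m : ℝ) ≤ κ := fun m => by rw [hκ]; exact_mod_cast hr m
  have hcm : ∀ m ∈ P, 0 ≤ c m := fun m hm => mul_nonneg (hr0 m) (hPm m hm).2.2.le
  have hnk0 : 0 < n * κ := by positivity
  set t : ℝ := 1 - 1 / (n * κ) with ht
  have hinvle : 1 / (n * κ) ≤ 1 / 2 := one_div_le_one_div_of_le (by norm_num) hnk
  have hinv0 : 0 < 1 / (n * κ) := by positivity
  have ht0 : 0 ≤ t := by rw [ht]; linarith
  have ht1 : t < 1 := by rw [ht]; linarith
  have hM := master hα h0 hroot hc P (fun m hm => (hPm m hm).1) (fun m hm => hinj m (hPm m hm).1)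
    c hcm ht0 ht1
  set V : ℝ := ∑ m ∈ P, (r m : ℝ) * x m ^ 2 with hV
  have hV0 : 0 ≤ V := Finset.sum_nonneg fun m _ => mul_nonneg (hr0 m) (sq_nonneg _)
  set R : ℝ := ∑ m ∈ P, (r m : ℝ) with hR
  have hR0 : 0 ≤ R := Finset.sum_nonneg fun m _ => hr0 m
  have hcross : 0 ≤ ∑ m ∈ P, ∑ l ∈ P, (if m = l then 0 else c m * c l * SL (α ^ m) (α ^ l)) := by
    refine Finset.sum_nonneg fun m hm => Finset.sum_nonneg fun l hl => ?_
    split_ifs with hml
    · exact le_rfl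
    · apply mul_nonneg (mul_nonneg (hcm m hm) (hcm l hl))
      exact SL_nonneg (hα.pow m) (hα.pow l) (hinj l (hPm l hl).1)
        (conj_ne hα h0 hroot hml (hinj m (hPm m hm).1) (hinj l (hPm l hl).1))
  have hsq : V ≤ ‖∑ m ∈ P, (c m : ℂ) * UU α m‖ := by
    have e1 : (∑ m ∈ P, (c m : ℂ) * UU α m).re = ∑ m ∈ P, c m * (UU α m).re := by
      rw [Complex.re_sum]
      refine Finset.sum_congr rfl fun m _ => ?_
      rw [Complex.re_ofReal_mul]
    have e2 : V = s * (∑ m ∈ P, (c m : ℂ) * UU α m).re := by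
      rw [e1, hV, Finset.mul_sum]
      refine Finset.sum_congr rfl fun m _ => ?_
      rw [hcdef, hx]; ring
    have h3 : |s * (∑ m ∈ P, (c m : ℂ) * UU α m).re| ≤ ‖∑ m ∈ P, (c m : ℂ) * UU α m‖ := by
      rw [abs_mul, hs, one_mul]
      exact Complex.abs_re_le_norm _
    rw [← e2] at h3
    exact (le_abs_self V).trans h3
  have hS0 : 0 ≤ ∑ m ∈ P, c m := Finset.sum_nonneg hcm
  have hCS : (∑ m ∈ P, c m) ^ 2 ≤ R * V := by
    have h1 := Finset.sum_mul_sq_le_sq_mul_sq P (fun m => Real.sqrt (r m))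
      (fun m => Real.sqrt (r m) * x m)
    have e1 : ∀ m ∈ P, Real.sqrt (r m) * (Real.sqrt (r m) * x m) = c m := by
      intro m _
      rw [← mul_assoc, Real.mul_self_sqrt (hr0 m)]
    have e2 : ∀ m ∈ P, Real.sqrt (r m) ^ 2 = (r m : ℝ) := fun m _ => Real.sq_sqrt (hr0 m)
    have e3 : ∀ m ∈ P, (Real.sqrt (r m) * x m) ^ 2 = (r m : ℝ) * x m ^ 2 := by
      intro m _
      rw [mul_pow, Real.sq_sqrt (hr0 m)]
    rw [Finset.sum_congr rfl e1, Finset.sum_congr rfl e2, Finset.sum_congr rfl e3] at h1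
    exact h1
  have hc2 : ∑ m ∈ P, c m ^ 2 ≤ κ * V := by
    rw [hV, Finset.mul_sum]
    refine Finset.sum_le_sum fun m _ => ?_
    have h1 : c m ^ 2 = (r m : ℝ) * ((r m : ℝ) * x m ^ 2) := by rw [hcdef]; ring
    rw [h1]
    exact mul_le_mul_of_nonneg_right (hrk m) (mul_nonneg (hr0 m) (sq_nonneg _))
  have hc20 : 0 ≤ ∑ m ∈ P, c m ^ 2 := Finset.sum_nonneg fun m _ => sq_nonneg _
  have hmc : ∑ m ∈ P, (m:ℝ) * c m ≤ D * ∑ m ∈ P, c m := by
    rw [Finset.mul_sum]
    refine Finset.sum_le_sum fun m hm => ?_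
    apply mul_le_mul_of_nonneg_right _ (hcm m hm)
    exact_mod_cast (hPm m hm).2.1
  have hlog1 : Real.log (1 / (1 - t)) = Real.log n + Real.log κ := by
    rw [ht, sub_sub_cancel, one_div_one_div, Real.log_mul hn0.ne' hk0.ne']
  have hlog2 : Real.log (2 / (1 + t)) ≤ 2 / (3 * (n * κ)) := by
    have h2t : 0 < 2 / (1 + t) := by apply div_pos <;> linarith
    refine (Real.log_le_sub_one_of_pos h2t).trans ?_
    have h1t : 3 / 2 ≤ 1 + t := by linarith
    have e : 2 / (1 + t) - 1 = (1 - t) / (1 + t) := by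
      rw [div_sub_one (by linarith)]
      congr 1
      ring
    have e2 : 1 - t = 1 / (n * κ) := by rw [ht]; ring
    rw [e, e2, div_le_iff₀ (by linarith)]
    have h5 : 1 / (n * κ) = 2 / (3 * (n * κ)) * (3 / 2) := by field_simp
    calc 1 / (n * κ) = 2 / (3 * (n * κ)) * (3 / 2) := h5
      _ ≤ _ := mul_le_mul_of_nonneg_left h1t (by positivity)
  have hD0 : (0:ℝ) ≤ D := Nat.cast_nonneg D
  have h1 : t * V ^ 2 ≤ V * (2 * n * D * R * lam α +
      2 * n / (3 * κ) * R + κ * n * (B + Real.log κ)) := by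
    have a1 : t * V ^ 2 ≤ t * ‖∑ m ∈ P, (c m : ℂ) * UU α m‖ ^ 2 :=
      mul_le_mul_of_nonneg_left (pow_le_pow_left₀ hV0 hsq 2) ht0
    have a2 : 2 * n * (∑ m ∈ P, c m) * (∑ m ∈ P, (m:ℝ) * c m) * lam α ≤
        V * (2 * n * D * R * lam α) := by
      have b1 : (∑ m ∈ P, c m) * (∑ m ∈ P, (m:ℝ) * c m) ≤ D * (R * V) := by
        calc (∑ m ∈ P, c m) * (∑ m ∈ P, (m:ℝ) * c m) ≤ (∑ m ∈ P, c m) * (D * ∑ m ∈ P, c m) :=
              mul_le_mul_of_nonneg_left hmc hS0
          _ = D * (∑ m ∈ P, c m) ^ 2 := by ring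
          _ ≤ _ := mul_le_mul_of_nonneg_left hCS hD0
      have b2 : 0 ≤ 2 * n * lam α := by positivity
      have b3 := mul_le_mul_of_nonneg_left b1 b2
      calc 2 * n * (∑ m ∈ P, c m) * (∑ m ∈ P, (m:ℝ) * c m) * lam α =
            2 * n * lam α * ((∑ m ∈ P, c m) * (∑ m ∈ P, (m:ℝ) * c m)) := by ring
        _ ≤ _ := b3
        _ = _ := by ring
    have a3 : (n * ∑ m ∈ P, c m) ^ 2 * Real.log (2 / (1 + t)) ≤
        V * (2 * n / (3 * κ) * R) := by
      have b1 : (n * ∑ m ∈ P, c m) ^ 2 * Real.log (2 / (1 + t)) ≤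
          (n * ∑ m ∈ P, c m) ^ 2 * (2 / (3 * (n * κ))) :=
        mul_le_mul_of_nonneg_left hlog2 (sq_nonneg _)
      have b2 : (n * ∑ m ∈ P, c m) ^ 2 * (2 / (3 * (n * κ))) =
          2 * n / (3 * κ) * (∑ m ∈ P, c m) ^ 2 := by
        field_simp
      have b3 : 2 * n / (3 * κ) * (∑ m ∈ P, c m) ^ 2 ≤ 2 * n / (3 * κ) * (R * V) :=
        mul_le_mul_of_nonneg_left hCS (by positivity)
      calc _ ≤ _ := b1
        _ = _ := b2
        _ ≤ _ := b3
        _ = _ := by ring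
    have a4 : (∑ m ∈ P, c m ^ 2) * (n * (Real.log n + Real.log κ) - SL α α) ≤
        V * (κ * n * (B + Real.log κ)) := by
      have b1 : n * (Real.log n + Real.log κ) - SL α α ≤ n * (B + Real.log κ) := by
        rw [mul_add, mul_add]; linarith
      have b2 : 0 ≤ n * (B + Real.log κ) := by positivity
      calc (∑ m ∈ P, c m ^ 2) * (n * (Real.log n + Real.log κ) - SL α α) ≤
            (∑ m ∈ P, c m ^ 2) * (n * (B + Real.log κ)) := mul_le_mul_of_nonneg_left b1 hc20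
        _ ≤ (κ * V) * (n * (B + Real.log κ)) := mul_le_mul_of_nonneg_right hc2 b2
        _ = _ := by ring
    rw [hlog1] at hM
    have a5 : n * (∑ m ∈ P, c m ^ 2) * (Real.log n + Real.log κ) - (∑ m ∈ P, c m ^ 2) * SL α α =
        (∑ m ∈ P, c m ^ 2) * (n * (Real.log n + Real.log κ) - SL α α) := by ring
    rw [mul_add, mul_add]
    linarith
  have hlast : 0 ≤ κ * n * (B + Real.log κ) := by positivity
  rcases hV0.eq_or_lt with h | h
  · rw [← h, mul_zero]
    have h5 : 0 ≤ (2 * n / (3 * κ) + 2 * n * D * lam α) * R := by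
      apply mul_nonneg _ hR0
      have h6 : 0 ≤ 2 * n / (3 * κ) := by positivity
      have h7 : 0 ≤ 2 * n * D * lam α := mul_nonneg (by positivity) hΛ0
      linarith
    linarith
  · have h2 : V * (t * V) ≤ V * (2 * n * D * R * lam α +
      2 * n / (3 * κ) * R + κ * n * (B + Real.log κ)) := by
      calc V * (t * V) = t * V ^ 2 := by ring
        _ ≤ _ := h1
    have h3 := le_of_mul_le_mul_left h2 h
    calc t * V ≤ _ := h3
      _ = _ := by ring

theorem sum_weighted {α : K} (hα : IsIntegral ℤ α) (h0 : α ≠ 0)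
    (hroot : ∀ n : ℕ, 0 < n → α ^ n ≠ 1)
    (hinj : ∀ m : ℕ, 0 < m → CInj (α ^ m)) {D : ℕ} (r : ℕ → ℕ) {k : ℕ} (hk : 1 ≤ k)
    (hr : ∀ m, r m ≤ k) (hrs : 2 * ∑ m ∈ Finset.Icc 1 D, (r m : ℝ) ≤ (k:ℝ) ^ 2)
    (hnk : (2:ℝ) ≤ finrank ℚ K * k) {B : ℝ} (hB0 : 0 ≤ B)
    (hB : finrank ℚ K * Real.log (finrank ℚ K) - SL α α ≤ finrank ℚ K * B) :
    (1 - 1 / (finrank ℚ K * k)) * ∑ m ∈ Finset.Icc 1 D, (r m : ℝ) * (UU α m).re ^ 2 ≤
      finrank ℚ K * (k * (2 * B + 2 * Real.log k + 1 / 3) + k ^ 2 * (D * lam α)) := by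
  have h1 := half_weighted hα h0 hroot hinj (D := D) r hk hr hnk hB0 hB 1 (by simp)
  have h2 := half_weighted hα h0 hroot hinj (D := D) r hk hr hnk hB0 hB (-1) (by simp)
  have hn0 : (0:ℝ) < finrank ℚ K := by exact_mod_cast finrank_pos
  set n : ℝ := (finrank ℚ K : ℝ) with hn
  have hk0 : (0:ℝ) < k := by exact_mod_cast hk
  set P := (Finset.Icc 1 D).filter (fun m => 0 < 1 * (UU α m).re) with hP
  set N := (Finset.Icc 1 D).filter (fun m => 0 < -1 * (UU α m).re) with hN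
  have hdisj : Disjoint P N := by
    rw [Finset.disjoint_filter]
    intro m _ h3 h4
    linarith
  have hR : ∑ m ∈ P, (r m : ℝ) + ∑ m ∈ N, (r m : ℝ) ≤ (k:ℝ) ^ 2 / 2 := by
    rw [← Finset.sum_union hdisj]
    have h3 : ∑ m ∈ P ∪ N, (r m : ℝ) ≤ ∑ m ∈ Finset.Icc 1 D, (r m : ℝ) :=
      Finset.sum_le_sum_of_subset_of_nonneg
        (Finset.union_subset (Finset.filter_subset _ _) (Finset.filter_subset _ _))
        (fun _ _ _ => Nat.cast_nonneg _)
    linarith
  have hsum : ∑ m ∈ Finset.Icc 1 D, (r m : ℝ) * (UU α m).re ^ 2 =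
      ∑ m ∈ P, (r m : ℝ) * (1 * (UU α m).re) ^ 2 +
        ∑ m ∈ N, (r m : ℝ) * (-1 * (UU α m).re) ^ 2 := by
    rw [hP, hN, Finset.sum_filter, Finset.sum_filter, ← Finset.sum_add_distrib]
    refine Finset.sum_congr rfl fun m _ => ?_
    rcases lt_trichotomy (UU α m).re 0 with h | h | h
    · rw [if_neg (by linarith), if_pos (by linarith)]; ring
    · rw [h]; simp
    · rw [if_pos (by linarith), if_neg (by linarith)]; ring
  rw [hsum, mul_add]
  have hΛ0 : 0 ≤ lam α := lam_nonneg α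
  have hc0 : 0 ≤ 2 * n / (3 * k) + 2 * n * D * lam α := by
    have h6 : 0 ≤ 2 * n / (3 * (k:ℝ)) := by positivity
    have h7 : 0 ≤ 2 * n * (D:ℝ) * lam α := mul_nonneg (by positivity) hΛ0
    linarith
  have h3 : (2 * n / (3 * k) + 2 * n * D * lam α) * ∑ m ∈ P, (r m : ℝ) +
      (2 * n / (3 * k) + 2 * n * D * lam α) * ∑ m ∈ N, (r m : ℝ) ≤
      n * (k / 3 + k ^ 2 * (D * lam α)) := by
    rw [← mul_add]
    have h4 := mul_le_mul_of_nonneg_left hR hc0
    have e : (2 * n / (3 * k) + 2 * n * D * lam α) * ((k:ℝ) ^ 2 / 2) =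
        n * (k / 3 + k ^ 2 * (D * lam α)) := by
      field_simp
    rw [e] at h4
    exact h4
  linarith

end

end Pool.Agent.X184.Leh
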