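import Mathlib
import Pool.Agent.X184.Leh.S2

/-!
# Sparse multiples: the theorem
-/

set_option autoImplicit false

open Finset Polynomial Module IntermediateField Pool.Agent.H388SL Pool.Agent.Y947.DL
  Pool.Agent.Y947.DM

namespace Pool.Agent.X184.Leh

section

variable {K : Type*} [Field K] [NumberField K]

lemma UU_norm_sq (α : K) (m : ℕ) : ‖UU α m‖ ^ 2 = (UU α m).re ^ 2 := by
  have h := UU_real α m
  have h1 : (UU α m).im = 0 := Complex.conj_eq_iff_im.mp h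
  rw [← Complex.normSq_eq_norm_sq, Complex.normSq_apply, h1]
  ring

lemma sum_offDiag (E : Finset ℕ) (h : ℕ → ℕ → ℝ) (hs : ∀ a b, h a b = h b a) :
    ∑ x ∈ E.offDiag, h x.1 x.2 = 2 * ∑ x ∈ incr E, h x.2 x.1 := by
  classical
  set P' := (E ×ˢ E).filter fun x : ℕ × ℕ => x.2 < x.1 with hP'
  have h1 : E.offDiag = incr E ∪ P' := by
    ext x
    unfold incr
    rw [Finset.mem_offDiag, Finset.mem_union, Finset.mem_filter, hP', Finset.mem_filter,
      Finset.mem_product]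
    constructor
    · rintro ⟨h1, h2, h3⟩
      rcases lt_or_gt_of_ne h3 with h4 | h4
      · exact Or.inl ⟨⟨h1, h2⟩, h4⟩
      · exact Or.inr ⟨⟨h1, h2⟩, h4⟩
    · rintro (⟨⟨h1, h2⟩, h3⟩ | ⟨⟨h1, h2⟩, h3⟩)
      · exact ⟨h1, h2, h3.ne⟩
      · exact ⟨h1, h2, h3.ne'⟩
  have h2 : Disjoint (incr E) P' := by
    unfold incr
    rw [Finset.disjoint_filter]
    intro x _ h3 h4
    omega
  have h3 : ∑ x ∈ P', h x.1 x.2 = ∑ x ∈ incr E, h x.2 x.1 := by
    refine Finset.sum_bij' (fun x _ => x.swap) (fun x _ => x.swap) ?_ ?_ ?_ ?_ ?_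
    · intro x hx
      rw [hP', Finset.mem_filter, Finset.mem_product] at hx
      unfold incr
      rw [Finset.mem_filter, Finset.mem_product]
      exact ⟨⟨hx.1.2, hx.1.1⟩, hx.2⟩
    · intro x hx
      unfold incr at hx
      rw [Finset.mem_filter, Finset.mem_product] at hx
      rw [hP', Finset.mem_filter, Finset.mem_product]
      exact ⟨⟨hx.1.2, hx.1.1⟩, hx.2⟩
    · intro x _; exact Prod.swap_swap x
    · intro x _; exact Prod.swap_swap x
    · intro x _; rfl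
  have h4 : ∑ x ∈ incr E, h x.1 x.2 = ∑ x ∈ incr E, h x.2 x.1 :=
    Finset.sum_congr rfl fun x _ => hs _ _
  rw [h1, Finset.sum_union h2, h3, h4]
  ring

theorem sparse_core {α : K} (hα : IsIntegral ℤ α) (h0 : α ≠ 0)
    (hroot : ∀ n : ℕ, 0 < n → α ^ n ≠ 1) (hunit : ∏ σ : K →ₐ[ℚ] ℂ, ‖σ α‖ = 1)
    (hinj : ∀ m : ℕ, 0 < m → CInj (α ^ m)) (F : ℂ[X]) (hF0 : F ≠ 0)
    (hF : ∀ σ : K →ₐ[ℚ] ℂ, F.eval (σ α) = 0) {B : ℝ} (hB0 : 0 ≤ B)
    (hB : finrank ℚ K * Real.log (finrank ℚ K) - SL α α ≤ finrank ℚ K * B)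
    (hn : 64 * F.support.card * (1 + B + Real.log F.support.card) ≤ finrank ℚ K) :
    (finrank ℚ K : ℝ) ≤ 8 * (F.support.card : ℝ) ^ 2 * (F.natDegree * lam α) := by
  by_contra hcon
  push Not at hcon
  have hn0 : (0:ℝ) < finrank ℚ K := by exact_mod_cast finrank_pos
  set n : ℝ := (finrank ℚ K : ℝ) with hndef
  -- at least two terms
  have hk2 : 2 ≤ F.support.card := by
    by_contra hlt
    have h1 : F.support.card ≤ 1 := by omega
    obtain ⟨d, a, hda⟩ := Polynomial.card_support_le_one_iff_monomial.mp h1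
    obtain ⟨σ⟩ : Nonempty (K →ₐ[ℚ] ℂ) := ⟨IsAlgClosed.lift⟩
    have h2 := hF σ
    rw [hda, Polynomial.eval_monomial] at h2
    have ha : a ≠ 0 := by
      rintro rfl
      exact hF0 (by rw [hda]; simp)
    exact (mul_ne_zero ha (pow_ne_zero _ ((_root_.map_ne_zero σ).mpr h0))) h2
  set S := F.support with hS
  set k := S.card with hk
  have hk2' : (2:ℝ) ≤ k := by exact_mod_cast hk2
  have hk0 : (0:ℝ) < k := by linarith
  have hlk : 0 ≤ Real.log k := Real.log_nonneg (by linarith)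
  set D : ℝ := (F.natDegree : ℝ) with hD
  have hD0 : 0 ≤ D := Nat.cast_nonneg _
  have hΛ0 := lam_nonneg α
  set y : ℝ := D * lam α with hy
  have hy0 : 0 ≤ y := mul_nonneg hD0 hΛ0
  have hn128 : 128 ≤ n := by nlinarith
  have hnk : (2:ℝ) ≤ n * k := by nlinarith
  -- the upper bound
  have hup := sum_weighted hα h0 hroot hinj (D := F.natDegree) (rr S) (k := k) (by omega)
    (rr_le S) (by
      rw [sum_rr S (fun e he => Polynomial.le_natDegree_of_mem_supp e he)]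
      exact_mod_cast incr_card S) hnk hB0 hB
  set T := ∑ m ∈ Finset.Icc 1 F.natDegree, (rr S m : ℝ) * (UU α m).re ^ 2 with hT
  have hT0 : 0 ≤ T := Finset.sum_nonneg fun m _ => mul_nonneg (Nat.cast_nonneg _) (sq_nonneg _)
  have hky : (k:ℝ) * y < n / 16 := by
    have h1 : 8 * (k:ℝ) ^ 2 * y < n := hcon
    have h2 : 2 * ((k:ℝ) * y) ≤ k * (k * y) :=
      mul_le_mul_of_nonneg_right hk2' (mul_nonneg hk0.le hy0)
    nlinarith
  have hTle : T ≤ 256 / 255 * (5 / 32 * n ^ 2) := by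
    have h1 : k * (2 * B + 2 * Real.log k + 1 / 3) + (k:ℝ) ^ 2 * y ≤ 5 / 32 * n := by
      have h2 : (k:ℝ) * (2 * B + 2 * Real.log k + 1 / 3) ≤ n / 32 := by nlinarith
      have h3 : (k:ℝ) ^ 2 * y ≤ n / 8 := by
        have h1 : 8 * (k:ℝ) ^ 2 * y < n := hcon
        linarith
      linarith
    have h2 : n * (k * (2 * B + 2 * Real.log k + 1 / 3) + (k:ℝ) ^ 2 * y) ≤ n * (5 / 32 * n) :=
      mul_le_mul_of_nonneg_left h1 hn0.le
    have h3 : (255 / 256 : ℝ) ≤ 1 - 1 / (n * k) := by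
      have h4 : 1 / (n * k) ≤ 1 / 256 := by
        apply one_div_le_one_div_of_le (by norm_num)
        nlinarith
      linarith
    have h4 : 255 / 256 * T ≤ (1 - 1 / (n * k)) * T := mul_le_mul_of_nonneg_right h3 hT0
    have h5 : 255 / 256 * T ≤ n * (5 / 32 * n) := h4.trans (hup.trans h2)
    nlinarith
  -- the lower bound
  have hg := gramC h0 hunit F hF0 hF (by
    rw [← hndef, ← hS, ← hk, ← hD, ← hy]; nlinarith)
  rw [← hndef, ← hS, ← hk, ← hD, ← hy] at hg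
  rw [sum_offDiag S (fun a b => ‖GM α a b‖ ^ 2) (fun a b => by rw [GM_conj])] at hg
  have hinc : ∑ x ∈ incr S, ‖GM α x.2 x.1‖ ^ 2 ≤ ∑ x ∈ incr S, (fun m : ℕ =>
      2 * (UU α m).re ^ 2 + 8 * y ^ 2) (x.2 - x.1) := by
    refine Finset.sum_le_sum fun x hx => ?_
    have hx' := hx
    unfold incr at hx'
    rw [Finset.mem_filter, Finset.mem_product] at hx'
    rw [GM_eq h0 hx'.2.le]
    dsimp only
    set m := x.2 - x.1 with hm
    have hmD : (m:ℝ) ≤ D := by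
      have h1 := Polynomial.le_natDegree_of_mem_supp x.2 hx'.1.2
      have h2 : m ≤ F.natDegree := by omega
      rw [hD]; exact_mod_cast h2
    have h1 := WW_sub h0 hunit m
    have h2 : ‖WW α m‖ ≤ ‖UU α m‖ + 2 * y := by
      have h3 := norm_sub_norm_le (WW α m) (UU α m)
      have h4 : (m:ℝ) * (2 * lam α) ≤ D * (2 * lam α) :=
        mul_le_mul_of_nonneg_right hmD (by positivity)
      have h5 : D * (2 * lam α) = 2 * y := by rw [hy]; ring
      linarith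
    have h3 := pow_le_pow_left₀ (norm_nonneg _) h2 2
    have h4 := UU_norm_sq α m
    nlinarith [sq_nonneg (‖UU α m‖ - 2 * y)]
  rw [sum_incr S (fun e he => Polynomial.le_natDegree_of_mem_supp e he)
    (fun m : ℕ => 2 * (UU α m).re ^ 2 + 8 * y ^ 2)] at hinc
  have hsplit : ∑ m ∈ Finset.Icc 1 F.natDegree, (rr S m : ℝ) * (2 * (UU α m).re ^ 2 + 8 * y ^ 2) =
      2 * T + 8 * y ^ 2 * (incr S).card := by
    rw [← sum_rr S (fun e he => Polynomial.le_natDegree_of_mem_supp e he), hT, Finset.mul_sum,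
      Finset.mul_sum, ← Finset.sum_add_distrib]
    refine Finset.sum_congr rfl fun m _ => ?_
    ring
  rw [hsplit] at hinc
  have hic : 2 * ((incr S).card : ℝ) ≤ (k:ℝ) ^ 2 := by exact_mod_cast incr_card S
  have h1 : 8 * y ^ 2 * ((incr S).card : ℝ) ≤ 4 * (k * y) ^ 2 := by
    have h5 := mul_le_mul_of_nonneg_left hic (by positivity : 0 ≤ 4 * y ^ 2)
    calc 8 * y ^ 2 * ((incr S).card : ℝ) = 4 * y ^ 2 * (2 * ((incr S).card : ℝ)) := by ring
      _ ≤ 4 * y ^ 2 * (k:ℝ) ^ 2 := h5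
      _ = _ := by ring
  have hky0 : 0 ≤ (k:ℝ) * y := mul_nonneg hk0.le hy0
  have h2 : ((k:ℝ) * y) ^ 2 ≤ (n / 16) ^ 2 := pow_le_pow_left₀ hky0 hky.le 2
  have h3 : (7 / 8 * n) ^ 2 ≤ (n - 2 * k * y) ^ 2 := by
    apply pow_le_pow_left₀ (by positivity)
    have h6 : 2 * (k:ℝ) * y = 2 * ((k:ℝ) * y) := by ring
    rw [h6]
    linarith
  have h7 : (7 / 8 * n) ^ 2 ≤ 2 * (2 * T + 4 * (n / 16) ^ 2) := by linarith
  have hn2 : 0 < n ^ 2 := by positivity
  have h8 : (7 / 8 * n) ^ 2 = 49 / 64 * n ^ 2 := by ring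
  have h9 : (n / 16) ^ 2 = n ^ 2 / 256 := by ring
  rw [h8, h9] at h7
  linarith

end

/-- **sparse multiples** -/
theorem sparse_main (f : ℤ[X]) (hf : Irreducible f) (hM : 1 < MM f) (hM2 : MM f < 2)
    (hnd : ∀ m : ℕ, 0 < m → ∀ z w : ℂ, aeval z f = 0 → aeval w f = 0 → z ^ m = w ^ m → z = w)
    (F : ℂ[X]) (hF0 : F ≠ 0) (hdvd : f.map (Int.castRingHom ℂ) ∣ F)
    (hn : 64 * F.support.card * (1 + dfct f + Real.log F.support.card) ≤ f.natDegree) :
    (f.natDegree : ℝ) ≤ 8 * (F.support.card : ℝ) ^ 2 * (F.natDegree * Real.log (MM f)) := by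
  obtain ⟨g, hgf, hg, hgm, hg0, hgM, hgd, hgn, hn0, hgz, -⟩ := unit_red f hf hM hM2
  obtain ⟨z, hz⟩ := exists_zero (by rw [hgM]; exact hM) hgm
  obtain ⟨hNF, hrep⟩ := exists_rep g hg hgm z hz
  have hzero : ∀ σ : adjoin ℚ {z} →ₐ[ℚ] ℂ, aeval (σ (AdjoinSimple.gen ℚ z)) g = 0 := by
    intro σ
    have h1 : aeval (AdjoinSimple.gen ℚ z) g = 0 := by
      rw [← hrep.minp]; exact minpoly.aeval ℤ _
    have h2 := map_aevalZ σ g (AdjoinSimple.gen ℚ z)
    rw [h1, map_zero] at h2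
    exact h2.symm
  have hinj : ∀ m : ℕ, 0 < m → CInj ((AdjoinSimple.gen ℚ z) ^ m) := by
    intro m hm σ τ h
    have h1 : (σ (AdjoinSimple.gen ℚ z)) ^ m = (τ (AdjoinSimple.gen ℚ z)) ^ m := by
      have h2 : σ ((AdjoinSimple.gen ℚ z) ^ m) = τ ((AdjoinSimple.gen ℚ z) ^ m) := h
      rwa [map_pow, map_pow] at h2
    exact hrep.inj (hnd m hm _ _ ((hgz _).mp (hzero σ)) ((hgz _).mp (hzero τ)) h1)
  have hFz : ∀ σ : adjoin ℚ {z} →ₐ[ℚ] ℂ, F.eval (σ (AdjoinSimple.gen ℚ z)) = 0 := by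
    intro σ
    have h1 := (hgz _).mp (hzero σ)
    obtain ⟨G, hG⟩ := hdvd
    rw [hG, eval_mul, eval_map]
    have h2 : eval₂ (Int.castRingHom ℂ) (σ (AdjoinSimple.gen ℚ z)) f = 0 := by
      rw [Polynomial.aeval_def] at h1
      exact h1
    rw [h2, zero_mul]
  have hn0' : (0:ℝ) < f.natDegree := by exact_mod_cast hn0
  have hSL : SL (AdjoinSimple.gen ℚ z) (AdjoinSimple.gen ℚ z) = Real.log |(f.discr : ℝ)| := by
    rw [← hgd, log_discr_rep hrep hgm]
    rfl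
  have hD := discr_pos_rep hrep hgm
  rw [hgd] at hD
  have hB : finrank ℚ (adjoin ℚ {z}) * Real.log (finrank ℚ (adjoin ℚ {z})) -
      SL (AdjoinSimple.gen ℚ z) (AdjoinSimple.gen ℚ z) ≤ finrank ℚ (adjoin ℚ {z}) * dfct f := by
    rw [hSL, hrep.fin, hgn]
    have h2 : Real.log ((f.natDegree : ℝ) ^ f.natDegree / |(f.discr : ℝ)|) ≤
        Real.posLog ((f.natDegree : ℝ) ^ f.natDegree / |(f.discr : ℝ)|) := by
      rw [Real.posLog_apply]; exact le_max_right _ _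
    rw [Real.log_div (by positivity) hD.ne', Real.log_pow] at h2
    unfold dfct
    rw [mul_div_cancel₀ _ hn0'.ne']
    exact h2
  have h := sparse_core hrep.isInt (hrep.ne_zero hg0) (hrep.not_root (by rw [hgM]; exact hM))
    (hrep.prod_norm hg0) hinj F hF0 hFz (dfct_nonneg f) hB (by rw [hrep.fin, hgn]; exact hn)
  rw [hrep.fin, hgn, ← hrep.log_MM, hgM] at h
  exact h

end Pool.Agent.X184.Leh
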