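import Mathlib
import Pool.Agent.X184.Leh.Q3
import Pool.Agent.TH860.LQ.Fin

/-!
# Traces of the powers of Salem and Pisot numbers
-/

set_option autoImplicit false

open Finset Polynomial Module IntermediateField Pool.Agent.H388SL Pool.Agent.Y947.DL
  Pool.Agent.Y947.DM

namespace Pool.Agent.X184.Leh

/-- the sum of the `m`-th powers of the conjugates -/
noncomputable def tr (β : ℝ) (m : ℕ) : ℝ :=
  ((((minpoly ℤ β).map (Int.castRingHom ℂ)).roots.map fun z => z ^ m).sum).re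

lemma Rep.sum_pow {p : ℤ[X]} {K : Type} [Field K] [NumberField K] {α : K} (h : Rep p K α) (m : ℕ) :
    (((p.map (Int.castRingHom ℂ)).roots.map fun z => z ^ m).sum) =
      ∑ σ : K →ₐ[ℚ] ℂ, (σ α) ^ m := by
  have hroots : (p.map (Int.castRingHom ℂ)).roots =
      (Finset.univ : Finset (K →ₐ[ℚ] ℂ)).val.map fun τ => τ α := by
    rw [h.map_eq, Finset.prod_eq_multiset_prod]
    have e : (Multiset.map (fun τ : K →ₐ[ℚ] ℂ => X - C (τ α)) Finset.univ.val) =
        Multiset.map (fun a : ℂ => X - C a)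
          (Multiset.map (fun τ : K →ₐ[ℚ] ℂ => τ α) Finset.univ.val) := by
      rw [Multiset.map_map]; rfl
    rw [e, Polynomial.roots_multiset_prod_X_sub_C]
  rw [hroots, Multiset.map_map]
  rfl

theorem salem_traces {β : ℝ} (hβ1 : 1 < β) (hβ : IsIntegral ℤ β) (hβ2 : β < 2)
    (hone : ∀ z : ℂ, aeval z (minpoly ℤ β) = 0 → z ≠ (β : ℂ) → ‖z‖ ≤ 1) {k : ℕ} (hk : 1 ≤ k) :
    (1 - 1 / ((minpoly ℤ β).natDegree * k : ℝ)) *
        ∑ m ∈ Finset.Icc 1 k, (tr β m - β ^ m + (β⁻¹) ^ m) ^ 2 ≤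
      2 * (minpoly ℤ β).natDegree * (dfct (minpoly ℤ β) + Real.log k + 1 / 3 +
        k ^ 2 * Real.log β) ∧ 2 ≤ (minpoly ℤ β).natDegree := by
  classical
  set f := minpoly ℤ β with hf
  have hfm : f.Monic := minpoly.monic hβ
  have hirr : Irreducible f := minpoly.irreducible hβ
  have hMM : MM f = β := Pool.Agent.H389R3.PR.mahler_eq hβ1 hβ hone
  obtain ⟨g, hgf, -, -, hg0, -, -, -, hn0, -, -⟩ := unit_red f hirr (by rw [hMM]; exact hβ1)
    (by rw [hMM]; exact hβ2)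
  have hf0 : |f.coeff 0| = 1 := by
    rcases hgf with rfl | rfl
    · exact hg0
    · rwa [coeff_neg, abs_neg] at hg0
  have hz : aeval (β : ℂ) f = 0 := by
    have h1 : aeval (β : ℂ) f = ((aeval β f : ℝ) : ℂ) := aeval_algebraMap_apply ℂ β f
    rw [h1, minpoly.aeval]
    simp
  obtain ⟨hNF, hrep⟩ := exists_rep f hirr hfm (β : ℂ) hz
  set α := AdjoinSimple.gen ℚ (β : ℂ) with hα
  have hzero : ∀ σ : adjoin ℚ {(β : ℂ)} →ₐ[ℚ] ℂ, aeval (σ α) f = 0 := by
    intro σ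
    have h1 : aeval α f = 0 := by
      rw [← hrep.minp]; exact minpoly.aeval ℤ _
    have h2 := map_aevalZ σ f α
    rw [h1, map_zero] at h2
    exact h2.symm
  have hinj : ∀ m : ℕ, 0 < m → CInj (α ^ m) := by
    intro m hm0 σ τ h
    have h1 : (σ α) ^ m = (τ α) ^ m := by
      have h2 : σ (α ^ m) = τ (α ^ m) := h
      rwa [map_pow, map_pow] at h2
    exact hrep.inj (Pool.Agent.TH53.SL.salem_nondeg hβ1 hβ hone (hzero σ) (hzero τ) hm0 h1)
  have hM1 : 1 < MM f := by rw [hMM]; exact hβ1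
  have hα0 := hrep.ne_zero hf0
  have hαr := hrep.not_root hM1
  have hn0' : (0:ℝ) < f.natDegree := by exact_mod_cast hn0
  -- the degree is at least two
  have hn2 : 2 ≤ f.natDegree := by
    by_contra hcon
    have h1 : f.natDegree = 1 := by omega
    have h2 : Fintype.card (adjoin ℚ {(β : ℂ)} →ₐ[ℚ] ℂ) = 1 := by
      rw [AlgHom.card, hrep.fin, h1]
    obtain ⟨σ, hσ⟩ := Fintype.card_eq_one_iff.mp h2
    have h3 := hrep.prod_norm hf0
    have huniv : (Finset.univ : Finset (adjoin ℚ {(β : ℂ)} →ₐ[ℚ] ℂ)) = {σ} := by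
      ext τ; simp [hσ τ]
    rw [huniv, Finset.prod_singleton] at h3
    have h4 := hrep.log_MM
    unfold lam at h4
    rw [huniv, Finset.sum_singleton, h3, max_self, Real.log_one] at h4
    have h5 := Real.log_pos hM1
    linarith
  have hnk : (2:ℝ) ≤ finrank ℚ (adjoin ℚ {(β : ℂ)}) * k := by
    rw [hrep.fin]
    have h1 : (2:ℝ) ≤ f.natDegree := by exact_mod_cast hn2
    have h2 : (1:ℝ) ≤ k := by exact_mod_cast hk
    nlinarith
  have hSL : SL α α = Real.log |(f.discr : ℝ)| := by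
    rw [log_discr_rep hrep hfm]
    rfl
  have hD := discr_pos_rep hrep hfm
  have hB : finrank ℚ (adjoin ℚ {(β : ℂ)}) * Real.log (finrank ℚ (adjoin ℚ {(β : ℂ)})) - SL α α ≤
      finrank ℚ (adjoin ℚ {(β : ℂ)}) * dfct f := by
    rw [hSL, hrep.fin]
    have h2 : Real.log ((f.natDegree : ℝ) ^ f.natDegree / |(f.discr : ℝ)|) ≤
        Real.posLog ((f.natDegree : ℝ) ^ f.natDegree / |(f.discr : ℝ)|) := by
      rw [Real.posLog_apply]; exact le_max_right _ _
    rw [Real.log_div (by positivity) hD.ne', Real.log_pow] at h2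
    unfold dfct
    rw [mul_div_cancel₀ _ hn0'.ne']
    exact h2
  have hmain := sum_sq_UU hrep.isInt hα0 hαr hinj hk hnk (dfct_nonneg f) hB
  rw [hrep.fin, ← hrep.log_MM, hMM] at hmain
  refine ⟨le_trans (le_of_eq ?_) hmain, hn2⟩
  congr 1
  refine Finset.sum_congr rfl fun m hm => ?_
  congr 1
  -- the embedding with `α ↦ β`
  set σ0 : adjoin ℚ {(β : ℂ)} →ₐ[ℚ] ℂ := (adjoin ℚ {(β : ℂ)}).val with hσ0
  have hσα : σ0 α = (β : ℂ) := by
    rw [hσ0, hα]
    exact AdjoinSimple.coe_gen ℚ (β : ℂ)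
  have hβn : ‖(β : ℂ)‖ = β := by
    rw [Complex.norm_real, Real.norm_of_nonneg (by linarith)]
  have hrefl0 : H388SL.refl (σ0 α) = ((β⁻¹ : ℝ) : ℂ) := by
    unfold H388SL.refl
    rw [hσα, if_neg (by rw [hβn]; linarith), Complex.conj_ofReal, Complex.ofReal_inv]
  have hrefl : ∀ σ ∈ Finset.univ.erase σ0, H388SL.refl (σ α) ^ m = (σ α) ^ m := by
    intro σ hσ
    have hne : σ α ≠ (β : ℂ) := by
      intro h
      exact (Finset.ne_of_mem_erase hσ) (hrep.inj (h.trans hσα.symm))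
    unfold H388SL.refl
    rw [if_pos (hone _ (hzero σ) hne)]
  have hUU : UU α m = (∑ σ : adjoin ℚ {(β : ℂ)} →ₐ[ℚ] ℂ, (σ α) ^ m) - ((β ^ m : ℝ) : ℂ) +
      (((β⁻¹) ^ m : ℝ) : ℂ) := by
    unfold UU
    rw [← Finset.add_sum_erase _ _ (Finset.mem_univ σ0), Finset.sum_congr rfl hrefl,
      ← Finset.add_sum_erase _ (fun σ => (σ α) ^ m) (Finset.mem_univ σ0), hrefl0, hσα]
    push_cast
    ring
  rw [hUU, ← Rep.sum_pow hrep, Complex.add_re, Complex.sub_re, Complex.ofReal_re,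
    Complex.ofReal_re]
  rfl

end Pool.Agent.X184.Leh
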