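import Mathlib
import Pool.Agent.X184.Leh.D2

/-!
# Optimisation with the logarithmic gain
-/

set_option autoImplicit false

open Finset Polynomial Module Pool.Agent.H388SL Pool.Agent.Y947.DL Pool.Agent.Y947.DM

namespace Pool.Agent.X184.Leh

/-- the size of `Y` -/
lemma Y_size {b L : ℝ} {Y : ℕ} (hb : 10 ^ 30 ≤ b) (hL : L = Real.log b)
    (hY1 : 16384 * b ^ 2 / L ≤ Y) (hY2 : (Y:ℝ) ≤ 16384 * b ^ 2 / L + 1) :
    60 ≤ L ∧ b ≤ Y ∧ (Y:ℝ) * L ≤ 32768 * b ^ 2 ∧ L ≤ Real.log Y ∧ Real.log Y ≤ 3 * L ∧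
      16384 * b ^ 2 ≤ Y * Real.log Y ∧ 20 * L ≤ b := by
  have hb0 : 0 < b := lt_of_lt_of_le (by positivity) hb
  have hL60 : 60 ≤ L := by
    rw [hL]
    have h1 : Real.log (10 ^ 30) ≤ Real.log b := Real.log_le_log (by positivity) hb
    rw [Real.log_pow] at h1
    have h2 : Real.log 10 = Real.log 2 + Real.log 5 := by
      rw [← Real.log_mul (by norm_num) (by norm_num)]; norm_num
    have h3 := Real.log_two_gt_d9
    have h4 : 2 * Real.log 2 ≤ Real.log 5 := by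
      have : (2:ℝ) * Real.log 2 = Real.log 4 := by
        rw [show (4:ℝ) = 2 ^ 2 by norm_num, Real.log_pow]; norm_num
      rw [this]
      exact Real.log_le_log (by norm_num) (by norm_num)
    push_cast at h1
    linarith
  have hLpos : 0 < L := by linarith
  -- `L ≤ 8 b ^ (1/8)`: use `log b = 4 log (b ^ (1/4)) ≤ 4 b ^ (1/4)`
  have hs : 0 < Real.sqrt b := Real.sqrt_pos.mpr hb0
  have hss : 0 < Real.sqrt (Real.sqrt b) := Real.sqrt_pos.mpr hs
  have h1 : L ≤ 4 * Real.sqrt (Real.sqrt b) := by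
    have h2 : Real.log (Real.sqrt (Real.sqrt b)) = L / 4 := by
      rw [Real.log_sqrt hs.le, Real.log_sqrt hb0.le, hL]; ring
    have h3 := Real.log_le_sub_one_of_pos hss
    rw [h2] at h3
    linarith
  have h20 : 20 * L ≤ b := by
    have h3 : (80:ℝ) ≤ Real.sqrt b := by
      rw [Real.le_sqrt (by norm_num) hb0.le]
      refine le_trans ?_ hb
      norm_num
    have h4 : Real.sqrt (Real.sqrt b) ≤ Real.sqrt b := by
      rw [Real.sqrt_le_left hs.le]
      nlinarith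
    have h5 : Real.sqrt b * Real.sqrt b = b := Real.mul_self_sqrt hb0.le
    nlinarith
  have hYb : b ≤ Y := by
    refine le_trans ?_ hY1
    rw [le_div_iff₀ hLpos]
    nlinarith
  have hYL : (Y:ℝ) * L ≤ 32768 * b ^ 2 := by
    have h3 : (Y:ℝ) * L ≤ (16384 * b ^ 2 / L + 1) * L := mul_le_mul_of_nonneg_right hY2 hLpos.le
    rw [add_mul, div_mul_cancel₀ _ hLpos.ne', one_mul] at h3
    nlinarith
  have hY0 : (0:ℝ) < Y := lt_of_lt_of_le hb0 hYb
  have hLY : L ≤ Real.log Y := by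
    rw [hL]; exact Real.log_le_log hb0 hYb
  have hLY3 : Real.log Y ≤ 3 * L := by
    have h3 : (Y:ℝ) ≤ b ^ 3 := by
      have h4 : (Y:ℝ) ≤ 32768 * b ^ 2 := by nlinarith
      refine h4.trans ?_
      have h5 : (32768:ℝ) ≤ b := by
        refine le_trans ?_ hb
        norm_num
      calc 32768 * b ^ 2 ≤ b * b ^ 2 := mul_le_mul_of_nonneg_right h5 (by positivity)
        _ = b ^ 3 := by ring
    have h4 := Real.log_le_log hY0 h3
    rw [Real.log_pow] at h4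
    rw [hL]
    exact_mod_cast h4
  refine ⟨hL60, hYb, hYL, hLY, hLY3, ?_, h20⟩
  have h3 : 16384 * b ^ 2 ≤ Y * L := by
    rw [div_le_iff₀ hLpos] at hY1
    exact hY1
  refine h3.trans ?_
  exact mul_le_mul_of_nonneg_left hLY hY0.le

/-- the final inequality between real numbers -/
lemma final_log {b L Y lY θ q s m : ℝ} (hb : 10 ^ 30 ≤ b) (hL : 60 ≤ L)
    (hY0 : 0 < Y) (hYL : Y * L ≤ 32768 * b ^ 2) (hlY : L ≤ lY) (hlY3 : lY ≤ 3 * L)
    (hYlY : 16384 * b ^ 2 ≤ Y * lY) (h20 : 20 * L ≤ b) (hY1 : 1 ≤ Y)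
    (hθ : Y / 16 ≤ θ) (hq1 : 1 ≤ q) (hqY : q * lY ≤ 4 * Y) (hθq : θ ≤ q * lY) (hs : s ≤ q * Y)
    (hs0 : 0 ≤ s) (hm : 0 ≤ m)
    (hmain : 2 * (θ / (4 * b)) * θ ≤ ((θ / (4 * b)) ^ 2 + q) * (2 * b) +
      m * (2 * (θ / (4 * b)) * (s + q) + 2 * q * s)) :
    (L / b) ^ 3 ≤ 3221225472 * m := by
  have hb0 : 0 < b := lt_of_lt_of_le (by positivity) hb
  have hL0 : 0 < L := by linarith
  have hlY0 : 0 < lY := by linarith
  have hθ0 : 0 < θ := lt_of_lt_of_le (by positivity) hθ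
  set T := θ / (4 * b) with hT
  have hT0 : 0 ≤ T := by positivity
  have hTb : T * (4 * b) = θ := by rw [hT]; field_simp
  -- `q R ≤ θ ^ 2 / (4 R)`
  have h1 : 16 * q * b ^ 2 ≤ θ ^ 2 := by
    have h2 : 16 * q * b ^ 2 * lY ≤ θ ^ 2 * lY := by
      calc 16 * q * b ^ 2 * lY = (q * lY) * (16 * b ^ 2) := by ring
        _ ≤ (4 * Y) * (16 * b ^ 2) := mul_le_mul_of_nonneg_right hqY (by positivity)
        _ = (Y / 256) * (16384 * b ^ 2) := by ring
        _ ≤ (Y / 256) * (Y * lY) := mul_le_mul_of_nonneg_left hYlY (by positivity)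
        _ = (Y / 16) ^ 2 * lY := by ring
        _ ≤ θ ^ 2 * lY := by
          apply mul_le_mul_of_nonneg_right _ hlY0.le
          exact pow_le_pow_left₀ (by positivity) hθ 2
    exact le_of_mul_le_mul_right h2 hlY0
  -- `T ≤ q`
  have h2 : T ≤ q := by
    rw [hT, div_le_iff₀ (by positivity)]
    refine hθq.trans ?_
    apply mul_le_mul_of_nonneg_left _ (by linarith)
    linarith
  have h3 : 2 * T * (s + q) + 2 * q * s ≤ 6 * q ^ 2 * Y := by
    have h4 : s + q ≤ 2 * (q * Y) := by nlinarith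
    have h5 : T * (s + q) ≤ q * (2 * (q * Y)) := by
      apply mul_le_mul h2 h4 (by linarith) (by linarith)
    have h6 : q * s ≤ q * (q * Y) := mul_le_mul_of_nonneg_left hs (by linarith)
    nlinarith
  have h4 : T * θ * (1 / 1) ≤ m * (6 * q ^ 2 * Y) := by
    have h5 : m * (2 * T * (s + q) + 2 * q * s) ≤ m * (6 * q ^ 2 * Y) :=
      mul_le_mul_of_nonneg_left h3 hm
    -- `T ^ 2 * 2 b = T θ / 2`, `q * 2 b ≤ T θ / 2`
    have h6 : T ^ 2 * (2 * b) = T * θ / 2 := by rw [← hTb]; ring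
    have h7 : q * (2 * b) ≤ T * θ / 2 := by
      have h8 : T * θ = θ ^ 2 / (4 * b) := by rw [hT]; ring
      rw [h8, div_div, le_div_iff₀ (by positivity)]
      nlinarith
    nlinarith
  -- `θ ^ 2 / (24 b q ^ 2 Y) ≤ m`
  have h5 : θ ^ 2 ≤ m * (24 * b * q ^ 2 * Y) := by
    have h6 : T * θ * (4 * b) ≤ m * (6 * q ^ 2 * Y) * (4 * b) := by
      apply mul_le_mul_of_nonneg_right _ (by positivity)
      linarith
    have h7 : T * θ * (4 * b) = θ ^ 2 := by
      calc T * θ * (4 * b) = (T * (4 * b)) * θ := by ring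
        _ = θ ^ 2 := by rw [hTb]; ring
    rw [h7] at h6
    refine h6.trans (le_of_eq ?_)
    ring
  have h6 : Y ^ 2 * lY ^ 2 ≤ m * (98304 * b * Y ^ 3) := by
    have h7 : (Y / 16) ^ 2 * lY ^ 2 ≤ θ ^ 2 * lY ^ 2 :=
      mul_le_mul_of_nonneg_right (pow_le_pow_left₀ (by positivity) hθ 2) (by positivity)
    have h8 : (q * lY) ^ 2 ≤ (4 * Y) ^ 2 := pow_le_pow_left₀ (by positivity) hqY 2
    have h9 : θ ^ 2 * lY ^ 2 ≤ m * (24 * b * q ^ 2 * Y) * lY ^ 2 :=
      mul_le_mul_of_nonneg_right h5 (by positivity)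
    have h10 : m * (24 * b * q ^ 2 * Y) * lY ^ 2 ≤ m * (24 * b * Y) * (4 * Y) ^ 2 := by
      calc m * (24 * b * q ^ 2 * Y) * lY ^ 2 = m * (24 * b * Y) * (q * lY) ^ 2 := by ring
        _ ≤ _ := mul_le_mul_of_nonneg_left h8 (by positivity)
    nlinarith
  have h7 : lY ^ 2 ≤ m * (98304 * b * Y) := by
    have h8 : Y ^ 2 * lY ^ 2 ≤ Y ^ 2 * (m * (98304 * b * Y)) := by
      refine h6.trans (le_of_eq ?_)
      ring
    exact le_of_mul_le_mul_left h8 (by positivity)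
  have h8 : L ^ 3 ≤ m * 3221225472 * b ^ 3 := by
    calc L ^ 3 = L ^ 2 * L := by ring
      _ ≤ lY ^ 2 * L := by
        apply mul_le_mul_of_nonneg_right _ hL0.le
        exact pow_le_pow_left₀ hL0.le hlY 2
      _ ≤ m * (98304 * b * Y) * L := mul_le_mul_of_nonneg_right h7 hL0.le
      _ = m * (98304 * b) * (Y * L) := by ring
      _ ≤ m * (98304 * b) * (32768 * b ^ 2) := mul_le_mul_of_nonneg_left hYL (by positivity)
      _ = m * 3221225472 * b ^ 3 := by ring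
  rw [div_pow, div_le_iff₀ (by positivity)]
  linarith

/-- the bound over a number field, from contractions of bounded energy -/
theorem field_mainA : ∃ c : ℝ, 0 < c ∧ ∀ (K : Type) [Field K] [NumberField K] (α : K), IsIntegral ℤ α →
    α ≠ 0 → (∀ n : ℕ, 0 < n → α ^ n ≠ 1) → CInj α → (∏ σ : K →ₐ[ℚ] ℂ, ‖σ α‖ = 1) →
    (∀ p : ℕ, p.Prime → p ≠ 2 → Good α p) →
    ∀ B : ℝ, 0 ≤ B →
    (lam α ≤ 1 → ∀ κ : ℝ, 0 < κ → κ ≤ 1 → ∃ ε : (K →ₐ[ℚ] ℂ) → ℝ, (∀ σ, 0 < ε σ ∧ ε σ ≤ 1 / 2) ∧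
      ∑ σ, ε σ ≤ κ ∧
      EE α ε 1 1 ≤ finrank ℚ K * (B + 4 + Real.log (1 / κ))) →
    c * (Real.log (2 + B) / (1 + B)) ^ 3 ≤ lam α := by
  obtain ⟨Y0, hY01, hY0⟩ := exists_Y0
  set b0 : ℝ := max (10 ^ 30) Y0 with hb0
  have hb30 : (10:ℝ) ^ 30 ≤ b0 := le_max_left _ _
  have hbY0 : (Y0:ℝ) ≤ b0 := le_max_right _ _
  have hb0pos : 0 < b0 := lt_of_lt_of_le (by positivity) hb30
  have hb01 : 10 ≤ b0 := by
    refine le_trans ?_ hb30
    norm_num
  refine ⟨(1 / 6442450944) / b0 ^ 3, by positivity, ?_⟩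
  intro K _ _ α hα h0 hroot hc hunit hgood B hB0 hcon
  classical
  have hlam0 := lam_nonneg α
  set b := b0 * (1 + B) with hb
  have hbb0 : b0 ≤ b := by rw [hb]; nlinarith
  have hb30' : (10:ℝ) ^ 30 ≤ b := hb30.trans hbb0
  have hbpos : 0 < b := lt_of_lt_of_le hb0pos hbb0
  set L := Real.log b with hL
  have hLB : Real.log (2 + B) ≤ L := by
    apply Real.log_le_log (by linarith)
    rw [hb]; nlinarith
  have hL2 : 0 < Real.log (2 + B) := Real.log_pos (by linarith)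
  have hlogb : L ≤ b - 1 := Real.log_le_sub_one_of_pos hbpos
  have hgoal : (1 / 6442450944) / b0 ^ 3 * (Real.log (2 + B) / (1 + B)) ^ 3 ≤
      (1 / 6442450944) * (L / b) ^ 3 := by
    have h1 : (1 / 6442450944) / b0 ^ 3 * (Real.log (2 + B) / (1 + B)) ^ 3 =
        (1 / 6442450944) * (Real.log (2 + B) / b) ^ 3 := by
      rw [hb]
      field_simp
    rw [h1]
    apply mul_le_mul_of_nonneg_left _ (by norm_num)
    apply pow_le_pow_left₀ (by positivity)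
    exact div_le_div_of_nonneg_right hLB hbpos.le
  refine hgoal.trans ?_
  by_cases hbig : 1 ≤ lam α
  · refine le_trans ?_ hbig
    have h1 : L / b ≤ 1 := by
      rw [div_le_one hbpos]; linarith
    have h2 : 0 ≤ L / b := div_nonneg (hL2.le.trans hLB) hbpos.le
    have h3 : (L / b) ^ 3 ≤ 1 := pow_le_one₀ h2 h1
    linarith
  push Not at hbig
  -- choice of Y
  set Y : ℕ := ⌈16384 * b ^ 2 / L⌉₊ with hYdef
  have hYge : 16384 * b ^ 2 / L ≤ Y := Nat.le_ceil _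
  have hYle : (Y:ℝ) ≤ 16384 * b ^ 2 / L + 1 :=
    (Nat.ceil_lt_add_one (div_nonneg (by positivity) (hL2.le.trans hLB))).le
  obtain ⟨hL60, hYb, hYL, hlY, hlY3, hYlY, h20⟩ := Y_size hb30' hL hYge hYle
  have hYR0 : (0:ℝ) < Y := lt_of_lt_of_le hbpos hYb
  have hYR10 : (10:ℝ) ≤ Y := by linarith
  have hY10 : 10 ≤ Y := by exact_mod_cast hYR10
  have hY0Y : Y0 ≤ Y := by
    have : (Y0:ℝ) ≤ Y := (hbY0.trans hbb0).trans hYb
    exact_mod_cast this
  have hY1 : 1 ≤ Y := by omega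
  have hY2 : 2 ≤ Y := by omega
  have hY8 : 8 ≤ Y := by omega
  have hY1' : (1:ℝ) ≤ Y := by linarith
  obtain ⟨ε, hε, hη, hEE1⟩ := hcon hbig.le (1 / (Y:ℝ) ^ 5) (by positivity) (by
    rw [div_le_one (by positivity)]; exact one_le_pow₀ hY1')
  have hη0 : 0 ≤ ∑ σ, ε σ := Finset.sum_nonneg fun σ _ => (hε σ).1.le
  have hEE : EE α ε 1 1 ≤ finrank ℚ K * (2 * b) := by
    refine hEE1.trans ?_
    apply mul_le_mul_of_nonneg_left _ (Nat.cast_nonneg _)
    rw [one_div_one_div, Real.log_pow]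
    push_cast
    have h1 : B + 4 ≤ b := by rw [hb]; nlinarith
    linarith
  have hYη : Y * ∑ σ, ε σ ≤ 1 / (Y:ℝ) ^ 4 := by
    calc Y * ∑ σ, ε σ ≤ Y * (1 / (Y:ℝ) ^ 5) := mul_le_mul_of_nonneg_left hη hYR0.le
      _ = 1 / (Y:ℝ) ^ 4 := by field_simp
  have hY4 : 1 / (Y:ℝ) ^ 4 ≤ 1 / 2 := by
    apply one_div_le_one_div_of_le (by norm_num)
    have : (10:ℝ) ^ 4 ≤ (Y:ℝ) ^ 4 := pow_le_pow_left₀ (by norm_num) hYR10 4
    linarith
  have hYS : Y * ∑ σ, ε σ ≤ 1 / 2 := hYη.trans hY4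
  set P := blk Y with hP
  have hlogY0 : 0 ≤ Real.log Y := Real.log_nonneg hY1'
  have hlogp : ∀ p ∈ P, Real.log p ≤ Real.log Y := by
    intro p hp
    have h1 := mem_blk.mp hp
    apply Real.log_le_log
    · exact_mod_cast h1.1.pos
    · exact_mod_cast h1.2.2
  have hθ : (Y:ℝ) / 16 ≤ ∑ p ∈ P, Real.log p := by
    have h1 := blk_sum hY0 Y hY0Y hY1
    linarith
  have hPcard : (P.card : ℝ) ≤ Nat.primeCounting Y := by
    have h1 : P.card ≤ Nat.primeCounting Y := by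
      rw [Nat.primeCounting, Nat.primeCounting', Nat.count_eq_card_filter_range]
      apply Finset.card_le_card
      intro p hp
      have h3 := mem_blk.mp hp
      rw [Finset.mem_filter, Finset.mem_range]
      exact ⟨by omega, h3.1⟩
    exact_mod_cast h1
  have hqY : (P.card : ℝ) * Real.log Y ≤ 4 * Y :=
    (mul_le_mul_of_nonneg_right hPcard hlogY0).trans (pi_le_nat hY2)
  have hθq : ∑ p ∈ P, Real.log p ≤ P.card * Real.log Y := by
    rw [← nsmul_eq_mul]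
    apply Finset.sum_le_card_nsmul
    intro p hp
    exact hlogp p hp
  have hPpos : 1 ≤ P.card := by
    rcases Nat.eq_zero_or_pos P.card with h | h
    · rw [h, Nat.cast_zero, zero_mul] at hθq
      have : (0:ℝ) < Y / 16 := by linarith
      linarith
    · exact h
  have hPpos' : (1:ℝ) ≤ P.card := by exact_mod_cast hPpos
  have hs : ∑ p ∈ P, (p : ℝ) ≤ P.card * Y := by
    rw [← nsmul_eq_mul]
    apply Finset.sum_le_card_nsmul
    intro p hp
    exact_mod_cast (mem_blk.mp hp).2.2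
  have hs0 : 0 ≤ ∑ p ∈ P, (p : ℝ) := Finset.sum_nonneg fun _ _ => Nat.cast_nonneg _
  have hmain := main_ineq2 hα h0 hroot hc (fun σ => (hε σ).1) hY1 hYS P
    (fun p hp => (mem_blk.mp hp).1)
    (fun p hp => hgood p (mem_blk.mp hp).1 (by
      have := (mem_blk.mp hp).2.1
      omega))
    (fun p hp => (mem_blk.mp hp).2.2)
    (T := (∑ p ∈ P, Real.log p) / (4 * b)) (by positivity) (by positivity : (0:ℝ) ≤ 2 * b) hEE
  have hfin := final_log hb30' hL60 hYR0 hYL hlY hlY3 hYlY h20 hY1' hθ hPpos' hqY hθq hs hs0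
    (by positivity : 0 ≤ lam α + 2 * (Y * ∑ σ, ε σ)) hmain
  -- remove the contraction
  have h1 : 2 * (Y * ∑ σ, ε σ) ≤ 2 * (1 / (Y:ℝ) ^ 4) := by linarith
  have h2 : 3221225472 * (2 * (1 / (Y:ℝ) ^ 4)) ≤ (1 / 2) * (L / b) ^ 3 := by
    rw [div_pow]
    have h3 : (1:ℝ) ≤ L ^ 3 := one_le_pow₀ (by linarith)
    have h4 : (1:ℝ) / 2 * (1 / b ^ 3) ≤ 1 / 2 * (L ^ 3 / b ^ 3) := by
      apply mul_le_mul_of_nonneg_left _ (by norm_num)
      exact div_le_div_of_nonneg_right h3 (by positivity)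
    refine le_trans ?_ h4
    have h5 : b ^ 4 ≤ (Y:ℝ) ^ 4 := pow_le_pow_left₀ hbpos.le hYb 4
    have h6 : 3221225472 * (2 * (1 / (Y:ℝ) ^ 4)) ≤ 6442450944 / b ^ 4 := by
      rw [show 3221225472 * (2 * (1 / (Y:ℝ) ^ 4)) = 6442450944 / (Y:ℝ) ^ 4 by ring]
      exact div_le_div_of_nonneg_left (by norm_num) (by positivity) h5
    refine h6.trans ?_
    rw [show (1:ℝ) / 2 * (1 / b ^ 3) = (b / 2) / b ^ 4 by field_simp]
    apply div_le_div_of_nonneg_right _ (by positivity)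
    have h7 : (6442450944:ℝ) * 2 ≤ b := by
      refine le_trans ?_ hb30'
      norm_num
    linarith
  linarith

end Pool.Agent.X184.Leh
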