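import Mathlib
import Pool.Agent.X184.Leh.E1

/-!
# Dobrowolski's theorem with the defect of the discriminant
-/

set_option autoImplicit false

open Finset Polynomial Module IntermediateField Pool.Agent.H388SL Pool.Agent.Y947.DL
  Pool.Agent.Y947.DM

namespace Pool.Agent.X184.Leh

/-- the bound for a represented polynomial -/
lemma rep_mainA {c : ℝ} (hc : ∀ (K : Type) [Field K] [NumberField K] (α : K), IsIntegral ℤ α →
    α ≠ 0 → (∀ n : ℕ, 0 < n → α ^ n ≠ 1) → CInj α → (∏ σ : K →ₐ[ℚ] ℂ, ‖σ α‖ = 1) →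
    (∀ p : ℕ, p.Prime → p ≠ 2 → Good α p) →
    ∀ B : ℝ, 0 ≤ B →
    (lam α ≤ 1 → ∀ κ : ℝ, 0 < κ → κ ≤ 1 → ∃ ε : (K →ₐ[ℚ] ℂ) → ℝ, (∀ σ, 0 < ε σ ∧ ε σ ≤ 1 / 2) ∧
      ∑ σ, ε σ ≤ κ ∧
      EE α ε 1 1 ≤ finrank ℚ K * (B + 4 + Real.log (1 / κ))) →
    c * (Real.log (2 + B) / (1 + B)) ^ 3 ≤ lam α)
    {p : ℤ[X]} {K : Type} [Field K] [NumberField K] {α : K} (h : Rep p K α) (hm : p.Monic)
    (hc0 : |p.coeff 0| = 1) (hM : 1 < MM p)
    (hgood : ∀ q : ℕ, q.Prime → q ≠ 2 → Good α q) :
    c * (Real.log (2 + dfct p) / (1 + dfct p)) ^ 3 ≤ Real.log (MM p) := by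
  have hd0 := dfct_nonneg p
  rw [h.log_MM]
  apply hc K α h.isInt (h.ne_zero hc0) (h.not_root hM) h.inj (h.prod_norm hc0) hgood
    (dfct p) hd0
  intro hlam κ hκ0 hκ1
  have hcard : Fintype.card (K →ₐ[ℚ] ℂ) = finrank ℚ K := AlgHom.card ℚ K ℂ
  have hn : 0 < finrank ℚ K := finrank_pos
  have hn1 : (1:ℝ) ≤ finrank ℚ K := by exact_mod_cast hn
  set n : ℝ := (finrank ℚ K : ℝ) with hndef
  have hn0 : 0 < n := by linarith
  set ε : ℝ := κ / (2 * n) with hε
  have hε0 : 0 < ε := by positivity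
  have hε2 : ε ≤ 1 / 2 := by
    rw [hε, div_le_div_iff₀ (by positivity) (by norm_num)]
    nlinarith
  refine ⟨fun _ => ε, fun _ => ⟨hε0, hε2⟩, ?_, ?_⟩
  · rw [Finset.sum_const, Finset.card_univ, hcard, nsmul_eq_mul, ← hndef, hε]
    have e : n * (κ / (2 * n)) = κ / 2 := by field_simp
    rw [e]
    linarith
  · refine (EE_le_discr h hm hε0 hε2).trans ?_
    rw [← hndef]
    have hlogκ : 0 ≤ Real.log (1 / κ) := Real.log_nonneg (by rw [le_div_iff₀ hκ0]; linarith)
    have hD := discr_pos_rep h hm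
    have e1 : Real.log (1 / ε) = Real.log 2 + Real.log n + Real.log (1 / κ) := by
      rw [hε, ← Real.log_mul (by norm_num) hn0.ne', ← Real.log_mul (by positivity) (by positivity)]
      congr 1
      field_simp
    have e2 : 2 * ε * n ^ 2 = κ * n := by
      rw [hε]; field_simp
    have h1 : n * Real.log n - Real.log |(p.discr : ℝ)| ≤ n * dfct p := by
      have h2 : Real.log ((p.natDegree : ℝ) ^ p.natDegree / |(p.discr : ℝ)|) ≤
          Real.posLog ((p.natDegree : ℝ) ^ p.natDegree / |(p.discr : ℝ)|) := by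
        rw [Real.posLog_apply]; exact le_max_right _ _
      have hpn : (p.natDegree : ℝ) = n := by rw [hndef, h.fin]
      have hpn0 : (p.natDegree : ℝ) ^ p.natDegree ≠ 0 := by
        rw [hpn]; positivity
      rw [Real.log_div hpn0 hD.ne', Real.log_pow, hpn] at h2
      unfold dfct
      rw [hpn]
      rw [mul_div_cancel₀ _ hn0.ne']
      exact h2
    rw [e1, e2]
    have h3 := Real.log_two_lt_d9
    have h7 : 2 * n * lam α ≤ 2 * n := by nlinarith [lam_nonneg α]
    have h8 : κ * n ≤ n := by nlinarith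
    have h9 : n * Real.log 2 ≤ n := by nlinarith
    nlinarith

/-- monic units -/
theorem monic_caseA : ∃ c : ℝ, 0 < c ∧ ∀ f : ℤ[X], Irreducible f → f.Monic → |f.coeff 0| = 1 →
    1 < MM f → c * (Real.log (2 + dfct f) / (1 + dfct f)) ^ 3 ≤ Real.log (MM f) := by
  obtain ⟨c, hc0, hcm⟩ := field_mainA
  refine ⟨c, hc0, ?_⟩
  have ind : ∀ n : ℕ, ∀ f : ℤ[X], f.natDegree = n → Irreducible f → f.Monic → |f.coeff 0| = 1 →
      1 < MM f → c * (Real.log (2 + dfct f) / (1 + dfct f)) ^ 3 ≤ Real.log (MM f) := by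
    intro n
    induction n using Nat.strong_induction_on with
    | _ n ih =>
      intro f hfn hf hm hf0 hM
      by_cases hexp : ∃ q : ℕ, q.Prime ∧ ∃ g : ℤ[X], f = expand ℤ q g
      · obtain ⟨q, hq, g, hg⟩ := hexp
        have hgirr : Irreducible g := of_irreducible_expand hq.ne_zero (by rw [← hg]; exact hf)
        have hgm : g.Monic := by
          have h1 := hm
          rw [hg, Monic, leadingCoeff_expand hq.pos] at h1
          exact h1
        have hMM : MM f = MM g := by rw [hg, MM_expand hq.pos]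
        have hg0 : |g.coeff 0| = 1 := by
          rw [hg, coeff_expand hq.pos, if_pos (dvd_zero q), Nat.zero_div] at hf0
          exact hf0
        have hg1 : g.natDegree ≠ 0 := natDegree_ne (by rw [← hMM]; exact hM) hgm
        have hdf : dfct f = dfct g := by
          rw [hg, dfct_expand hq.pos hgm (Nat.pos_of_ne_zero hg1) hg0]
        have hgd : g.natDegree < n := by
          rw [← hfn, hg, natDegree_expand]
          have := hq.two_le
          have h2 : 0 < g.natDegree := Nat.pos_of_ne_zero hg1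
          nlinarith
        have h1 := ih g.natDegree hgd g rfl hgirr hgm hg0 (by rw [← hMM]; exact hM)
        rw [hMM, hdf]
        exact h1
      · push Not at hexp
        obtain ⟨z, hz⟩ := exists_zero hM hm
        obtain ⟨hNF, hrep⟩ := exists_rep f hf hm z hz
        apply rep_mainA hcm hrep hm hf0 hM
        intro q hq hq2
        exact good_of_witness (hrep.ne_zero hf0) hrep.inj hq hq2 (hrep.witness hq (hexp q hq))
  intro f hf hm hf0 hM
  exact ind _ f rfl hf hm hf0 hM

lemma ratio_le_one {x : ℝ} (hx : 0 ≤ x) : Real.log (2 + x) / (1 + x) ≤ 1 := by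
  rw [div_le_one (by linarith)]
  have := Real.log_le_sub_one_of_pos (show (0:ℝ) < 2 + x by linarith)
  linarith

lemma ratio_nonneg {x : ℝ} (hx : 0 ≤ x) : 0 ≤ Real.log (2 + x) / (1 + x) :=
  div_nonneg (Real.log_nonneg (by linarith)) (by linarith)

/-- `log (2 + x) / (1 + x)` decreases -/
lemma ratio_anti {x y : ℝ} (hx : 0 ≤ x) (hxy : x ≤ y) :
    Real.log (2 + y) / (1 + y) ≤ Real.log (2 + x) / (1 + x) := by
  have hx1 : 0 < 1 + x := by linarith
  have hy1 : 0 < 1 + y := by linarith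
  have h1 : 1 + (1 + y) / (1 + x) * (1 + x) ≤ (1 + (1 + x)) ^ ((1 + y) / (1 + x)) :=
    one_add_mul_self_le_rpow_one_add (by linarith) (by rw [le_div_iff₀ hx1]; linarith)
  rw [div_mul_cancel₀ _ hx1.ne'] at h1
  have h2 := Real.log_le_log (by linarith) h1
  rw [Real.log_rpow (by linarith)] at h2
  rw [div_le_div_iff₀ hy1 hx1]
  have h3 : (1 + y) / (1 + x) * Real.log (1 + (1 + x)) * (1 + x) =
      Real.log (1 + (1 + x)) * (1 + y) := by field_simp
  have h4 := mul_le_mul_of_nonneg_right h2 hx1.le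
  rw [h3] at h4
  rw [show (2:ℝ) + y = 1 + (1 + y) by ring, show (2:ℝ) + x = 1 + (1 + x) by ring]
  exact h4

/-- the general irreducible case -/
theorem irr_caseA : ∃ c : ℝ, 0 < c ∧ ∀ f : ℤ[X], Irreducible f →
    1 < MM f → c * (Real.log (2 + dfct f) / (1 + dfct f)) ^ 3 ≤ Real.log (MM f) := by
  obtain ⟨c1, hc1, hc⟩ := monic_caseA
  have hlog2 : 0 < Real.log 2 := Real.log_pos (by norm_num)
  set c := min c1 (Real.log 2) with hcdef
  have hc0 : 0 < c := lt_min (by positivity) hlog2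
  refine ⟨c, hc0, ?_⟩
  intro f hf hM
  have hdf := dfct_nonneg f
  have hr0 : 0 ≤ (Real.log (2 + dfct f) / (1 + dfct f)) ^ 3 := pow_nonneg (ratio_nonneg hdf) 3
  have hr1 : (Real.log (2 + dfct f) / (1 + dfct f)) ^ 3 ≤ 1 :=
    pow_le_one₀ (ratio_nonneg hdf) (ratio_le_one hdf)
  have hcmp : c * (Real.log (2 + dfct f) / (1 + dfct f)) ^ 3 ≤
      c1 * (Real.log (2 + dfct f) / (1 + dfct f)) ^ 3 :=
    mul_le_mul_of_nonneg_right (min_le_left _ _) hr0
  by_cases hbig : 2 ≤ MM f
  · have h1 : c ≤ Real.log 2 := min_le_right _ _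
    have h2 : Real.log 2 ≤ Real.log (MM f) := Real.log_le_log (by norm_num) hbig
    have h3 : c * (Real.log (2 + dfct f) / (1 + dfct f)) ^ 3 ≤ c := by
      nlinarith
    linarith
  push Not at hbig
  have hf0 : f ≠ 0 := hf.ne_zero
  have hlc : |f.leadingCoeff| = 1 := by
    have h1 : 1 ≤ |f.leadingCoeff| := Int.one_le_abs (leadingCoeff_ne_zero.mpr hf0)
    have h3 := leadingCoeff_le_MM f
    by_contra hne
    have h2 : 2 ≤ |f.leadingCoeff| := by omega
    have h4 : (2:ℝ) ≤ |(f.leadingCoeff : ℝ)| := by exact_mod_cast h2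
    linarith
  have hcc : |f.coeff 0| = 1 := by
    have h0 : f.coeff 0 ≠ 0 := by
      intro h
      have hdvd : (X : ℤ[X]) ∣ f := X_dvd_iff.mpr h
      obtain ⟨g, hg⟩ := hdvd
      rcases hf.isUnit_or_isUnit hg with h1 | h1
      · exact Polynomial.not_isUnit_X h1
      · have h2 : MM f = 1 := by
          rw [hg, MM_mul]
          obtain ⟨r, hr, hrg⟩ := Polynomial.isUnit_iff.mp h1
          have h3 : MM (X : ℤ[X]) = 1 := by
            rw [MM, Polynomial.map_X]
            have := mahlerMeasure_X_sub_C 0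
            simpa using this
          have h4 : MM g = 1 := by
            rw [← hrg, MM, Polynomial.map_C, mahlerMeasure_const, eq_intCast, Complex.norm_intCast]
            rcases Int.isUnit_iff.mp hr with h5 | h5 <;> simp [h5]
          rw [h3, h4, one_mul]
        linarith
    have h1 : 1 ≤ |f.coeff 0| := Int.one_le_abs h0
    have h3 := coeff_zero_le_MM f
    by_contra hne
    have h2 : 2 ≤ |f.coeff 0| := by omega
    have h4 : (2:ℝ) ≤ |(f.coeff 0 : ℝ)| := by exact_mod_cast h2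
    linarith
  rcases (abs_eq (by norm_num : (0:ℤ) ≤ 1)).mp hlc with h | h
  · exact hcmp.trans (hc f hf h hcc hM)
  · have hnm : (-f).Monic := by
      rw [Monic, leadingCoeff_neg, h]; norm_num
    have hM' : 1 < MM (-f) := by rw [MM_neg]; exact hM
    have hd : 0 < f.natDegree := by
      have := natDegree_ne hM' hnm
      rw [natDegree_neg] at this
      omega
    have h1 := hc (-f) (by simpa using (irreducible_units_mul (-1 : ℤ[X]ˣ)).mpr hf) hnm
      (by rw [coeff_neg, abs_neg]; exact hcc) hM'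
    rw [MM_neg, dfct_neg hlc hd] at h1
    exact hcmp.trans h1

/-- `B ≤ log n` -/
lemma dfct_le_log (f : ℤ[X]) (hn : 0 < f.natDegree) : dfct f ≤ Real.log f.natDegree := by
  have hn0 : (0:ℝ) < f.natDegree := by exact_mod_cast hn
  have hn1 : (1:ℝ) ≤ f.natDegree := by exact_mod_cast hn
  unfold dfct
  rw [div_le_iff₀ hn0]
  have h1 : (f.natDegree : ℝ) ^ f.natDegree / |(f.discr : ℝ)| ≤ (f.natDegree : ℝ) ^ f.natDegree := by
    by_cases h : f.discr = 0
    · rw [h]
      simp
    · apply div_le_self (by positivity)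
      have : 1 ≤ |f.discr| := Int.one_le_abs h
      exact_mod_cast this
  have h2 := Real.posLog_le_posLog (by positivity) h1
  rw [Real.posLog_pow, Real.posLog_eq_log (x := (f.natDegree : ℝ)) (by rw [abs_of_pos hn0]; exact hn1)] at h2
  linarith

end Pool.Agent.X184.Leh
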