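import Mathlib
import Pool.Agent.X184.Leh.D2

/-!
# Sums of squares of power sums
-/

set_option autoImplicit false

open Finset Polynomial Module IntermediateField Pool.Agent.H388SL Pool.Agent.Y947.DL
  Pool.Agent.Y947.DM

namespace Pool.Agent.X184.Leh

section

variable {K : Type*} [Field K] [NumberField K]

/-- power sums of the contracted points -/
noncomputable def TT (α : K) (ε : ℝ) (m : ℕ) : ℂ := ∑ σ : K →ₐ[ℚ] ℂ, ww α (fun _ => ε) σ ^ m

theorem core {α : K} (hα : IsIntegral ℤ α) (h0 : α ≠ 0) (hroot : ∀ n : ℕ, 0 < n → α ^ n ≠ 1)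
    (hinj : ∀ m : ℕ, 0 < m → CInj (α ^ m)) {ε : ℝ} (hε0 : 0 < ε) (hε : ε ≤ 1 / 2)
    (Q : Finset ℕ) (hQ : ∀ m ∈ Q, 0 < m) (c : ℕ → ℝ) (hc : ∀ m, 0 ≤ c m) :
    ‖∑ m ∈ Q, (c m : ℂ) * TT α ε m‖ ^ 2 ≤ (∑ m ∈ Q, c m ^ 2) * EE α (fun _ => ε) 1 1 +
      2 * finrank ℚ K * (∑ m ∈ Q, c m) * (∑ m ∈ Q, m * c m) * (lam α + finrank ℚ K * ε) := by
  classical
  have hcard : Fintype.card (K →ₐ[ℚ] ℂ) = finrank ℚ K := AlgHom.card ℚ K ℂ
  have hεσ : ∀ σ : K →ₐ[ℚ] ℂ, 0 < (fun _ : K →ₐ[ℚ] ℂ => ε) σ ∧ (fun _ : K →ₐ[ℚ] ℂ => ε) σ ≤ 1 / 2 :=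
    fun _ => ⟨hε0, hε⟩
  have hsumε : ∑ σ : K →ₐ[ℚ] ℂ, (fun _ : K →ₐ[ℚ] ℂ => ε) σ = finrank ℚ K * ε := by
    rw [Finset.sum_const, Finset.card_univ, hcard, nsmul_eq_mul]
  have hr0 : (0:ℝ) < 1 - ε := by linarith
  set t : ℝ := (1 - ε) ^ 2 with ht
  have ht0 : 0 ≤ t := by positivity
  have ht1 : t < 1 := by rw [ht]; nlinarith
  set s : Finset (ℕ × (K →ₐ[ℚ] ℂ)) := Q ×ˢ Finset.univ with hs
  set w : ℕ × (K →ₐ[ℚ] ℂ) → ℂ := fun i => ww α (fun _ => ε) i.2 ^ i.1 with hw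
  set b : ℕ × (K →ₐ[ℚ] ℂ) → ℂ := fun i => (((1 - ε)⁻¹ : ℝ) : ℂ) * w i with hb
  have hwn : ∀ i ∈ s, ‖w i‖ ≤ 1 - ε := by
    rintro ⟨m, σ⟩ hi
    rw [hs, Finset.mem_product] at hi
    have h1 : ‖ww α (fun _ => ε) σ‖ ≤ 1 - ε := by
      unfold ww
      rw [norm_mul, Complex.norm_real, Real.norm_of_nonneg hr0.le]
      exact mul_le_of_le_one_right hr0.le (norm_refl_le _)
    have h2 : ‖ww α (fun _ => ε) σ‖ ≤ 1 := by linarith
    rw [hw]
    dsimp only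
    rw [norm_pow]
    exact (pow_le_of_le_one (norm_nonneg _) h2 (hQ m hi.1).ne').trans h1
  have hbn : ∀ i ∈ s, ‖b i‖ ≤ 1 := by
    intro i hi
    rw [hb]
    dsimp only
    rw [norm_mul, Complex.norm_real, Real.norm_of_nonneg (inv_nonneg.mpr hr0.le)]
    have h1 := hwn i hi
    rw [inv_mul_le_iff₀ hr0, mul_one]
    exact h1
  have hP := posdef s (fun i => c i.1) b hbn ht0 ht1
  have hne : ((1 - ε : ℝ) : ℂ) ≠ 0 := by
    rw [Complex.ofReal_ne_zero]; exact hr0.ne'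
  -- the left side
  have e1 : ∀ i j, (t : ℂ) * (b i * starRingEnd ℂ (b j)) = w i * starRingEnd ℂ (w j) := by
    intro i j
    rw [hb, ht]
    dsimp only
    rw [map_mul, Complex.conj_ofReal]
    push_cast
    push_cast at hne
    field_simp
  have e2 : ∑ i ∈ s, ∑ j ∈ s, c i.1 * c j.1 * Real.log ‖1 - (t : ℂ) * (b i * starRingEnd ℂ (b j))‖
      = - ∑ m ∈ Q, ∑ l ∈ Q, c m * c l * EE α (fun _ => ε) m l := by
    rw [hs, Finset.sum_product, ← Finset.sum_neg_distrib]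
    refine Finset.sum_congr rfl fun m _ => ?_
    have h1 : ∀ σ : K →ₐ[ℚ] ℂ, ∑ j ∈ Q ×ˢ (Finset.univ : Finset (K →ₐ[ℚ] ℂ)),
        c m * c j.1 * Real.log ‖1 - (t : ℂ) * (b (m, σ) * starRingEnd ℂ (b j))‖ =
        ∑ l ∈ Q, ∑ τ : K →ₐ[ℚ] ℂ, c m * c l *
          Real.log ‖1 - ww α (fun _ => ε) σ ^ m * starRingEnd ℂ (ww α (fun _ => ε) τ ^ l)‖ := by
      intro σ
      rw [Finset.sum_product]
      refine Finset.sum_congr rfl fun l _ => Finset.sum_congr rfl fun τ _ => ?_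
      rw [e1]
    rw [Finset.sum_congr rfl fun σ _ => h1 σ, Finset.sum_comm, ← Finset.sum_neg_distrib]
    refine Finset.sum_congr rfl fun l _ => ?_
    unfold EE
    rw [Finset.mul_sum, ← Finset.sum_neg_distrib]
    refine Finset.sum_congr rfl fun σ _ => ?_
    rw [Finset.mul_sum, ← Finset.sum_neg_distrib]
    refine Finset.sum_congr rfl fun τ _ => ?_
    ring
  have e3 : t * ‖∑ i ∈ s, ((c i.1 : ℝ) : ℂ) * b i‖ ^ 2 = ‖∑ m ∈ Q, (c m : ℂ) * TT α ε m‖ ^ 2 := by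
    have h1 : ∑ i ∈ s, ((c i.1 : ℝ) : ℂ) * b i =
        (((1 - ε)⁻¹ : ℝ) : ℂ) * ∑ m ∈ Q, (c m : ℂ) * TT α ε m := by
      rw [hs, Finset.sum_product, Finset.mul_sum]
      refine Finset.sum_congr rfl fun m _ => ?_
      unfold TT
      rw [Finset.mul_sum, Finset.mul_sum]
      refine Finset.sum_congr rfl fun σ _ => ?_
      rw [hb, hw]
      dsimp only
      ring
    rw [h1, norm_mul, mul_pow, Complex.norm_real, Real.norm_of_nonneg (inv_nonneg.mpr hr0.le), ht,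
      ← mul_assoc, ← mul_pow, mul_inv_cancel₀ hr0.ne', one_pow, one_mul]
  rw [e2, neg_mul, e3] at hP
  -- bounds for the energies
  set L : ℝ := lam α + finrank ℚ K * ε with hL
  have hE : ∀ m ∈ Q, ∀ l ∈ Q, c m * c l * EE α (fun _ => ε) m l ≤
      (if m = l then c m ^ 2 * EE α (fun _ => ε) 1 1 else 0) +
        c m * c l * (finrank ℚ K * ((m + l) * L)) := by
    intro m hm l hl
    have hcc : 0 ≤ c m * c l := mul_nonneg (hc m) (hc l)
    by_cases hml : m = l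
    · subst hml
      rw [if_pos rfl]
      have h1 := EE_self hα h0 (by simpa using hinj 1 one_pos) hεσ (hQ m hm) (hinj m (hQ m hm))
      rw [hsumε, ← hL] at h1
      have h2 := mul_le_mul_of_nonneg_left h1 hcc
      refine h2.trans (le_of_eq ?_)
      ring
    · rw [if_neg hml, zero_add]
      apply mul_le_mul_of_nonneg_left _ hcc
      have hne' := conj_ne hα h0 hroot hml (hinj m (hQ m hm)) (hinj l (hQ l hl))
      have h1 := EE_cross hεσ (hQ m hm).ne' (hQ l hl).ne' hne'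
      rw [hsumε, ← hL] at h1
      have h2 := Real.log_nonneg (one_le_cross (hα.pow m) (hα.pow l) (hinj l (hQ l hl)) hne')
      linarith
  have hsum := Finset.sum_le_sum fun m hm => Finset.sum_le_sum fun l hl => hE m hm l hl
  have e4 : ∑ m ∈ Q, ∑ l ∈ Q, ((if m = l then c m ^ 2 * EE α (fun _ => ε) 1 1 else 0) +
        c m * c l * (finrank ℚ K * ((m + l) * L))) =
      (∑ m ∈ Q, c m ^ 2) * EE α (fun _ => ε) 1 1 +
      2 * finrank ℚ K * (∑ m ∈ Q, c m) * (∑ m ∈ Q, m * c m) * L := by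
    simp only [Finset.sum_add_distrib]
    congr 1
    · rw [Finset.sum_mul]
      refine Finset.sum_congr rfl fun m hm => ?_
      rw [Finset.sum_ite_eq, if_pos hm]
    · have h1 : ∀ m ∈ Q, ∑ l ∈ Q, c m * c l * (finrank ℚ K * ((m + l) * L)) =
          finrank ℚ K * L * (m * c m) * (∑ l ∈ Q, c l) + finrank ℚ K * L * c m * (∑ l ∈ Q, l * c l) := by
        intro m _
        rw [Finset.mul_sum, Finset.mul_sum, ← Finset.sum_add_distrib]
        refine Finset.sum_congr rfl fun l _ => ?_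
        ring
      rw [Finset.sum_congr rfl h1, Finset.sum_add_distrib, ← Finset.sum_mul, ← Finset.sum_mul,
        ← Finset.mul_sum, ← Finset.mul_sum]
      ring
  rw [e4] at hsum
  linarith

end

end Pool.Agent.X184.Leh
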