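import Mathlib
import Pool.Agent.X184.Leh.P1

/-!
# Sums of squares of power sums, second part
-/

set_option autoImplicit false

open Finset Polynomial Module IntermediateField Pool.Agent.H388SL Pool.Agent.Y947.DL
  Pool.Agent.Y947.DM

namespace Pool.Agent.X184.Leh

section

variable {K : Type*} [Field K] [NumberField K]

lemma EE_nonneg (α : K) {ε : ℝ} (hε0 : 0 < ε) (hε : ε ≤ 1 / 2) : 0 ≤ EE α (fun _ => ε) 1 1 := by
  have h := psd (Finset.univ : Finset (K →ₐ[ℚ] ℂ)) (fun _ => (1:ℝ))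
    (fun σ => ww α (fun _ => ε) σ ^ 1) (fun σ _ => by
      rw [pow_one]
      exact ww_norm (fun _ => ⟨hε0, hε⟩) σ)
  simpa [EE] using h

lemma part_bound {α : K} (hα : IsIntegral ℤ α) (h0 : α ≠ 0) (hroot : ∀ n : ℕ, 0 < n → α ^ n ≠ 1)
    (hinj : ∀ m : ℕ, 0 < m → CInj (α ^ m)) {ε : ℝ} (hε0 : 0 < ε) (hε : ε ≤ 1 / 2) (k : ℕ)
    (ω : ℂ) (hω : ‖ω‖ = 1) :
    ∑ m ∈ Finset.Icc 1 k, (max 0 (ω * TT α ε m).re) ^ 2 ≤
      EE α (fun _ => ε) 1 1 + 2 * finrank ℚ K * k ^ 2 * (lam α + finrank ℚ K * ε) := by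
  set c : ℕ → ℝ := fun m => max 0 (ω * TT α ε m).re with hc
  have hc0 : ∀ m, 0 ≤ c m := fun m => le_max_left _ _
  set V : ℝ := ∑ m ∈ Finset.Icc 1 k, c m ^ 2 with hV
  set E : ℝ := EE α (fun _ => ε) 1 1 with hE
  set L : ℝ := lam α + finrank ℚ K * ε with hL
  have hL0 : 0 ≤ L := add_nonneg (lam_nonneg α) (by positivity)
  have hE0 : 0 ≤ E := EE_nonneg α hε0 hε
  have hn0 : (0:ℝ) ≤ finrank ℚ K := Nat.cast_nonneg _
  have hV0 : 0 ≤ V := Finset.sum_nonneg fun m _ => sq_nonneg _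
  have hcore := core hα h0 hroot hinj hε0 hε (Finset.Icc 1 k)
    (fun m hm => (Finset.mem_Icc.mp hm).1) c hc0
  -- lower bound for the left side
  have h1 : V ≤ ‖∑ m ∈ Finset.Icc 1 k, (c m : ℂ) * TT α ε m‖ := by
    have h2 : (ω * ∑ m ∈ Finset.Icc 1 k, (c m : ℂ) * TT α ε m).re = V := by
      rw [Finset.mul_sum, Complex.re_sum, hV]
      refine Finset.sum_congr rfl fun m _ => ?_
      have e : ω * ((c m : ℂ) * TT α ε m) = (c m : ℂ) * (ω * TT α ε m) := by ring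
      rw [e, Complex.re_ofReal_mul]
      rcases le_total 0 (ω * TT α ε m).re with h | h
      · have h3 : c m = (ω * TT α ε m).re := max_eq_right h
        rw [← h3]; ring
      · have h3 : c m = 0 := max_eq_left h
        rw [h3]; ring
    calc V = (ω * ∑ m ∈ Finset.Icc 1 k, (c m : ℂ) * TT α ε m).re := h2.symm
      _ ≤ ‖ω * ∑ m ∈ Finset.Icc 1 k, (c m : ℂ) * TT α ε m‖ := Complex.re_le_norm _
      _ = _ := by rw [norm_mul, hω, one_mul]
  have h2 : V ^ 2 ≤ V * E + 2 * finrank ℚ K * (∑ m ∈ Finset.Icc 1 k, c m) *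
      (∑ m ∈ Finset.Icc 1 k, m * c m) * L := by
    have := pow_le_pow_left₀ hV0 h1 2
    linarith
  have hS0 : 0 ≤ ∑ m ∈ Finset.Icc 1 k, c m := Finset.sum_nonneg fun m _ => hc0 m
  have h3 : (∑ m ∈ Finset.Icc 1 k, c m) ^ 2 ≤ k * V := by
    have h4 := sq_sum_le_card_mul_sum_sq (s := Finset.Icc 1 k) (f := c)
    simpa [Nat.card_Icc] using h4
  have h4 : ∑ m ∈ Finset.Icc 1 k, (m:ℝ) * c m ≤ k * ∑ m ∈ Finset.Icc 1 k, c m := by
    rw [Finset.mul_sum]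
    refine Finset.sum_le_sum fun m hm => ?_
    apply mul_le_mul_of_nonneg_right _ (hc0 m)
    exact_mod_cast (Finset.mem_Icc.mp hm).2
  have h5 : (∑ m ∈ Finset.Icc 1 k, c m) * (∑ m ∈ Finset.Icc 1 k, (m:ℝ) * c m) ≤ k ^ 2 * V := by
    calc (∑ m ∈ Finset.Icc 1 k, c m) * (∑ m ∈ Finset.Icc 1 k, (m:ℝ) * c m)
        ≤ (∑ m ∈ Finset.Icc 1 k, c m) * (k * ∑ m ∈ Finset.Icc 1 k, c m) :=
          mul_le_mul_of_nonneg_left h4 hS0
      _ = k * (∑ m ∈ Finset.Icc 1 k, c m) ^ 2 := by ring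
      _ ≤ k * (k * V) := mul_le_mul_of_nonneg_left h3 (Nat.cast_nonneg k)
      _ = _ := by ring
  have h6 : 2 * (finrank ℚ K : ℝ) * (∑ m ∈ Finset.Icc 1 k, c m) *
      (∑ m ∈ Finset.Icc 1 k, (m:ℝ) * c m) * L ≤ V * (2 * finrank ℚ K * k ^ 2 * L) := by
    have h7 : 0 ≤ 2 * (finrank ℚ K : ℝ) * L := by positivity
    have h8 := mul_le_mul_of_nonneg_left h5 h7
    calc 2 * (finrank ℚ K : ℝ) * (∑ m ∈ Finset.Icc 1 k, c m) *
      (∑ m ∈ Finset.Icc 1 k, (m:ℝ) * c m) * L = 2 * (finrank ℚ K : ℝ) * L *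
        ((∑ m ∈ Finset.Icc 1 k, c m) * (∑ m ∈ Finset.Icc 1 k, (m:ℝ) * c m)) := by ring
      _ ≤ 2 * (finrank ℚ K : ℝ) * L * (k ^ 2 * V) := h8
      _ = _ := by ring
  have h7 : V * V ≤ V * (E + 2 * finrank ℚ K * k ^ 2 * L) := by
    rw [mul_add]
    have : V * V = V ^ 2 := by ring
    linarith
  rcases hV0.eq_or_lt with h | h
  · rw [← h]; positivity
  · exact le_of_mul_le_mul_left h7 h

lemma sum_sq_TT {α : K} (hα : IsIntegral ℤ α) (h0 : α ≠ 0) (hroot : ∀ n : ℕ, 0 < n → α ^ n ≠ 1)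
    (hinj : ∀ m : ℕ, 0 < m → CInj (α ^ m)) {ε : ℝ} (hε0 : 0 < ε) (hε : ε ≤ 1 / 2) (k : ℕ) :
    ∑ m ∈ Finset.Icc 1 k, ‖TT α ε m‖ ^ 2 ≤
      4 * (EE α (fun _ => ε) 1 1 + 2 * finrank ℚ K * k ^ 2 * (lam α + finrank ℚ K * ε)) := by
  have h1 := part_bound hα h0 hroot hinj hε0 hε k 1 (by simp)
  have h2 := part_bound hα h0 hroot hinj hε0 hε k (-1) (by simp)
  have h3 := part_bound hα h0 hroot hinj hε0 hε k Complex.I (by simp)
  have h4 := part_bound hα h0 hroot hinj hε0 hε k (-Complex.I) (by simp)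
  have e : ∀ m ∈ Finset.Icc 1 k, ‖TT α ε m‖ ^ 2 = (max 0 (1 * TT α ε m).re) ^ 2 +
      (max 0 (-1 * TT α ε m).re) ^ 2 + (max 0 (Complex.I * TT α ε m).re) ^ 2 +
      (max 0 (-Complex.I * TT α ε m).re) ^ 2 := by
    intro m _
    have e1 : (1 * TT α ε m).re = (TT α ε m).re := by rw [one_mul]
    have e2 : (-1 * TT α ε m).re = -(TT α ε m).re := by simp
    have e3 : (Complex.I * TT α ε m).re = -(TT α ε m).im := by simp
    have e4 : (-Complex.I * TT α ε m).re = (TT α ε m).im := by simp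
    rw [e1, e2, e3, e4, ← Complex.normSq_eq_norm_sq, Complex.normSq_apply]
    have key : ∀ x : ℝ, (max 0 x) ^ 2 + (max 0 (-x)) ^ 2 = x * x := by
      intro x
      rcases le_total 0 x with h | h
      · rw [max_eq_right h, max_eq_left (by linarith)]; ring
      · rw [max_eq_left h, max_eq_right (by linarith)]; ring
    have k1 := key (TT α ε m).re
    have k2 := key (TT α ε m).im
    linarith
  rw [Finset.sum_congr rfl e, Finset.sum_add_distrib, Finset.sum_add_distrib, Finset.sum_add_distrib]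
  linarith

/-- the difference of a power of a complex number and of its reflection -/
lemma pow_sub_refl {z : ℂ} (hz : z ≠ 0) {m : ℕ} (hm : 0 < m) {Λ : ℝ} (hΛ : Real.log (max 1 ‖z‖) ≤ Λ) :
    ‖z ^ m - refl z ^ m‖ ≤ 2 * m * Real.exp (m * Λ) * Real.log (max 1 ‖z‖) := by
  unfold H388SL.refl
  split_ifs with h
  · rw [sub_self, norm_zero]
    have := Real.log_nonneg (le_max_left 1 ‖z‖)
    positivity
  · push Not at h
    have hz0 : 0 < ‖z‖ := norm_pos_iff.mpr hz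
    rw [max_eq_right h.le] at hΛ ⊢
    set x : ℝ := Real.log ‖z‖ with hx
    have hx0 : 0 < x := Real.log_pos h
    have hzx : ‖z‖ = Real.exp x := (Real.exp_log hz0).symm
    have e1 : z * starRingEnd ℂ z = ((‖z‖ ^ 2 : ℝ) : ℂ) := by
      rw [Complex.mul_conj, Complex.normSq_eq_norm_sq]
    have hc : starRingEnd ℂ z ≠ 0 := by simpa using hz
    have e2 : (starRingEnd ℂ z)⁻¹ = z * (((‖z‖ ^ 2)⁻¹ : ℝ) : ℂ) := by
      rw [Complex.ofReal_inv, ← e1]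
      field_simp
    have e3 : z ^ m - ((starRingEnd ℂ z)⁻¹) ^ m = z ^ m * (((1 - ((‖z‖ ^ 2)⁻¹) ^ m : ℝ)) : ℂ) := by
      rw [e2, mul_pow]; push_cast; ring
    have e4 : ((‖z‖ ^ 2)⁻¹) ^ m = Real.exp (-(2 * m * x)) := by
      rw [hzx, ← Real.exp_nat_mul, ← Real.exp_neg, ← Real.exp_nat_mul]
      congr 1
      push_cast
      ring
    have h5 : 1 - Real.exp (-(2 * m * x)) ≤ 2 * m * x := by
      have := Real.add_one_le_exp (-(2 * m * x))
      linarith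
    have h6 : 0 ≤ 1 - Real.exp (-(2 * m * x)) := by
      have : Real.exp (-(2 * m * x)) ≤ 1 := Real.exp_le_one_iff.mpr (by
        have : 0 ≤ 2 * (m:ℝ) * x := by positivity
        linarith)
      linarith
    rw [e3, norm_mul, Complex.norm_real, Real.norm_of_nonneg (by rw [e4]; exact h6), norm_pow, e4]
    have h7 : ‖z‖ ^ m ≤ Real.exp (m * Λ) := by
      rw [hzx, ← Real.exp_nat_mul]
      exact Real.exp_le_exp.mpr (mul_le_mul_of_nonneg_left hΛ (Nat.cast_nonneg m))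
    calc ‖z‖ ^ m * (1 - Real.exp (-(2 * m * x))) ≤ Real.exp (m * Λ) * (2 * m * x) :=
          mul_le_mul h7 h5 h6 (Real.exp_nonneg _)
      _ = _ := by ring

/-- power sums of the conjugates and of the contracted reflected conjugates -/
lemma power_sum_le {α : K} (h0 : α ≠ 0) {ε : ℝ} (hε0 : 0 < ε) (hε : ε ≤ 1 / 2) {m : ℕ} (hm : 0 < m)
    (hmε : m * ε ≤ 1 / 2) :
    ‖∑ σ : K →ₐ[ℚ] ℂ, (σ α) ^ m‖ ≤ 2 * ‖TT α ε m‖ + 2 * m * Real.exp (m * lam α) * lam α := by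
  have h1 : ‖∑ σ : K →ₐ[ℚ] ℂ, (σ α) ^ m - ∑ σ : K →ₐ[ℚ] ℂ, refl (σ α) ^ m‖ ≤
      2 * m * Real.exp (m * lam α) * lam α := by
    rw [← Finset.sum_sub_distrib]
    refine (norm_sum_le _ _).trans ?_
    have h2 : ∀ σ ∈ (Finset.univ : Finset (K →ₐ[ℚ] ℂ)), ‖(σ α) ^ m - refl (σ α) ^ m‖ ≤
        2 * m * Real.exp (m * lam α) * Real.log (max 1 ‖σ α‖) := by
      intro σ _
      apply pow_sub_refl ((map_ne_zero σ).mpr h0) hm
      exact Finset.single_le_sum (f := fun σ : K →ₐ[ℚ] ℂ => Real.log (max 1 ‖σ α‖))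
        (fun τ _ => Real.log_nonneg (le_max_left _ _)) (Finset.mem_univ σ)
    refine (Finset.sum_le_sum h2).trans (le_of_eq ?_)
    rw [← Finset.mul_sum]
    rfl
  have h2 : TT α ε m = (((1 - ε) ^ m : ℝ) : ℂ) * ∑ σ : K →ₐ[ℚ] ℂ, refl (σ α) ^ m := by
    unfold TT ww
    rw [Finset.mul_sum]
    refine Finset.sum_congr rfl fun σ _ => ?_
    rw [mul_pow]
    push_cast
    ring
  have h3 : (1:ℝ) / 2 ≤ (1 - ε) ^ m := by
    have := one_add_mul_le_pow (show -2 ≤ -ε by linarith) m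
    have h4 : 1 - m * ε ≤ (1 - ε) ^ m := by simpa [sub_eq_add_neg] using this
    linarith
  have h4 : ‖∑ σ : K →ₐ[ℚ] ℂ, refl (σ α) ^ m‖ ≤ 2 * ‖TT α ε m‖ := by
    rw [h2, norm_mul, Complex.norm_real, Real.norm_of_nonneg (by linarith)]
    have := norm_nonneg (∑ σ : K →ₐ[ℚ] ℂ, refl (σ α) ^ m)
    nlinarith
  have h5 := norm_le_norm_add_norm_sub' (∑ σ : K →ₐ[ℚ] ℂ, (σ α) ^ m)
    (∑ σ : K →ₐ[ℚ] ℂ, refl (σ α) ^ m)
  linarith

end

end Pool.Agent.X184.Leh
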