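import Mathlib
import Pool.Agent.X184.Leh.P2

/-!
# Sums of squares of power sums: integer polynomials
-/

set_option autoImplicit false

open Finset Polynomial Module IntermediateField Pool.Agent.H388SL Pool.Agent.Y947.DL
  Pool.Agent.Y947.DM

namespace Pool.Agent.X184.Leh

lemma log_le_sqrt' {y : ℝ} (hy : 0 < y) : Real.log y ≤ Real.sqrt y := by
  have hs : 0 < Real.sqrt y := Real.sqrt_pos.mpr hy
  have h1 := Real.log_le_sub_one_of_pos (show 0 < Real.sqrt y / 2 by positivity)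
  rw [Real.log_div hs.ne' (by norm_num), Real.log_sqrt hy.le] at h1
  have h2 := Real.log_two_lt_d9
  linarith

/-- the sum of the squares of the first `k` power sums -/
noncomputable def sqS (f : ℤ[X]) (k : ℕ) : ℝ :=
  ∑ m ∈ Finset.Icc 1 k, ‖((f.map (Int.castRingHom ℂ)).roots.map fun z => z ^ m).sum‖ ^ 2

theorem rep_power {p : ℤ[X]} {K : Type} [Field K] [NumberField K] {α : K} (h : Rep p K α)
    (hm : p.Monic) (hc0 : |p.coeff 0| = 1) (hM : 1 < MM p)
    (hinj : ∀ m : ℕ, 0 < m → CInj (α ^ m)) {k : ℕ} (hk : 1 ≤ k)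
    (hkM : 4 * k * lam α ≤ Real.log (2 * finrank ℚ K)) :
    ∑ m ∈ Finset.Icc 1 k, ‖∑ σ : K →ₐ[ℚ] ℂ, (σ α) ^ m‖ ^ 2 ≤
      132 * finrank ℚ K * (1 + Real.log k + dfct p + k ^ 2 * lam α) := by
  have hn : 0 < finrank ℚ K := finrank_pos
  have hn1 : (1:ℝ) ≤ finrank ℚ K := by exact_mod_cast hn
  have hk1 : (1:ℝ) ≤ k := by exact_mod_cast hk
  set n : ℝ := (finrank ℚ K : ℝ) with hndef
  set κ : ℝ := (k:ℝ) with hκ
  have hn0 : 0 < n := by linarith
  have hk0 : 0 < κ := by linarith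
  set Λ : ℝ := lam α with hΛ
  have hΛ0 : 0 ≤ Λ := lam_nonneg α
  set ε : ℝ := 1 / (2 * n * κ ^ 2) with hε
  have hε0 : 0 < ε := by positivity
  have hk2 : 1 ≤ κ ^ 2 := one_le_pow₀ hk1
  have hε2 : ε ≤ 1 / 2 := by
    rw [hε, div_le_div_iff₀ (by positivity) (by norm_num)]
    nlinarith
  have hkε : ∀ m ∈ Finset.Icc 1 k, (m:ℝ) * ε ≤ 1 / 2 := by
    intro m hm'
    have h1 : (m:ℝ) ≤ κ := by
      rw [hκ]; exact_mod_cast (Finset.mem_Icc.mp hm').2
    have h2 : (m:ℝ) * ε ≤ κ * ε := mul_le_mul_of_nonneg_right h1 hε0.le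
    have h3 : κ * ε ≤ 1 / 2 := by
      rw [hε, mul_one_div, div_le_div_iff₀ (by positivity) (by norm_num)]
      nlinarith
    linarith
  -- the energy
  have hE := EE_le_discr h hm hε0 hε2
  rw [← hndef, ← hΛ] at hE
  have hD := discr_pos_rep h hm
  have e1 : Real.log (1 / ε) = Real.log 2 + Real.log n + 2 * Real.log κ := by
    rw [hε, one_div_one_div, Real.log_mul (by positivity) (by positivity),
      Real.log_mul (by norm_num) hn0.ne', Real.log_pow]
    push_cast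
    ring
  have e2 : 2 * ε * n ^ 2 ≤ n := by
    rw [hε, mul_one_div, div_mul_eq_mul_div, div_le_iff₀ (by positivity)]
    nlinarith
  have h1 : n * Real.log n - Real.log |(p.discr : ℝ)| ≤ n * dfct p := by
    have h2 : Real.log ((p.natDegree : ℝ) ^ p.natDegree / |(p.discr : ℝ)|) ≤
        Real.posLog ((p.natDegree : ℝ) ^ p.natDegree / |(p.discr : ℝ)|) := by
      rw [Real.posLog_apply]; exact le_max_right _ _
    have hpn : (p.natDegree : ℝ) = n := by rw [hndef, h.fin]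
    have hpn0 : (p.natDegree : ℝ) ^ p.natDegree ≠ 0 := by
      rw [hpn]; positivity
    rw [Real.log_div hpn0 hD.ne', Real.log_pow, hpn] at h2
    unfold dfct
    rw [hpn]
    rw [mul_div_cancel₀ _ hn0.ne']
    exact h2
  have hd0 := dfct_nonneg p
  have hlk : 0 ≤ Real.log κ := Real.log_nonneg hk1
  have hE' : EE α (fun _ => ε) 1 1 ≤ n * (dfct p + 2 * Λ + 1.7 + 2 * Real.log κ) := by
    refine hE.trans ?_
    rw [e1]
    have h3 := Real.log_two_lt_d9
    nlinarith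
  have hT := sum_sq_TT h.isInt (h.ne_zero hc0) (h.not_root hM) hinj hε0 hε2 k
  rw [← hndef, ← hΛ, ← hκ] at hT
  set W : ℝ := 1 + Real.log κ + dfct p + κ ^ 2 * Λ with hW
  have hkΛ : Λ ≤ κ ^ 2 * Λ := le_mul_of_one_le_left hΛ0 hk2
  have hT' : ∑ m ∈ Finset.Icc 1 k, ‖TT α ε m‖ ^ 2 ≤ 16 * n * W := by
    refine hT.trans ?_
    have e3 : 2 * n * κ ^ 2 * (Λ + n * ε) = n * (2 * κ ^ 2 * Λ + 1) := by
      rw [hε]; field_simp
    rw [e3, hW]
    have : n * (dfct p + 2 * Λ + 1.7 + 2 * Real.log κ) + n * (2 * κ ^ 2 * Λ + 1) ≤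
        n * (4 * (1 + Real.log κ + dfct p + κ ^ 2 * Λ)) := by
      rw [← mul_add]
      apply mul_le_mul_of_nonneg_left _ hn0.le
      nlinarith
    nlinarith
  -- the individual terms
  have hterm : ∀ m ∈ Finset.Icc 1 k, ‖∑ σ : K →ₐ[ℚ] ℂ, (σ α) ^ m‖ ^ 2 ≤
      8 * ‖TT α ε m‖ ^ 2 + 8 * κ ^ 2 * Λ ^ 2 * Real.exp (2 * κ * Λ) := by
    intro m hm'
    have hm1 := (Finset.mem_Icc.mp hm').1
    have hmk : (m:ℝ) ≤ κ := by
      rw [hκ]; exact_mod_cast (Finset.mem_Icc.mp hm').2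
    have h2 := power_sum_le (h.ne_zero hc0) hε0 hε2 hm1 (hkε m hm')
    rw [← hΛ] at h2
    have h3 : 2 * (m:ℝ) * Real.exp (m * Λ) * Λ ≤ 2 * κ * Real.exp (κ * Λ) * Λ := by
      have h4 : Real.exp (m * Λ) ≤ Real.exp (κ * Λ) :=
        Real.exp_le_exp.mpr (mul_le_mul_of_nonneg_right hmk hΛ0)
      have h5 : 2 * (m:ℝ) * Real.exp (m * Λ) ≤ 2 * κ * Real.exp (κ * Λ) :=
        mul_le_mul (by linarith) h4 (Real.exp_nonneg _) (by positivity)
      exact mul_le_mul_of_nonneg_right h5 hΛ0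
    have h4 : ‖∑ σ : K →ₐ[ℚ] ℂ, (σ α) ^ m‖ ≤ 2 * ‖TT α ε m‖ + 2 * κ * Real.exp (κ * Λ) * Λ := by
      linarith
    have h5 := pow_le_pow_left₀ (norm_nonneg _) h4 2
    have h6 : Real.exp (2 * κ * Λ) = Real.exp (κ * Λ) ^ 2 := by
      rw [← Real.exp_nat_mul]; congr 1; push_cast; ring
    rw [h6]
    nlinarith [sq_nonneg (2 * ‖TT α ε m‖ - 2 * κ * Real.exp (κ * Λ) * Λ)]
  have hsum := Finset.sum_le_sum hterm
  rw [Finset.sum_add_distrib, ← Finset.mul_sum, Finset.sum_const, nsmul_eq_mul, Nat.card_Icc] at hsum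
  have e4 : ((k + 1 - 1 : ℕ) : ℝ) = κ := by simp [hκ]
  rw [e4] at hsum
  have h7 : κ * (8 * κ ^ 2 * Λ ^ 2 * Real.exp (2 * κ * Λ)) ≤ 4 * n * (κ ^ 2 * Λ) := by
    have h2n : (0:ℝ) < 2 * n := by positivity
    have h8 : Real.exp (2 * κ * Λ) ≤ Real.sqrt (2 * n) := by
      rw [Real.le_sqrt' (Real.exp_pos _), ← Real.exp_nat_mul, ← Real.le_log_iff_exp_le h2n]
      push_cast
      linarith
    have h9 : 8 * κ * Λ ≤ 2 * Real.sqrt (2 * n) := by
      have := log_le_sqrt' h2n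
      linarith
    have h10 : 8 * κ * Λ * Real.exp (2 * κ * Λ) ≤ 2 * Real.sqrt (2 * n) * Real.sqrt (2 * n) :=
      mul_le_mul h9 h8 (Real.exp_nonneg _) (by positivity)
    have h11 : 2 * Real.sqrt (2 * n) * Real.sqrt (2 * n) = 4 * n := by
      rw [mul_assoc, Real.mul_self_sqrt h2n.le]; ring
    rw [h11] at h10
    have h12 := mul_le_mul_of_nonneg_right h10 (by positivity : 0 ≤ κ ^ 2 * Λ)
    calc κ * (8 * κ ^ 2 * Λ ^ 2 * Real.exp (2 * κ * Λ)) =
        8 * κ * Λ * Real.exp (2 * κ * Λ) * (κ ^ 2 * Λ) := by ring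
      _ ≤ _ := h12
  have h13 : κ ^ 2 * Λ ≤ W := by rw [hW]; linarith
  have h14 : 4 * n * (κ ^ 2 * Λ) ≤ 4 * n * W := mul_le_mul_of_nonneg_left h13 (by positivity)
  linarith

/-- the inequality for monic polynomials -/
theorem monic_power (f : ℤ[X]) (hf : Irreducible f) (hm : f.Monic) (hc0 : |f.coeff 0| = 1)
    (hM : 1 < MM f)
    (hnd : ∀ z w : ℂ, aeval z f = 0 → aeval w f = 0 → z ≠ w → ∀ m : ℕ, 0 < m → z ^ m ≠ w ^ m)
    {k : ℕ} (hk : 1 ≤ k) (hkM : 4 * k * Real.log (MM f) ≤ Real.log (2 * f.natDegree)) :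
    sqS f k ≤ 132 * f.natDegree * (1 + Real.log k + dfct f + k ^ 2 * Real.log (MM f)) := by
  obtain ⟨z, hz⟩ := exists_zero hM hm
  obtain ⟨hNF, hrep⟩ := exists_rep f hf hm z hz
  have hzero : ∀ σ : adjoin ℚ {z} →ₐ[ℚ] ℂ, aeval (σ (AdjoinSimple.gen ℚ z)) f = 0 := by
    intro σ
    have h1 : aeval (AdjoinSimple.gen ℚ z) f = 0 := by
      rw [← hrep.minp]; exact minpoly.aeval ℤ _
    have h2 := map_aevalZ σ f (AdjoinSimple.gen ℚ z)
    rw [h1, map_zero] at h2
    exact h2.symm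
  have hinj : ∀ m : ℕ, 0 < m → CInj ((AdjoinSimple.gen ℚ z) ^ m) := by
    intro m hm0 σ τ h
    have h1 : (σ (AdjoinSimple.gen ℚ z)) ^ m = (τ (AdjoinSimple.gen ℚ z)) ^ m := by
      have h2 : σ ((AdjoinSimple.gen ℚ z) ^ m) = τ ((AdjoinSimple.gen ℚ z) ^ m) := h
      rwa [map_pow, map_pow] at h2
    by_contra hne
    have h2 : σ (AdjoinSimple.gen ℚ z) ≠ τ (AdjoinSimple.gen ℚ z) := fun h3 => hne (hrep.inj h3)
    exact hnd _ _ (hzero σ) (hzero τ) h2 m hm0 h1
  have h := rep_power hrep hm hc0 hM hinj hk (by rw [← hrep.log_MM, hrep.fin]; exact hkM)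
  rw [← hrep.log_MM, hrep.fin] at h
  refine le_trans (le_of_eq ?_) h
  unfold sqS
  refine Finset.sum_congr rfl fun m _ => ?_
  congr 2
  have hroots : (f.map (Int.castRingHom ℂ)).roots =
      (Finset.univ : Finset (adjoin ℚ {z} →ₐ[ℚ] ℂ)).val.map
        fun τ => τ (AdjoinSimple.gen ℚ z) := by
    rw [hrep.map_eq, Finset.prod_eq_multiset_prod]
    have e : (Multiset.map (fun τ : adjoin ℚ {z} →ₐ[ℚ] ℂ => X - C (τ (AdjoinSimple.gen ℚ z)))
        Finset.univ.val) = Multiset.map (fun a : ℂ => X - C a)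
          (Multiset.map (fun τ : adjoin ℚ {z} →ₐ[ℚ] ℂ => τ (AdjoinSimple.gen ℚ z))
            Finset.univ.val) := by
      rw [Multiset.map_map]; rfl
    rw [e, Polynomial.roots_multiset_prod_X_sub_C]
  rw [hroots, Multiset.map_map]
  rfl

/-- the units case: `M(f) < 2` -/
theorem irr_power (f : ℤ[X]) (hf : Irreducible f) (hM : 1 < MM f) (hM2 : MM f < 2)
    (hnd : ∀ z w : ℂ, aeval z f = 0 → aeval w f = 0 → z ≠ w → ∀ m : ℕ, 0 < m → z ^ m ≠ w ^ m)
    {k : ℕ} (hk : 1 ≤ k) (hkM : 4 * k * Real.log (MM f) ≤ Real.log (2 * f.natDegree)) :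
    sqS f k ≤ 132 * f.natDegree * (1 + Real.log k + dfct f + k ^ 2 * Real.log (MM f)) ∧
      0 < f.natDegree := by
  have hf0 : f ≠ 0 := hf.ne_zero
  have hlc : |f.leadingCoeff| = 1 := by
    have h1 : 1 ≤ |f.leadingCoeff| := Int.one_le_abs (leadingCoeff_ne_zero.mpr hf0)
    have h3 := leadingCoeff_le_MM f
    by_contra hne
    have h2 : 2 ≤ |f.leadingCoeff| := by omega
    have h4 : (2:ℝ) ≤ |(f.leadingCoeff : ℝ)| := by exact_mod_cast h2
    linarith
  have hcc : |f.coeff 0| = 1 := by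
    have h0 : f.coeff 0 ≠ 0 := by
      intro h
      have hdvd : (X : ℤ[X]) ∣ f := X_dvd_iff.mpr h
      obtain ⟨g, hg⟩ := hdvd
      rcases hf.isUnit_or_isUnit hg with h1 | h1
      · exact Polynomial.not_isUnit_X h1
      · have h2 : MM f = 1 := by
          rw [hg, MM_mul]
          obtain ⟨r, hr, hrg⟩ := Polynomial.isUnit_iff.mp h1
          have h3 : MM (X : ℤ[X]) = 1 := by
            rw [MM, Polynomial.map_X]
            have := mahlerMeasure_X_sub_C 0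
            simpa using this
          have h4 : MM g = 1 := by
            rw [← hrg, MM, Polynomial.map_C, mahlerMeasure_const, eq_intCast, Complex.norm_intCast]
            rcases Int.isUnit_iff.mp hr with h5 | h5 <;> simp [h5]
          rw [h3, h4, one_mul]
        linarith
    have h1 : 1 ≤ |f.coeff 0| := Int.one_le_abs h0
    have h3 := coeff_zero_le_MM f
    by_contra hne
    have h2 : 2 ≤ |f.coeff 0| := by omega
    have h4 : (2:ℝ) ≤ |(f.coeff 0 : ℝ)| := by exact_mod_cast h2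
    linarith
  rcases (abs_eq (by norm_num : (0:ℤ) ≤ 1)).mp hlc with h | h
  · exact ⟨monic_power f hf h hcc hM hnd hk hkM, Nat.pos_of_ne_zero (natDegree_ne hM h)⟩
  · have hnm : (-f).Monic := by
      rw [Monic, leadingCoeff_neg, h]; norm_num
    have hM' : 1 < MM (-f) := by rw [MM_neg]; exact hM
    have hd : 0 < f.natDegree := by
      have := natDegree_ne hM' hnm
      rw [natDegree_neg] at this
      omega
    have h1 := monic_power (-f) (by simpa using (irreducible_units_mul (-1 : ℤ[X]ˣ)).mpr hf) hnm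
      (by rw [coeff_neg, abs_neg]; exact hcc) hM' (by
        intro z w hz hw hne m hm
        rw [map_neg, neg_eq_zero] at hz hw
        exact hnd z w hz hw hne m hm) hk (by rw [MM_neg, natDegree_neg]; exact hkM)
    have hS : sqS (-f) k = sqS f k := by
      unfold sqS
      rw [Polynomial.map_neg, Polynomial.roots_neg]
    rw [MM_neg, dfct_neg hlc hd, natDegree_neg, hS] at h1
    exact ⟨h1, hd⟩

end Pool.Agent.X184.Leh
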